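import Mathlib

/-!
Best approximations of `1/(2π)` and separation of the points `n mod 2π`.
-/

namespace Pool.Agent.H62.NSin

open Filter Finset Topology Real

/-- `ξ = 1 / (2π)`. -/
noncomputable def xi : ℝ := 1 / (2 * π)

/-- Distance of `m ξ` to the nearest integer. -/
noncomputable def nd (m : ℕ) : ℝ := |m * xi - round (m * xi)|

theorem nd_nonneg (m : ℕ) : 0 ≤ nd m := abs_nonneg _

theorem nd_le (m : ℕ) (j : ℤ) : nd m ≤ |m * xi - j| := round_le _ _

theorem nd_pos {m : ℕ} (hm : 0 < m) : 0 < nd m := by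
  unfold nd
  rw [abs_pos]
  intro h
  have hmr : (m : ℝ) ≠ 0 := by positivity
  have hpi : π ≠ 0 := Real.pi_ne_zero
  have h1 : (m : ℝ) * xi = round ((m : ℝ) * xi) := by linarith
  set j : ℤ := round ((m : ℝ) * xi) with hj
  unfold xi at h1
  have hj0 : (j : ℝ) ≠ 0 := by
    intro h0
    rw [h0] at h1
    have : (m : ℝ) * (1 / (2 * π)) ≠ 0 := by positivity
    exact this h1
  have h2 : π = ((m : ℚ) / (2 * j) : ℚ) := by
    push_cast
    field_simp at h1 ⊢
    linarith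
  exact irrational_pi ⟨_, h2.symm⟩

/-- A record `q` : if `p/q` and `p'/m` are distinct the determinant is nonzero. -/
theorem det_ne {q m : ℕ} (hq : 0 < q) (hm : 0 < m) (hqm : q < m) (h : nd m < nd q) :
    1 ≤ q * nd m + m * nd q := by
  set p : ℤ := round ((q : ℝ) * xi) with hp
  set p' : ℤ := round ((m : ℝ) * xi) with hp'
  by_contra hcon
  push_neg at hcon
  have e1 : ((q * p' - m * p : ℤ) : ℝ) = q * (p' - m * xi) + m * (q * xi - p) := by
    push_cast; ring
  have e2 : |((q * p' - m * p : ℤ) : ℝ)| < 1 := by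
    rw [e1]
    refine lt_of_le_of_lt ?_ hcon
    refine (abs_add_le _ _).trans ?_
    rw [abs_mul, abs_mul, Nat.abs_cast, Nat.abs_cast, abs_sub_comm (p' : ℝ)]
    exact le_rfl
  have e3 : q * p' - m * p = 0 := by
    have : |q * p' - m * p| < 1 := by exact_mod_cast e2
    rwa [Int.abs_lt_one_iff] at this
  have e4 : (q : ℝ) * p' = m * p := by
    have : ((q * p' - m * p : ℤ) : ℝ) = 0 := by rw [e3]; simp
    push_cast at this
    linarith
  have hqr : (0 : ℝ) < q := by exact_mod_cast hq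
  have hmr : (0 : ℝ) < m := by exact_mod_cast hm
  have e5 : (q : ℝ) * nd m = m * nd q := by
    unfold nd
    rw [← abs_of_pos hqr, ← abs_of_pos hmr, ← abs_mul, ← abs_mul, abs_of_pos hqr, abs_of_pos hmr]
    congr 1
    rw [mul_sub, mul_sub, ← hp, ← hp', e4]
    ring
  have h3 : (q : ℝ) < m := by exact_mod_cast hqm
  have h4 := nd_nonneg m
  nlinarith

/-- Separation below a record. -/
theorem sep_below {q : ℕ} (hq : ∀ m, 0 < m → m < q → nd q < nd m) {m : ℕ}
    (hm : 0 < m) (hmq : m < q) : 1 / (2 * (q : ℝ)) ≤ nd m := by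
  have h1 := det_ne hm (by omega) hmq (hq m hm hmq)
  have h2 := hq m hm hmq
  have hqr : (0 : ℝ) < q := by have : 0 < q := by omega
                               exact_mod_cast this
  have hmr : (m : ℝ) < q := by exact_mod_cast hmq
  rw [div_le_iff₀ (by positivity)]
  have h3 := nd_nonneg q
  have hm0 : (0 : ℝ) < m := by exact_mod_cast hm
  nlinarith

/-- Separation above a record. -/
theorem sep_above {q : ℕ} (hq0 : 0 < q) (hq : ∀ m, 0 < m → m < q → nd q < nd m) {m : ℕ}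
    (hm : 0 < m) (hmq : (m : ℝ) * nd q < 1 / 2) : nd q ≤ nd m := by
  by_contra hcon
  push_neg at hcon
  have hlt : q < m := by
    rcases lt_trichotomy m q with h | h | h
    · exact absurd (hq m hm h) (not_lt.2 hcon.le)
    · rw [h] at hcon; exact absurd hcon (lt_irrefl _)
    · exact h
  have h1 := det_ne hq0 hm hlt hcon
  have h2 : (q : ℝ) < m := by exact_mod_cast hlt
  have h3 := nd_nonneg q
  have h4 := nd_nonneg m
  have hq0' : (0 : ℝ) < q := by exact_mod_cast hq0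
  nlinarith

/-- The chosen period. -/
noncomputable def qq (N : ℕ) : ℕ := sInf {q : ℕ | 0 < q ∧ nd q ≤ 1 / √N}

theorem qq_exists {N : ℕ} (hN : 0 < N) : ∃ q : ℕ, 0 < q ∧ (q : ℝ) ≤ √N ∧ nd q ≤ 1 / √N := by
  have hs : 0 < Nat.sqrt N := Nat.sqrt_pos.2 hN
  obtain ⟨k, hk0, hk1, hk2⟩ := Real.exists_nat_abs_mul_sub_round_le xi hs
  have hle : (Nat.sqrt N : ℝ) ≤ √N := Real.nat_sqrt_le_real_sqrt
  have hlt : √N ≤ (Nat.sqrt N : ℝ) + 1 := Real.real_sqrt_le_nat_sqrt_succ
  have hp : 0 < √(N : ℝ) := Real.sqrt_pos.2 (by exact_mod_cast hN)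
  refine ⟨k, hk0, le_trans (by exact_mod_cast hk1) hle, ?_⟩
  unfold nd
  refine hk2.trans ?_
  exact one_div_le_one_div_of_le hp hlt

theorem qq_mem {N : ℕ} (hN : 0 < N) : 0 < qq N ∧ nd (qq N) ≤ 1 / √N := by
  obtain ⟨q, h1, _, h3⟩ := qq_exists hN
  exact Nat.sInf_mem (s := {q : ℕ | 0 < q ∧ nd q ≤ 1 / √N}) ⟨q, h1, h3⟩

theorem qq_le {N : ℕ} (hN : 0 < N) : (qq N : ℝ) ≤ √N := by
  obtain ⟨q, h1, h2, h3⟩ := qq_exists hN
  have : qq N ≤ q := Nat.sInf_le ⟨h1, h3⟩
  exact le_trans (by exact_mod_cast this) h2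

theorem qq_record {N : ℕ} (hN : 0 < N) : ∀ m, 0 < m → m < qq N → nd (qq N) < nd m := by
  intro m hm hmq
  have := Nat.notMem_of_lt_sInf (s := {q : ℕ | 0 < q ∧ nd q ≤ 1 / √N}) hmq
  simp only [Set.mem_setOf_eq, not_and, not_le] at this
  exact lt_of_le_of_lt (qq_mem hN).2 (this hm)

theorem qq_tendsto : Tendsto (fun N => qq N) atTop atTop := by
  rw [tendsto_atTop]
  intro b
  -- all nd m for 0 < m < b are bounded below
  have h1 : ∀ m ∈ Finset.Ioo 0 b, ∀ᶠ N : ℕ in atTop, 1 / √(N : ℝ) < nd m := by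
    intro m hm
    rw [Finset.mem_Ioo] at hm
    have h2 : Tendsto (fun N : ℕ => 1 / √(N : ℝ)) atTop (𝓝 0) := by
      have h3 : Tendsto (fun N : ℕ => √(N : ℝ)) atTop atTop :=
        Real.tendsto_sqrt_atTop.comp tendsto_natCast_atTop_atTop
      have h4 := h3.inv_tendsto_atTop
      refine h4.congr fun N => ?_
      simp
    exact h2.eventually (gt_mem_nhds (nd_pos hm.1))
  rw [← Filter.eventually_all_finset] at h1
  filter_upwards [h1, eventually_gt_atTop 0] with N hN hN0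
  by_contra hcon
  push_neg at hcon
  have h3 := qq_mem hN0
  have := hN (qq N) (Finset.mem_Ioo.2 ⟨h3.1, hcon⟩)
  linarith [h3.2]

/-- The nearest multiple of `2π` and the displacement. -/
noncomputable def pp (N : ℕ) : ℤ := round ((qq N : ℝ) * xi)

noncomputable def dd (N : ℕ) : ℝ := qq N - 2 * π * pp N

theorem dd_eq (N : ℕ) : |dd N| = 2 * π * nd (qq N) := by
  unfold dd nd pp
  have hpi := Real.pi_pos
  have : (qq N : ℝ) - 2 * π * (round ((qq N : ℝ) * xi) : ℤ)
      = (2 * π) * (qq N * xi - (round ((qq N : ℝ) * xi) : ℤ)) := by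
    unfold xi; field_simp
  rw [this, abs_mul, abs_of_pos (by positivity)]

theorem dd_le {N : ℕ} (hN : 0 < N) : |dd N| ≤ 2 * π / √N := by
  rw [dd_eq]
  have := (qq_mem hN).2
  calc 2 * π * nd (qq N) ≤ 2 * π * (1 / √N) := by
        gcongr
    _ = _ := by ring

theorem qq_mul_dd {N : ℕ} (hN : 0 < N) : (qq N : ℝ) * |dd N| ≤ 2 * π := by
  have h1 := qq_le hN
  have h2 := dd_le hN
  have hp : 0 < √(N : ℝ) := Real.sqrt_pos.2 (by exact_mod_cast hN)
  calc (qq N : ℝ) * |dd N| ≤ √N * (2 * π / √N) := by gcongr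
    _ = 2 * π := by field_simp

theorem N_mul_dd_sq {N : ℕ} (hN : 0 < N) : (N : ℝ) * |dd N| ^ 2 ≤ 4 * π ^ 2 := by
  have h2 := dd_le hN
  have hNr : (0 : ℝ) < N := by exact_mod_cast hN
  have hp : 0 < √(N : ℝ) := Real.sqrt_pos.2 hNr
  calc (N : ℝ) * |dd N| ^ 2 ≤ N * (2 * π / √N) ^ 2 := by gcongr
    _ = 4 * π ^ 2 := by
        rw [div_pow, Real.sq_sqrt hNr.le]
        field_simp
        ring

end Pool.Agent.H62.NSin
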