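import Mathlib

/-!
Koopman operators of an invertible measure preserving transformation on bounded measurable
functions, and a van der Corput inequality along progressions of step `q`.
-/

namespace Pool.Agent.H62.NSin

open MeasureTheory Filter Finset Topology

variable {X : Type*} [MeasurableSpace X]

/-- `sh T k f` is the function `x ↦ f (T ^ k x)`. -/
def sh (T : X ≃ᵐ X) (k : ℤ) (f : X → ℝ) : X → ℝ := fun x => f ((T.toEquiv ^ k) x)

/-- Measurable functions bounded by one in absolute value. -/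
def BM (f : X → ℝ) : Prop := Measurable f ∧ ∀ x, |f x| ≤ 1

theorem mp_zpow {μ : Measure X} {T : X ≃ᵐ X} (hT : MeasurePreserving T μ μ) (k : ℤ) :
    MeasurePreserving (fun x => (T.toEquiv ^ k) x) μ μ := by
  induction k using Int.induction_on with
  | zero => exact MeasurePreserving.id μ
  | succ n ih =>
    have : (fun x => (T.toEquiv ^ ((n : ℤ) + 1)) x) = (fun x => (T.toEquiv ^ (n : ℤ)) x) ∘ T := by
      funext x
      rw [zpow_add_one]
      rfl
    rw [this]
    exact ih.comp hT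
  | pred n ih =>
    have : (fun x => (T.toEquiv ^ (-(n : ℤ) - 1)) x)
        = (fun x => (T.toEquiv ^ (-(n : ℤ))) x) ∘ T.symm := by
      funext x
      rw [zpow_sub_one]
      rfl
    rw [this]
    exact ih.comp (MeasurePreserving.symm T hT)

theorem meas_zpow (T : X ≃ᵐ X) (k : ℤ) : Measurable (fun x => (T.toEquiv ^ k) x) := by
  induction k using Int.induction_on with
  | zero => exact measurable_id
  | succ n ih =>
    have : (fun x => (T.toEquiv ^ ((n : ℤ) + 1)) x) = (fun x => (T.toEquiv ^ (n : ℤ)) x) ∘ T := by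
      funext x
      rw [zpow_add_one]
      rfl
    rw [this]
    exact ih.comp T.measurable
  | pred n ih =>
    have : (fun x => (T.toEquiv ^ (-(n : ℤ) - 1)) x)
        = (fun x => (T.toEquiv ^ (-(n : ℤ))) x) ∘ T.symm := by
      funext x
      rw [zpow_sub_one]
      rfl
    rw [this]
    exact ih.comp T.symm.measurable

theorem sh_sh (T : X ≃ᵐ X) (a b : ℤ) (f : X → ℝ) : sh T a (sh T b f) = sh T (a + b) f := by
  funext x
  simp only [sh]
  rw [add_comm, zpow_add]
  rfl

@[simp] theorem sh_zero (T : X ≃ᵐ X) (f : X → ℝ) : sh T 0 f = f := by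
  funext x
  simp [sh]

theorem sh_mul (T : X ≃ᵐ X) (a : ℤ) (f g : X → ℝ) : sh T a (f * g) = sh T a f * sh T a g := rfl

theorem sh_one (T : X ≃ᵐ X) (a : ℤ) : sh T a (1 : X → ℝ) = 1 := rfl

theorem sh_prod {ι : Type*} (T : X ≃ᵐ X) (a : ℤ) (S : Finset ι) (f : ι → X → ℝ) :
    sh T a (∏ s ∈ S, f s) = ∏ s ∈ S, sh T a (f s) := by
  classical
  induction S using Finset.induction_on with
  | empty => simp [sh_one]
  | insert s S hs ih => rw [Finset.prod_insert hs, Finset.prod_insert hs, sh_mul, ih]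

namespace BM

theorem one : BM (1 : X → ℝ) := ⟨measurable_const, fun _ => by simp⟩

theorem mul {f g : X → ℝ} (hf : BM f) (hg : BM g) : BM (f * g) :=
  ⟨hf.1.mul hg.1, fun x => by
    rw [Pi.mul_apply, abs_mul]
    exact mul_le_one₀ (hf.2 x) (abs_nonneg _) (hg.2 x)⟩

theorem prod {ι : Type*} (S : Finset ι) (f : ι → X → ℝ) (hf : ∀ s ∈ S, BM (f s)) :
    BM (∏ s ∈ S, f s) := by
  classical
  induction S using Finset.induction_on with
  | empty => simpa using one
  | insert s S hs ih =>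
    rw [Finset.prod_insert hs]
    exact (hf s (by simp)).mul (ih fun t ht => hf t (by simp [ht]))

theorem shift {f : X → ℝ} (hf : BM f) (T : X ≃ᵐ X) (k : ℤ) : BM (sh T k f) :=
  ⟨hf.1.comp (meas_zpow T k), fun _ => hf.2 _⟩

theorem smul {f : X → ℝ} (hf : BM f) {c : ℝ} (hc : |c| ≤ 1) : BM (fun x => c * f x) :=
  ⟨hf.1.const_mul c, fun x => by
    rw [abs_mul]
    exact mul_le_one₀ hc (abs_nonneg _) (hf.2 x)⟩

theorem integrable {f : X → ℝ} (hf : BM f) (μ : Measure X) [IsFiniteMeasure μ] :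
    Integrable f μ :=
  Integrable.of_bound hf.1.aestronglyMeasurable 1
    (ae_of_all _ fun x => by simpa using hf.2 x)

theorem abs_integral_le {f : X → ℝ} (hf : BM f) (μ : Measure X) [IsProbabilityMeasure μ] :
    |∫ x, f x ∂μ| ≤ 1 := by
  have := norm_integral_le_of_norm_le_const (μ := μ) (f := f) (C := 1)
    (ae_of_all _ fun x => by simpa using hf.2 x)
  simpa using this

end BM

theorem integral_sh {μ : Measure X} {T : X ≃ᵐ X} (hT : MeasurePreserving T μ μ) (k : ℤ)
    {f : X → ℝ} (hf : Measurable f) : ∫ x, sh T k f x ∂μ = ∫ x, f x ∂μ := by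
  have h := mp_zpow hT k
  have := integral_map (μ := μ) (φ := fun x => (T.toEquiv ^ k) x) h.measurable.aemeasurable
    (f := f) hf.aestronglyMeasurable
  rw [h.map_eq] at this
  rw [this]
  rfl

/-- Cauchy-Schwarz for bounded functions. -/
theorem sq_integral_mul_le {μ : Measure X} [IsProbabilityMeasure μ] {f g : X → ℝ} (hf : BM f)
    (hg : Measurable g) {C : ℝ} (hC : ∀ x, |g x| ≤ C) :
    (∫ x, f x * g x ∂μ) ^ 2 ≤ ∫ x, (g x) ^ 2 ∂μ := by
  have hig : Integrable g μ := Integrable.of_bound hg.aestronglyMeasurable C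
    (ae_of_all _ fun x => by simpa using hC x)
  have hfg : Integrable (fun x => f x * g x) μ := by
    refine Integrable.of_bound (hf.1.mul hg).aestronglyMeasurable C (ae_of_all _ fun x => ?_)
    rw [Real.norm_eq_abs, abs_mul]
    calc |f x| * |g x| ≤ 1 * |g x| := by gcongr; exact hf.2 x
      _ ≤ C := by rw [one_mul]; exact hC x
  have hg2 : Integrable (fun x => (g x) ^ 2) μ := by
    refine Integrable.of_bound (hg.pow_const 2).aestronglyMeasurable (C ^ 2)
      (ae_of_all _ fun x => ?_)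
    rw [Real.norm_eq_abs, abs_pow]
    exact pow_le_pow_left₀ (abs_nonneg _) (hC x) 2
  set I := ∫ x, f x * g x ∂μ with hI
  have h1 : 0 ≤ ∫ x, (f x * g x - I) ^ 2 ∂μ := integral_nonneg fun x => sq_nonneg _
  have hfg2 : Integrable (fun x => (f x * g x) ^ 2) μ := by
    refine Integrable.of_bound ((hf.1.mul hg).pow_const 2).aestronglyMeasurable (C ^ 2)
      (ae_of_all _ fun x => ?_)
    rw [Real.norm_eq_abs, abs_pow]
    refine pow_le_pow_left₀ (abs_nonneg _) ?_ 2
    rw [abs_mul]
    calc |f x| * |g x| ≤ 1 * |g x| := by gcongr; exact hf.2 x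
      _ ≤ C := by rw [one_mul]; exact hC x
  have h2 : ∫ x, (f x * g x - I) ^ 2 ∂μ = ∫ x, (f x * g x) ^ 2 ∂μ - I ^ 2 := by
    have e : ∀ x, (f x * g x - I) ^ 2 = (f x * g x) ^ 2 - (2 * I) * (f x * g x) + I ^ 2 := by
      intro x; ring
    simp_rw [e]
    have i1 : Integrable (fun x => (f x * g x) ^ 2 - 2 * I * (f x * g x)) μ :=
      hfg2.sub (hfg.const_mul _)
    rw [integral_add i1 (integrable_const _),
      integral_sub hfg2 (hfg.const_mul _), integral_const_mul, ← hI]
    simp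
    ring
  have h3 : ∫ x, (f x * g x) ^ 2 ∂μ ≤ ∫ x, (g x) ^ 2 ∂μ := by
    refine integral_mono hfg2 hg2 fun x => ?_
    rw [mul_pow]
    have : (f x) ^ 2 ≤ 1 := by
      rw [← sq_abs]
      exact pow_le_one₀ (abs_nonneg _) (hf.2 x)
    nlinarith [sq_nonneg (g x)]
  linarith

/-! ### van der Corput -/

/-- `v a N q m h` is `a (m - q h)` if `m - q h` lies in `[1, N]` and `0` otherwise. -/
def vv (a : ℕ → ℝ) (N q m h : ℕ) : ℝ := if q * h + 1 ≤ m ∧ m ≤ q * h + N then a (m - q * h) else 0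

theorem sum_vv (a : ℕ → ℝ) (N q H h : ℕ) (hh : h ≤ H) :
    ∑ m ∈ Icc 1 (N + q * H), vv a N q m h = ∑ n ∈ Icc 1 N, a n := by
  have hle : q * h ≤ q * H := Nat.mul_le_mul_left _ hh
  symm
  unfold vv
  rw [← Finset.sum_filter]
  refine Finset.sum_nbij' (fun n => n + q * h) (fun m => m - q * h) ?_ ?_ ?_ ?_ ?_
  · intro n hn
    simp only [mem_Icc, mem_filter] at hn ⊢
    omega
  · intro m hm
    simp only [mem_Icc, mem_filter] at hm ⊢
    omega
  · intro n hn
    simp
  · intro m hm
    simp only [mem_Icc, mem_filter] at hm ⊢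
    omega
  · intro n hn
    simp

theorem sum_vv_mul (a : ℕ → ℝ) (N q H h h' : ℕ) (hh : h ≤ h') (hH : h' ≤ H) :
    ∑ m ∈ Icc 1 (N + q * H), vv a N q m h * vv a N q m h'
      = ∑ n ∈ Icc 1 (N - q * (h' - h)), a n * a (n + q * (h' - h)) := by
  obtain ⟨d, rfl⟩ := Nat.exists_eq_add_of_le hh
  have hle : q * (h + d) ≤ q * H := Nat.mul_le_mul_left _ hH
  rw [Nat.mul_add] at hle
  symm
  have e : ∀ m, vv a N q m h * vv a N q m (h + d)
      = if q * h + q * d + 1 ≤ m ∧ m ≤ q * h + N then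
        a (m - (q * h + q * d)) * a (m - q * h) else 0 := by
    intro m
    unfold vv
    rw [Nat.mul_add]
    by_cases h1 : q * h + q * d + 1 ≤ m ∧ m ≤ q * h + N
    · rw [if_pos (by omega), if_pos (by omega), if_pos h1, mul_comm]
    · rw [if_neg h1]
      by_cases h2 : q * h + 1 ≤ m ∧ m ≤ q * h + N
      · rw [if_neg (c := q * h + q * d + 1 ≤ m ∧ m ≤ q * h + q * d + N) (by omega), mul_zero]
      · rw [if_neg h2, zero_mul]
  simp_rw [e]
  rw [← Finset.sum_filter]
  rw [Nat.add_sub_cancel_left]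
  refine Finset.sum_nbij' (fun n => n + (q * h + q * d)) (fun m => m - (q * h + q * d)) ?_ ?_ ?_ ?_ ?_
  · intro n hn
    simp only [mem_Icc, mem_filter] at hn ⊢
    omega
  · intro m hm
    simp only [mem_Icc, mem_filter] at hm ⊢
    omega
  · intro n hn
    simp
  · intro m hm
    simp only [mem_Icc, mem_filter] at hm ⊢
    omega
  · intro n hn
    simp only [Nat.add_sub_cancel]
    congr 2
    omega

/-- Correlations of a sequence at distance `q d`. -/
def cor (a : ℕ → ℝ) (N q d : ℕ) : ℝ := ∑ n ∈ Icc 1 (N - q * d), a n * a (n + q * d)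

theorem vdc_scalar (a : ℕ → ℝ) (N q H : ℕ) :
    (H : ℝ) ^ 2 * (∑ n ∈ Icc 1 N, a n) ^ 2
      ≤ (N + q * H : ℕ) * ∑ h ∈ range H, ∑ h' ∈ range H, cor a N q (max h h' - min h h') := by
  have h1 : (H : ℝ) * ∑ n ∈ Icc 1 N, a n
      = ∑ m ∈ Icc 1 (N + q * H), ∑ h ∈ range H, vv a N q m h := by
    rw [Finset.sum_comm]
    rw [Finset.sum_congr rfl (fun h hh => sum_vv a N q H h (Finset.mem_range.1 hh).le)]
    simp
  rw [← mul_pow, h1]
  have h2 := sq_sum_le_card_mul_sum_sq (s := Icc 1 (N + q * H))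
    (f := fun m => ∑ h ∈ range H, vv a N q m h)
  refine h2.trans (le_of_eq ?_)
  rw [Nat.card_Icc, Nat.add_sub_cancel]
  congr 1
  simp_rw [sq, Finset.sum_mul_sum]
  rw [Finset.sum_comm]
  refine Finset.sum_congr rfl fun h hh => ?_
  rw [Finset.sum_comm]
  refine Finset.sum_congr rfl fun h' hh' => ?_
  rw [Finset.mem_range] at hh hh'
  rcases le_total h h' with hle | hle
  · rw [max_eq_right hle, min_eq_left hle]
    exact sum_vv_mul a N q H h h' hle hh'.le
  · rw [max_eq_left hle, min_eq_right hle]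
    unfold cor
    rw [← sum_vv_mul a N q H h' h hle hh.le]
    refine Finset.sum_congr rfl fun m _ => mul_comm _ _

theorem sum_dist_le (g : ℕ → ℝ) (hg : ∀ d, 0 ≤ g d) (H h : ℕ) (hh : h < H) :
    ∑ h' ∈ range H, g (max h h' - min h h') ≤ g 0 + 2 * ∑ d ∈ Ico 1 H, g d := by
  have e1 : range H = range h ∪ ({h} ∪ Ioo h H) := by
    ext x; simp only [mem_range, mem_union, mem_singleton, mem_Ioo]; omega
  have d1 : Disjoint (range h) ({h} ∪ Ioo h H) := by
    rw [Finset.disjoint_left]; intro x; simp only [mem_range, mem_union, mem_singleton, mem_Ioo]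
    omega
  have d2 : Disjoint ({h} : Finset ℕ) (Ioo h H) := by
    rw [Finset.disjoint_left]; intro x; simp only [mem_singleton, mem_Ioo]
    omega
  rw [e1, Finset.sum_union d1, Finset.sum_union d2, Finset.sum_singleton]
  have a1 : ∑ h' ∈ range h, g (max h h' - min h h') ≤ ∑ d ∈ Ico 1 H, g d := by
    have : ∑ h' ∈ range h, g (max h h' - min h h') = ∑ d ∈ Icc 1 h, g d := by
      refine Finset.sum_nbij' (fun x => h - x) (fun d => h - d) ?_ ?_ ?_ ?_ ?_
      · intro x hx; simp only [mem_range, mem_Icc] at hx ⊢; omega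
      · intro x hx; simp only [mem_range, mem_Icc] at hx ⊢; omega
      · intro x hx; simp only [mem_range] at hx ⊢; omega
      · intro x hx; simp only [mem_Icc] at hx ⊢; omega
      · intro x hx
        simp only [mem_range] at hx
        rw [max_eq_left hx.le, min_eq_right hx.le]
    rw [this]
    refine Finset.sum_le_sum_of_subset_of_nonneg ?_ fun _ _ _ => hg _
    intro x hx; simp only [mem_Icc, mem_Ico] at hx ⊢; omega
  have a2 : ∑ h' ∈ Ioo h H, g (max h h' - min h h') ≤ ∑ d ∈ Ico 1 H, g d := by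
    have : ∑ h' ∈ Ioo h H, g (max h h' - min h h') = ∑ d ∈ Ico 1 (H - h), g d := by
      refine Finset.sum_nbij' (fun x => x - h) (fun d => h + d) ?_ ?_ ?_ ?_ ?_
      · intro x hx; simp only [mem_Ioo, mem_Ico] at hx ⊢; omega
      · intro x hx; simp only [mem_Ioo, mem_Ico] at hx ⊢; omega
      · intro x hx; simp only [mem_Ioo] at hx ⊢; omega
      · intro x hx; simp only [mem_Ico] at hx ⊢; omega
      · intro x hx
        simp only [mem_Ioo] at hx
        rw [max_eq_right hx.1.le, min_eq_left hx.1.le]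
    rw [this]
    refine Finset.sum_le_sum_of_subset_of_nonneg ?_ fun _ _ _ => hg _
    intro x hx; simp only [mem_Ico] at hx ⊢; omega
  have a3 : g (max h h - min h h) = g 0 := by simp
  rw [a3]
  linarith

/-- van der Corput inequality for a sequence of bounded functions. -/
theorem vdc {μ : Measure X} [IsProbabilityMeasure μ] (u : ℕ → X → ℝ) (hu : ∀ n, BM (u n))
    (N q H : ℕ) :
    (H : ℝ) * ∫ x, (∑ n ∈ Icc 1 N, u n x) ^ 2 ∂μ
      ≤ (N + q * H : ℕ) * (N + 2 * ∑ d ∈ Ico 1 H,
        ∑ n ∈ Icc 1 (N - q * d), |∫ x, u n x * u (n + q * d) x ∂μ|) := by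
  rcases Nat.eq_zero_or_pos H with hH | hH
  · subst hH; simp; positivity
  have hHr : (0 : ℝ) < H := by exact_mod_cast hH
  have iu : ∀ n m, Integrable (fun x => u n x * u m x) μ :=
    fun n m => ((hu n).mul (hu m)).integrable μ
  have icor : ∀ d, Integrable (fun x => cor (fun n => u n x) N q d) μ := by
    intro d
    unfold cor
    exact integrable_finsetSum _ fun n _ => iu _ _
  have isum : Integrable (fun x => (∑ n ∈ Icc 1 N, u n x) ^ 2) μ := by
    have : (fun x => (∑ n ∈ Icc 1 N, u n x) ^ 2)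
        = fun x => ∑ n ∈ Icc 1 N, ∑ m ∈ Icc 1 N, u n x * u m x := by
      funext x; rw [sq, Finset.sum_mul_sum]
    rw [this]
    exact integrable_finsetSum _ fun n _ => integrable_finsetSum _ fun m _ => iu _ _
  set g : ℕ → ℝ := fun d => ∑ n ∈ Icc 1 (N - q * d), |∫ x, u n x * u (n + q * d) x ∂μ| with hg
  have hg0 : ∀ d, 0 ≤ g d := fun d => Finset.sum_nonneg fun _ _ => abs_nonneg _
  have hg00 : g 0 ≤ N := by
    simp only [hg, Nat.mul_zero, Nat.sub_zero, Nat.add_zero]
    calc ∑ n ∈ Icc 1 N, |∫ x, u n x * u n x ∂μ| ≤ ∑ n ∈ Icc 1 N, (1 : ℝ) :=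
          Finset.sum_le_sum fun n _ => ((hu n).mul (hu n)).abs_integral_le μ
      _ = N := by simp
  have hint : ∀ d, ∫ x, cor (fun n => u n x) N q d ∂μ ≤ g d := by
    intro d
    unfold cor
    rw [integral_finsetSum _ fun n _ => iu _ _]
    exact Finset.sum_le_sum fun n _ => le_abs_self _
  have key : (H : ℝ) ^ 2 * ∫ x, (∑ n ∈ Icc 1 N, u n x) ^ 2 ∂μ
      ≤ (N + q * H : ℕ) * ∑ h ∈ range H, ∑ h' ∈ range H, g (max h h' - min h h') := by
    rw [← integral_const_mul]
    calc ∫ x, (H : ℝ) ^ 2 * (∑ n ∈ Icc 1 N, u n x) ^ 2 ∂μ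
        ≤ ∫ x, (N + q * H : ℕ) * ∑ h ∈ range H, ∑ h' ∈ range H,
            cor (fun n => u n x) N q (max h h' - min h h') ∂μ := by
          refine integral_mono (isum.const_mul _) ?_ fun x => vdc_scalar (fun n => u n x) N q H
          exact (integrable_finsetSum _ fun h _ =>
            integrable_finsetSum _ fun h' _ => icor _).const_mul _
      _ = (N + q * H : ℕ) * ∑ h ∈ range H, ∑ h' ∈ range H,
            ∫ x, cor (fun n => u n x) N q (max h h' - min h h') ∂μ := by
          rw [integral_const_mul]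
          congr 1
          rw [integral_finsetSum _ fun h _ => integrable_finsetSum _ fun h' _ => icor _]
          refine Finset.sum_congr rfl fun h _ => ?_
          rw [integral_finsetSum _ fun h' _ => icor _]
      _ ≤ _ := by
          gcongr with h _ h' _
          exact hint _
  have key2 : ∑ h ∈ range H, ∑ h' ∈ range H, g (max h h' - min h h')
      ≤ H * (N + 2 * ∑ d ∈ Ico 1 H, g d) := by
    calc ∑ h ∈ range H, ∑ h' ∈ range H, g (max h h' - min h h')
        ≤ ∑ h ∈ range H, (N + 2 * ∑ d ∈ Ico 1 H, g d) := by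
          refine Finset.sum_le_sum fun h hh => ?_
          have := sum_dist_le g hg0 H h (Finset.mem_range.1 hh)
          linarith
      _ = _ := by simp; ring
  have key3 : (H : ℝ) * (H * ∫ x, (∑ n ∈ Icc 1 N, u n x) ^ 2 ∂μ)
      ≤ H * ((N + q * H : ℕ) * (N + 2 * ∑ d ∈ Ico 1 H, g d)) := by
    calc (H : ℝ) * (H * ∫ x, (∑ n ∈ Icc 1 N, u n x) ^ 2 ∂μ)
        = (H : ℝ) ^ 2 * ∫ x, (∑ n ∈ Icc 1 N, u n x) ^ 2 ∂μ := by ring
      _ ≤ (N + q * H : ℕ) * (H * (N + 2 * ∑ d ∈ Ico 1 H, g d)) :=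
          key.trans (by gcongr)
      _ = _ := by ring
  exact le_of_mul_le_mul_left key3 hHr

end Pool.Agent.H62.NSin
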