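import Pool.Agent.H62.NSin.Basic

/-!
The two kinds of averages in the induction (integrals of products and `L²` norms of weighted
products) along exponents `i A(n) + l B(n)`, and how each kind reduces to the other.
-/

namespace Pool.Agent.H62.NSin

open MeasureTheory Filter Finset Topology

variable {X : Type*} [MeasurableSpace X]

/-- Local structure of a triangular array `A` along progressions of step `q N`. -/
structure Loc (A B : ℕ → ℕ → ℤ) (q : ℕ → ℕ) : Prop where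
  hq : Tendsto (fun N : ℕ => (q N : ℝ) / N) atTop (𝓝 0)
  hA : ∀ h : ℕ, ∃ C : ℕ, ∀ᶠ N : ℕ in atTop, ∀ n, 1 ≤ n → n ≤ N →
    |A N (n + q N * h) - A N n - h * B N n| ≤ C
  hB : ∀ h : ℕ, ∃ C : ℕ, ∀ᶠ N : ℕ in atTop, ∀ n, 1 ≤ n → n ≤ N →
    |B N (n + q N * h) - B N n| ≤ C

/-- The exponent `s.1 A(n) + s.2 B(n)`. -/
def ex (A B : ℕ → ℕ → ℤ) (N n : ℕ) (s : ℤ × ℤ) : ℤ := s.1 * A N n + s.2 * B N n

/-- The product of the shifted functions. -/
noncomputable def prd (T : X ≃ᵐ X) (A B : ℕ → ℕ → ℤ) (S : Finset (ℤ × ℤ))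
    (f : ℤ × ℤ → X → ℝ) (N n : ℕ) : X → ℝ := ∏ s ∈ S, sh T (ex A B N n s) (f s)

/-- Mean absolute value of the integrals of the products. -/
noncomputable def avI (T : X ≃ᵐ X) (μ : Measure X) (A B : ℕ → ℕ → ℤ) (S : Finset (ℤ × ℤ))
    (f : ℤ × ℤ → X → ℝ) (N : ℕ) : ℝ :=
  (1 / (N : ℝ)) * ∑ n ∈ Icc 1 N, |∫ x, prd T A B S f N n x ∂μ|

/-- The integrals of the products tend to zero in mean. -/
def IC (T : X ≃ᵐ X) (μ : Measure X) (A B : ℕ → ℕ → ℤ) (S : Finset (ℤ × ℤ))
    (f : ℤ × ℤ → X → ℝ) : Prop :=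
  Tendsto (avI T μ A B S f) atTop (𝓝 0)

/-- The weighted averages of the products tend to zero in `L²`, uniformly in the weights. -/
def NC (T : X ≃ᵐ X) (μ : Measure X) (A B : ℕ → ℕ → ℤ) (S : Finset (ℤ × ℤ))
    (f : ℤ × ℤ → X → ℝ) : Prop :=
  ∀ ε : ℝ, 0 < ε → ∀ᶠ N : ℕ in atTop, ∀ w : ℕ → ℝ, (∀ n, |w n| ≤ 1) →
    ∫ x, ((1 / (N : ℝ)) * ∑ n ∈ Icc 1 N, w n * prd T A B S f N n x) ^ 2 ∂μ ≤ ε

theorem BM_prd {T : X ≃ᵐ X} {A B : ℕ → ℕ → ℤ} {S : Finset (ℤ × ℤ)} {f : ℤ × ℤ → X → ℝ}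
    (hf : ∀ s, BM (f s)) (N n : ℕ) : BM (prd T A B S f N n) :=
  BM.prod S _ fun s _ => (hf s).shift T _

theorem avI_nonneg (T : X ≃ᵐ X) (μ : Measure X) (A B : ℕ → ℕ → ℤ) (S : Finset (ℤ × ℤ))
    (f : ℤ × ℤ → X → ℝ) (N : ℕ) : 0 ≤ avI T μ A B S f N :=
  mul_nonneg (by positivity) (Finset.sum_nonneg fun _ _ => abs_nonneg _)

/-- Removing the form `L`. -/
def drop (L : ℤ × ℤ) (S : Finset (ℤ × ℤ)) : Finset (ℤ × ℤ) := (S.erase L).image (· - L)

theorem prd_drop {T : X ≃ᵐ X} {A B : ℕ → ℕ → ℤ} {S : Finset (ℤ × ℤ)} {f : ℤ × ℤ → X → ℝ}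
    {L : ℤ × ℤ} (hL : L ∈ S) (N n : ℕ) :
    prd T A B S f N n = sh T (ex A B N n L)
      (f L * prd T A B (drop L S) (fun t => f (t + L)) N n) := by
  unfold prd drop
  rw [sh_mul, sh_prod, ← Finset.mul_prod_erase S _ hL]
  congr 1
  rw [Finset.prod_image (fun a _ b _ h => by simpa using h)]
  refine Finset.prod_congr rfl fun s _ => ?_
  simp only [sh_sh, sub_add_cancel]
  congr 1
  simp only [ex, Prod.fst_sub, Prod.snd_sub]
  ring

theorem IC_of_NC {T : X ≃ᵐ X} {μ : Measure X} [IsProbabilityMeasure μ]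
    (hT : MeasurePreserving T μ μ) {A B : ℕ → ℕ → ℤ} {S : Finset (ℤ × ℤ)}
    {f : ℤ × ℤ → X → ℝ} (hf : ∀ s, BM (f s)) {L : ℤ × ℤ} (hL : L ∈ S)
    (h : NC T μ A B (drop L S) (fun t => f (t + L))) : IC T μ A B S f := by
  unfold IC
  rw [Metric.tendsto_atTop]
  intro ε hε
  obtain ⟨N0, hN0⟩ := eventually_atTop.1 (h ((ε / 2) ^ 2) (by positivity))
  refine ⟨N0, fun N hN => ?_⟩
  rw [Real.dist_eq, sub_zero, abs_of_nonneg (avI_nonneg _ _ _ _ _ _ _)]
  set V : ℕ → X → ℝ := fun n => prd T A B (drop L S) (fun t => f (t + L)) N n with hV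
  have hVB : ∀ n, BM (V n) := fun n => BM_prd (fun s => hf _) N n
  have e1 : ∀ n, ∫ x, prd T A B S f N n x ∂μ = ∫ x, f L x * V n x ∂μ := by
    intro n
    rw [prd_drop hL, integral_sh hT _ ((hf L).mul (hVB n)).1]
    rfl
  set w : ℕ → ℝ := fun n => if 0 ≤ ∫ x, f L x * V n x ∂μ then 1 else -1 with hw
  have hw1 : ∀ n, |w n| ≤ 1 := by
    intro n; simp only [hw]; split_ifs <;> simp
  have hwi : ∀ n, |∫ x, f L x * V n x ∂μ| = w n * ∫ x, f L x * V n x ∂μ := by
    intro n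
    simp only [hw]
    split_ifs with h0
    · rw [abs_of_nonneg h0, one_mul]
    · rw [abs_of_neg (not_le.1 h0)]; ring
  set g : X → ℝ := fun x => (1 / (N : ℝ)) * ∑ n ∈ Icc 1 N, w n * V n x with hg
  have hgm : Measurable g :=
    (Finset.measurable_sum _ fun n _ => (hVB n).1.const_mul _).const_mul _
  have hgb : ∀ x, |g x| ≤ 1 := by
    intro x
    simp only [hg]
    rw [abs_mul, abs_of_nonneg (by positivity : (0 : ℝ) ≤ 1 / N)]
    have : |∑ n ∈ Icc 1 N, w n * V n x| ≤ N := by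
      refine (Finset.abs_sum_le_sum_abs _ _).trans ?_
      calc ∑ n ∈ Icc 1 N, |w n * V n x| ≤ ∑ n ∈ Icc 1 N, (1 : ℝ) := by
            refine Finset.sum_le_sum fun n _ => ?_
            rw [abs_mul]
            exact mul_le_one₀ (hw1 n) (abs_nonneg _) ((hVB n).2 x)
        _ = N := by simp
    rcases Nat.eq_zero_or_pos N with h0 | h0
    · subst h0; simp
    · have : (0 : ℝ) < N := by exact_mod_cast h0
      rw [one_div, inv_mul_le_iff₀ this]
      linarith
  have e2 : avI T μ A B S f N = ∫ x, f L x * g x ∂μ := by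
    unfold avI
    simp_rw [e1, hwi, hg]
    have : ∀ x, f L x * ((1 / (N : ℝ)) * ∑ n ∈ Icc 1 N, w n * V n x)
        = (1 / (N : ℝ)) * ∑ n ∈ Icc 1 N, w n * (f L x * V n x) := by
      intro x
      rw [Finset.mul_sum, Finset.mul_sum, Finset.mul_sum]
      refine Finset.sum_congr rfl fun n _ => by ring
    simp_rw [this]
    have ii : ∀ n, Integrable (fun x => w n * (f L x * V n x)) μ := fun n =>
      (((hf L).mul (hVB n)).integrable μ).const_mul _
    rw [integral_const_mul, integral_finsetSum _ fun n _ => ii n]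
    simp_rw [integral_const_mul]
  have e3 := sq_integral_mul_le (μ := μ) (hf L) hgm hgb
  have e4 := hN0 N hN w hw1
  rw [← e2] at e3
  have e5 : (avI T μ A B S f N) ^ 2 ≤ (ε / 2) ^ 2 := e3.trans e4
  have e6 := abs_le_of_sq_le_sq e5 (by positivity)
  have := (abs_le.1 e6).2
  linarith

/-- The doubling map. -/
def dbl (h : ℕ) (s : ℤ × ℤ) : ℤ × ℤ := (s.1, s.2 + h * s.1)

/-- Inverse of the doubling map. -/
def undbl (h : ℕ) (s : ℤ × ℤ) : ℤ × ℤ := (s.1, s.2 - h * s.1)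

@[simp] theorem undbl_dbl (h : ℕ) (s : ℤ × ℤ) : undbl h (dbl h s) = s := by
  simp [undbl, dbl]

@[simp] theorem dbl_undbl (h : ℕ) (s : ℤ × ℤ) : dbl h (undbl h s) = s := by
  simp [undbl, dbl]

/-- New set of forms after one van der Corput step. -/
def dS (h : ℕ) (S : Finset (ℤ × ℤ)) : Finset (ℤ × ℤ) := S ∪ S.image (dbl h)

open Classical in
/-- New functions after one van der Corput step. -/
noncomputable def df (T : X ≃ᵐ X) (h : ℕ) (e : ℤ × ℤ) (S : Finset (ℤ × ℤ))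
    (f : ℤ × ℤ → X → ℝ) (t : ℤ × ℤ) : X → ℝ :=
  (if t ∈ S then f t else 1) *
    (if undbl h t ∈ S then
      sh T ((undbl h t).1 * e.1 + (undbl h t).2 * e.2) (f (undbl h t)) else 1)

theorem BM_df {T : X ≃ᵐ X} {h : ℕ} {e : ℤ × ℤ} {S : Finset (ℤ × ℤ)} {f : ℤ × ℤ → X → ℝ}
    (hf : ∀ s, BM (f s)) (t : ℤ × ℤ) : BM (df T h e S f t) := by
  classical
  unfold df
  refine BM.mul ?_ ?_
  · split_ifs
    · exact hf _
    · exact BM.one
  · split_ifs
    · exact (hf _).shift T _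
    · exact BM.one

theorem prd_mul {T : X ≃ᵐ X} {A B : ℕ → ℕ → ℤ} {S : Finset (ℤ × ℤ)} {f : ℤ × ℤ → X → ℝ}
    (N n n' h : ℕ) (e : ℤ × ℤ) (h1 : A N n' = A N n + h * B N n + e.1)
    (h2 : B N n' = B N n + e.2) :
    prd T A B S f N n * prd T A B S f N n' = prd T A B (dS h S) (df T h e S f) N n := by
  classical
  unfold prd df
  simp_rw [sh_mul]
  rw [Finset.prod_mul_distrib]
  congr 1
  · rw [← Finset.prod_subset (s₁ := S) (s₂ := dS h S) (Finset.subset_union_left)]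
    · refine Finset.prod_congr rfl fun s hs => ?_
      rw [if_pos hs]
    · intro s _ hs
      rw [if_neg hs, sh_one]
  · rw [← Finset.prod_subset (s₁ := S.image (dbl h)) (s₂ := dS h S) (Finset.subset_union_right)]
    · rw [Finset.prod_image (fun a _ b _ hab => by
        have := congrArg (undbl h) hab
        simpa using this)]
      refine Finset.prod_congr rfl fun s hs => ?_
      rw [undbl_dbl, if_pos hs, sh_sh]
      congr 1
      simp only [ex, dbl, h1, h2]
      ring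
    · intro s _ hs
      rw [if_neg, sh_one]
      intro h3
      exact hs (Finset.mem_image.2 ⟨_, h3, dbl_undbl h s⟩)

theorem NC_of_IC {T : X ≃ᵐ X} {μ : Measure X} [IsProbabilityMeasure μ]
    {A B : ℕ → ℕ → ℤ} {q : ℕ → ℕ} (hloc : Loc A B q) {S : Finset (ℤ × ℤ)}
    {f : ℤ × ℤ → X → ℝ} (hf : ∀ s, BM (f s)) (F : Finset ℕ)
    (h : ∀ d : ℕ, d ∉ F → ∀ e, IC T μ A B (dS d S) (df T d e S f)) : NC T μ A B S f := by
  classical
  intro ε hε
  -- choose H
  obtain ⟨H, hH⟩ := exists_nat_gt ((4 + 4 * (F.card : ℝ)) / ε)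
  have hH0 : (0 : ℝ) < H := lt_of_le_of_lt (by positivity) hH
  have hHpos : 0 < H := by exact_mod_cast hH0
  -- average correlations
  set c : ℕ → ℕ → ℝ := fun N d => (1 / (N : ℝ)) * ∑ n ∈ Icc 1 (N - q N * d),
    |∫ x, prd T A B S f N n x * prd T A B S f N (n + q N * d) x ∂μ| with hc
  have hint1 : ∀ N n n', |∫ x, prd T A B S f N n x * prd T A B S f N n' x ∂μ| ≤ 1 :=
    fun N n n' => ((BM_prd hf N n).mul (BM_prd hf N n')).abs_integral_le μ
  have hc0 : ∀ N d, 0 ≤ c N d := fun N d =>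
    mul_nonneg (by positivity) (Finset.sum_nonneg fun _ _ => abs_nonneg _)
  have hc1 : ∀ N d, c N d ≤ 1 := by
    intro N d
    rcases Nat.eq_zero_or_pos N with h0 | h0
    · subst h0; simp [hc]
    have hN : (0 : ℝ) < N := by exact_mod_cast h0
    simp only [hc]
    rw [one_div, inv_mul_le_iff₀ hN, mul_one]
    calc ∑ n ∈ Icc 1 (N - q N * d), |∫ x, prd T A B S f N n x
          * prd T A B S f N (n + q N * d) x ∂μ| ≤ ∑ n ∈ Icc 1 (N - q N * d), (1 : ℝ) :=
          Finset.sum_le_sum fun n _ => hint1 _ _ _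
      _ = ((N - q N * d : ℕ) : ℝ) := by simp
      _ ≤ N := by exact_mod_cast Nat.sub_le _ _
  have hlim : ∀ d, d ∉ F → Tendsto (fun N => c N d) atTop (𝓝 0) := by
    intro d hd
    obtain ⟨C1, hC1⟩ := hloc.hA d
    obtain ⟨C2, hC2⟩ := hloc.hB d
    set P : Finset (ℤ × ℤ) := Finset.Icc (-(C1 : ℤ)) C1 ×ˢ Finset.Icc (-(C2 : ℤ)) C2 with hP
    have hsum : Tendsto (fun N => ∑ e ∈ P, avI T μ A B (dS d S) (df T d e S f) N) atTop
        (𝓝 0) := by
      have := tendsto_finsetSum (s := P) (a := fun _ => (0 : ℝ)) (x := atTop)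
        (f := fun e N => avI T μ A B (dS d S) (df T d e S f) N) fun e _ => h d hd e
      simpa using this
    refine squeeze_zero' (Eventually.of_forall fun N => hc0 N d) ?_ hsum
    filter_upwards [hC1, hC2] with N h1 h2
    simp only [hc, avI]
    rw [← Finset.mul_sum]
    refine mul_le_mul_of_nonneg_left ?_ (by positivity)
    rw [Finset.sum_comm]
    calc ∑ n ∈ Icc 1 (N - q N * d), |∫ x, prd T A B S f N n x
          * prd T A B S f N (n + q N * d) x ∂μ|
        ≤ ∑ n ∈ Icc 1 (N - q N * d), ∑ e ∈ P,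
          |∫ x, prd T A B (dS d S) (df T d e S f) N n x ∂μ| := by
          refine Finset.sum_le_sum fun n hn => ?_
          rw [Finset.mem_Icc] at hn
          have hnN : n ≤ N := hn.2.trans (Nat.sub_le _ _)
          have a1 := h1 n hn.1 hnN
          have a2 := h2 n hn.1 hnN
          rw [abs_le] at a1 a2
          set e : ℤ × ℤ := (A N (n + q N * d) - A N n - d * B N n,
            B N (n + q N * d) - B N n) with he
          have heP : e ∈ P := by
            simp only [hP, Finset.mem_product, Finset.mem_Icc, he]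
            exact ⟨a1, a2⟩
          have e1 : prd T A B S f N n * prd T A B S f N (n + q N * d)
              = prd T A B (dS d S) (df T d e S f) N n :=
            prd_mul N n (n + q N * d) d e (by simp [he]) (by simp [he])
          have e2 : |∫ x, prd T A B S f N n x * prd T A B S f N (n + q N * d) x ∂μ|
              = |∫ x, prd T A B (dS d S) (df T d e S f) N n x ∂μ| := by
            rw [← e1]; rfl
          rw [e2]
          exact Finset.single_le_sum
            (f := fun e => |∫ x, prd T A B (dS d S) (df T d e S f) N n x ∂μ|)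
            (fun _ _ => abs_nonneg _) heP
      _ ≤ ∑ n ∈ Icc 1 N, ∑ e ∈ P, |∫ x, prd T A B (dS d S) (df T d e S f) N n x ∂μ| := by
          refine Finset.sum_le_sum_of_subset_of_nonneg ?_ fun _ _ _ =>
            Finset.sum_nonneg fun _ _ => abs_nonneg _
          exact Finset.Icc_subset_Icc le_rfl (Nat.sub_le _ _)
  -- sum over d not in F tends to zero
  have hsum2 : Tendsto (fun N => ∑ d ∈ (Ico 1 H).filter (· ∉ F), c N d) atTop (𝓝 0) := by
    have := tendsto_finsetSum (s := (Ico 1 H).filter (· ∉ F)) (a := fun _ => (0 : ℝ))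
      (x := atTop) (f := fun d N => c N d) fun d hd => hlim d (Finset.mem_filter.1 hd).2
    simpa using this
  have hq1 : ∀ᶠ N : ℕ in atTop, (q N : ℝ) * H / N ≤ 1 := by
    have := hloc.hq.mul_const (H : ℝ)
    rw [zero_mul] at this
    filter_upwards [this.eventually (ge_mem_nhds (show (0 : ℝ) < 1 by norm_num))] with N hN
    rw [mul_div_right_comm]; exact hN
  have hs1 : ∀ᶠ N : ℕ in atTop, ∑ d ∈ (Ico 1 H).filter (· ∉ F), c N d ≤ 1 / 2 :=
    hsum2.eventually (ge_mem_nhds (by norm_num))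
  filter_upwards [hq1, hs1, eventually_gt_atTop 0] with N a1 a2 a3 w hw
  have hN : (0 : ℝ) < N := by exact_mod_cast a3
  have hBu : ∀ n, BM (fun x => w n * prd T A B S f N n x) := fun n => (BM_prd hf N n).smul (hw n)
  have key := vdc (μ := μ) (fun n x => w n * prd T A B S f N n x) hBu N (q N) H
  have k1 : ∀ d, ∑ n ∈ Icc 1 (N - q N * d), |∫ x, (w n * prd T A B S f N n x) *
      (w (n + q N * d) * prd T A B S f N (n + q N * d) x) ∂μ| ≤ N * c N d := by
    intro d
    simp only [hc]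
    rw [← mul_assoc, mul_one_div_cancel hN.ne', one_mul]
    refine Finset.sum_le_sum fun n _ => ?_
    have : ∀ x, (w n * prd T A B S f N n x) *
      (w (n + q N * d) * prd T A B S f N (n + q N * d) x)
      = (w n * w (n + q N * d)) * (prd T A B S f N n x * prd T A B S f N (n + q N * d) x) := by
      intro x; ring
    simp_rw [this]
    rw [integral_const_mul, abs_mul, abs_mul]
    calc |w n| * |w (n + q N * d)| * |∫ x, prd T A B S f N n x
          * prd T A B S f N (n + q N * d) x ∂μ|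
        ≤ 1 * |∫ x, prd T A B S f N n x * prd T A B S f N (n + q N * d) x ∂μ| := by
          gcongr
          exact mul_le_one₀ (hw _) (abs_nonneg _) (hw _)
      _ = _ := one_mul _
  have k2 : ∑ d ∈ Ico 1 H, c N d ≤ F.card + 1 / 2 := by
    rw [← Finset.sum_filter_add_sum_filter_not (Ico 1 H) (· ∉ F)]
    have : ∑ d ∈ (Ico 1 H).filter (fun d => ¬ (d ∉ F)), c N d ≤ F.card := by
      calc ∑ d ∈ (Ico 1 H).filter (fun d => ¬ (d ∉ F)), c N d
          ≤ ∑ d ∈ (Ico 1 H).filter (fun d => ¬ (d ∉ F)), (1 : ℝ) :=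
            Finset.sum_le_sum fun d _ => hc1 N d
        _ = (((Ico 1 H).filter (fun d => ¬ (d ∉ F))).card : ℝ) := by simp
        _ ≤ F.card := by
            norm_cast
            refine Finset.card_le_card fun d hd => ?_
            simpa using (Finset.mem_filter.1 hd).2
    linarith
  have k3 : (H : ℝ) * ∫ x, (∑ n ∈ Icc 1 N, w n * prd T A B S f N n x) ^ 2 ∂μ
      ≤ (N + q N * H) * (N * (2 * F.card + 2)) := by
    refine key.trans ?_
    push_cast
    refine mul_le_mul_of_nonneg_left ?_ (by positivity)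
    have : ∑ d ∈ Ico 1 H, ∑ n ∈ Icc 1 (N - q N * d), |∫ x, (w n * prd T A B S f N n x) *
      (w (n + q N * d) * prd T A B S f N (n + q N * d) x) ∂μ| ≤ ∑ d ∈ Ico 1 H, N * c N d :=
      Finset.sum_le_sum fun d _ => k1 d
    rw [← Finset.mul_sum] at this
    nlinarith
  have k4 : ∫ x, ((1 / (N : ℝ)) * ∑ n ∈ Icc 1 N, w n * prd T A B S f N n x) ^ 2 ∂μ
      = (1 / (N : ℝ)) ^ 2 * ∫ x, (∑ n ∈ Icc 1 N, w n * prd T A B S f N n x) ^ 2 ∂μ := by
    rw [← integral_const_mul]
    congr 1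
    funext x
    ring
  rw [k4]
  have k5 : (q N : ℝ) * H ≤ N := by
    rw [div_le_one hN] at a1
    exact a1
  have k6 : (H : ℝ) * ∫ x, (∑ n ∈ Icc 1 N, w n * prd T A B S f N n x) ^ 2 ∂μ
      ≤ N ^ 2 * (4 + 4 * F.card) := by
    refine k3.trans ?_
    have : (N + q N * H : ℝ) * (N * (2 * F.card + 2)) ≤ (N + N) * (N * (2 * F.card + 2)) := by
      gcongr
    refine this.trans (le_of_eq ?_)
    ring
  have k7 : ∫ x, (∑ n ∈ Icc 1 N, w n * prd T A B S f N n x) ^ 2 ∂μ
      ≤ N ^ 2 * ((4 + 4 * F.card) / H) := by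
    rw [mul_div_assoc', le_div_iff₀ hH0, mul_comm]
    exact k6
  have k8 : (4 + 4 * (F.card : ℝ)) / H ≤ ε := by
    rw [div_le_iff₀ hH0]
    rw [div_lt_iff₀ hε] at hH
    linarith
  calc (1 / (N : ℝ)) ^ 2 * ∫ x, (∑ n ∈ Icc 1 N, w n * prd T A B S f N n x) ^ 2 ∂μ
      ≤ (1 / (N : ℝ)) ^ 2 * (N ^ 2 * ((4 + 4 * F.card) / H)) := by gcongr
    _ = (4 + 4 * (F.card : ℝ)) / H := by field_simp
    _ ≤ ε := k8

end Pool.Agent.H62.NSin
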