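import Pool.Agent.H62.NSin.Density

/-!
The density property of the linear coefficient.
-/

namespace Pool.Agent.H62.NSin

open Filter Finset Topology Real

section

variable (N M : ℕ) (κ : ℝ)

/-- The frozen linear coefficient in window `j`. -/
noncomputable def bb (j : ℕ) : ℝ := (j * M : ℕ) * dd N

/-- Amplitude in window `j`. -/
noncomputable def RR (j : ℕ) : ℝ := |(qq N : ℝ)| + |bb N M j|

/-- The scale. -/
noncomputable def WW : ℝ := qq N + N * |dd N|

open Classical in
/-- Good integers. -/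
noncomputable def good : Finset ℕ := (Icc 1 N).filter (fun n =>
  κ * WW N ≤ RR N M (n / M) ∧
    κ * RR N M (n / M) ≤ |qq N * Real.cos n - bb N M (n / M) * Real.sin n|)

end

theorem RR_pos {N : ℕ} (hN : 0 < N) (M j : ℕ) : 0 < RR N M j := by
  have h := (qq_mem hN).1
  have : (0 : ℝ) < qq N := by exact_mod_cast h
  unfold RR
  rw [abs_of_pos this]
  positivity

theorem WW_pos {N : ℕ} (hN : 0 < N) : 1 ≤ WW N := by
  have h := (qq_mem hN).1
  have : (1 : ℝ) ≤ qq N := by exact_mod_cast h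
  unfold WW
  have : (0 : ℝ) ≤ N * |dd N| := by positivity
  linarith

theorem c1_close {N M : ℕ} (hM : 0 < M) (hMd : M * |dd N| ≤ 10) (n : ℕ) :
    |(qq N * Real.sin n + bb N M (n / M) * Real.cos n) - c1 N n| ≤ 10 := by
  unfold c1 bb
  have e : (qq N * Real.sin n + ((n / M * M : ℕ) : ℝ) * dd N * Real.cos n)
      - (qq N * Real.sin n + n * dd N * Real.cos n)
      = -(((n - n / M * M : ℕ) : ℝ) * dd N * Real.cos n) := by
    rw [Nat.cast_sub (Nat.div_mul_le_self n M)]
    ring
  rw [e, abs_neg, abs_mul, abs_mul, Nat.abs_cast]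
  have h1 : n - n / M * M ≤ M := by
    have h5 := Nat.div_add_mod n M
    have h7 := Nat.mod_lt n hM
    have h8 : n / M * M = M * (n / M) := mul_comm _ _
    omega
  have h2 : ((n - n / M * M : ℕ) : ℝ) ≤ M := by exact_mod_cast h1
  have h3 := Real.abs_cos_le_one n
  calc ((n - n / M * M : ℕ) : ℝ) * |dd N| * |Real.cos n| ≤ M * |dd N| * 1 := by gcongr
    _ ≤ 10 := by linarith

theorem windows_le {N M : ℕ} (hM : 0 < M) (hMN : M ≤ N) :
    ((N / M + 1 : ℕ) : ℝ) ≤ 2 * N / M := by
  have hMr : (0 : ℝ) < M := by exact_mod_cast hM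
  rw [le_div_iff₀ hMr]
  have h1 : (N / M + 1) * M ≤ 2 * N := by
    have := Nat.div_mul_le_self N M
    rw [add_mul, one_mul]; omega
  exact_mod_cast h1

/-- Sum of window counts. -/
theorem sum_windows {N M : ℕ} (hM : 0 < M) (hMN : M ≤ N) (E : Finset ℕ) (hE : ∀ n ∈ E, n ≤ N)
    {c : ℝ} (hc : 0 ≤ c)
    (h : ∀ j, ((E.filter (fun n => n / M = j)).card : ℝ) ≤ c) :
    (E.card : ℝ) ≤ 2 * N / M * c := by
  have hmaps : ∀ n ∈ E, n / M ∈ range (N / M + 1) := by
    intro n hn
    rw [Finset.mem_range, Nat.lt_add_one_iff]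
    exact Nat.div_le_div_right (hE n hn)
  rw [Finset.card_eq_sum_card_fiberwise hmaps]
  push_cast
  calc ∑ j ∈ range (N / M + 1), ((E.filter (fun n => n / M = j)).card : ℝ)
      ≤ ∑ j ∈ range (N / M + 1), c := Finset.sum_le_sum fun j _ => h j
    _ = ((N / M + 1 : ℕ) : ℝ) * c := by simp
    _ ≤ _ := by
        gcongr
        exact windows_le hM hMN

theorem good_count {N M : ℕ} (hN : 0 < N) (hM : 0 < M) (hMN : M ≤ N)
    (hsep : ∀ m, 0 < m → m < M → 1 / (2 * (M : ℝ)) ≤ nd m) (hW : WW N ≤ 15 * M)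
    (hMd : M * |dd N| ≤ 10) {κ : ℝ} (hκ : 0 < κ) (β : ℤ) :
    (((good N M κ).filter (fun n => BB N n = β)).card : ℝ)
      ≤ 2 * ((4 * π / κ + 1) * (44 / (κ ^ 2 * π) + 15)) * (N / WW N) := by
  have hpi := Real.pi_pos
  have hMr : (0 : ℝ) < M := by exact_mod_cast hM
  have hW0 : 0 < WW N := lt_of_lt_of_le zero_lt_one (WW_pos hN)
  have key := sum_windows hM hMN ((good N M κ).filter (fun n => BB N n = β)) (by
    intro n hn
    simp only [good, Finset.mem_filter, Finset.mem_Icc] at hn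
    exact hn.1.1.2) (c := (4 * π / κ + 1) * ((44 / (κ ^ 2 * π) + 15) * (M / WW N)))
    (by positivity) (fun j => ?_)
  · refine key.trans (le_of_eq ?_)
    field_simp
  by_cases hj : κ * WW N ≤ RR N M j
  · have h1 := window_count hM hsep (qq N) (bb N M j) β 11 κ hκ (RR_pos hN M j) (by norm_num)
      (((good N M κ).filter (fun n => BB N n = β)).filter (fun n => n / M = j)) j
      (fun n hn => (Finset.mem_filter.1 hn).2) ?_ ?_
    · refine h1.trans ?_
      refine mul_le_mul_of_nonneg_left ?_ (by positivity)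
      have hRj : |(qq N : ℝ)| + |bb N M j| = RR N M j := rfl
      rw [hRj]
      have h2 : 4 * 11 * (M : ℝ) / (κ * RR N M j * π) ≤ 44 * M / (κ * (κ * WW N) * π) := by
        norm_num
        gcongr
      have h3 : (1 : ℝ) ≤ 15 * (M / WW N) := by
        rw [mul_div_assoc', le_div_iff₀ hW0]; linarith
      have h4 : 44 * (M : ℝ) / (κ * (κ * WW N) * π) = 44 / (κ ^ 2 * π) * (M / WW N) := by
        field_simp
      rw [h4] at h2
      linarith
    · intro n hn
      simp only [Finset.mem_filter] at hn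
      have h5 := c1_close hM hMd (N := N) n
      rw [hn.2] at h5
      have h6 : BB N n = β := hn.1.2
      unfold BB at h6
      have h7 := Int.floor_le (c1 N n)
      have h8 := Int.lt_floor_add_one (c1 N n)
      rw [h6] at h7 h8
      rw [abs_le] at h5 ⊢
      constructor <;> linarith [h5.1, h5.2]
    · intro n hn
      simp only [good, Finset.mem_filter] at hn
      have := hn.1.1.2.2
      rw [hn.2] at this
      exact this
  · have : ((good N M κ).filter (fun n => BB N n = β)).filter (fun n => n / M = j) = ∅ := by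
      rw [Finset.filter_eq_empty_iff]
      intro n hn hnj
      simp only [good, Finset.mem_filter] at hn
      have := hn.1.2.1
      rw [hnj] at this
      exact hj this
    rw [this]
    simp
    positivity

theorem bad2_count {N M : ℕ} (hN : 0 < N) (hM : 0 < M) (hMN : M ≤ N)
    (hsep : ∀ m, 0 < m → m < M → 1 / (2 * (M : ℝ)) ≤ nd m) {κ : ℝ} (hκ : 0 < κ)
    (hκ2 : κ ≤ 1 / 2) :
    (((Icc 1 N).filter (fun n : ℕ => |qq N * Real.cos n - bb N M (n / M) * Real.sin n|
      < κ * RR N M (n / M))).card : ℝ) ≤ 162 * κ * N + 54 * N / M := by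
  have hpi := Real.pi_pos
  have hpi2 := Real.pi_lt_d2
  have hpi3 := Real.pi_gt_three
  have hMr : (0 : ℝ) < M := by exact_mod_cast hM
  have hNr : (0 : ℝ) < N := by exact_mod_cast hN
  have key := sum_windows hM hMN ((Icc 1 N).filter (fun n : ℕ =>
    |qq N * Real.cos n - bb N M (n / M) * Real.sin n| < κ * RR N M (n / M))) (by
    intro n hn
    simp only [Finset.mem_filter, Finset.mem_Icc] at hn
    exact hn.1.2) (c := 27 * (3 * κ * M + 1))
    (by positivity) (fun j => ?_)
  · refine key.trans (le_of_eq ?_)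
    field_simp
    ring
  have hR := RR_pos hN M j
  have hR' : 0 < |-(bb N M j)| + |(qq N : ℝ)| := by rw [abs_neg, add_comm]; exact hR
  have hRe : |-(bb N M j)| + |(qq N : ℝ)| = RR N M j := by
    unfold RR; rw [abs_neg, add_comm]
  have h1 := window_count hM hsep (-(bb N M j)) (qq N) 0 (κ * RR N M j) (1 / 2) (by norm_num) hR'
    (by positivity) (((Icc 1 N).filter (fun n : ℕ => |qq N * Real.cos n
      - bb N M (n / M) * Real.sin n| < κ * RR N M (n / M))).filter (fun n => n / M = j)) j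
    (fun n hn => (Finset.mem_filter.1 hn).2) ?_ ?_
  · refine h1.trans ?_
    rw [hRe]
    have e : 4 * (κ * RR N M j) * (M : ℝ) / (1 / 2 * RR N M j * π) = 8 * κ * M / π := by
      field_simp
      ring
    rw [e]
    have h2 : 8 * κ * (M : ℝ) / π ≤ 3 * κ * M := by
      rw [div_le_iff₀ hpi]
      have : (0 : ℝ) < κ * M := by positivity
      nlinarith
    have h3 : 4 * π / (1 / 2) + 1 ≤ 27 := by linarith
    gcongr
  · intro n hn
    simp only [Finset.mem_filter] at hn
    have := hn.1.2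
    rw [hn.2] at this
    rw [sub_zero]
    have e : -(bb N M j) * Real.sin n + qq N * Real.cos n
        = qq N * Real.cos n - bb N M j * Real.sin n := by ring
    rw [e]
    exact this.le
  · intro n hn
    simp only [Finset.mem_filter] at hn
    have h4 := hn.1.2
    rw [hn.2] at h4
    rw [hRe]
    have e : -(bb N M j) * Real.cos n - qq N * Real.sin n
        = -(qq N * Real.sin n + bb N M j * Real.cos n) := by ring
    rw [e, abs_neg]
    set x := qq N * Real.cos n - bb N M j * Real.sin n with hx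
    set y := qq N * Real.sin n + bb N M j * Real.cos n with hy
    have h5 : x ^ 2 + y ^ 2 = (qq N : ℝ) ^ 2 + (bb N M j) ^ 2 := by
      have h6 := Real.sin_sq_add_cos_sq n
      have e2 : x ^ 2 + y ^ 2 = ((qq N : ℝ) ^ 2 + (bb N M j) ^ 2)
          * (Real.sin n ^ 2 + Real.cos n ^ 2) := by
        rw [hx, hy]; ring
      rw [e2, h6, mul_one]
    have h7 : (RR N M j) ^ 2 ≤ 2 * ((qq N : ℝ) ^ 2 + (bb N M j) ^ 2) := by
      unfold RR
      rw [← sq_abs (qq N : ℝ), ← sq_abs (bb N M j)]
      nlinarith [sq_nonneg (|(qq N : ℝ)| - |bb N M j|)]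
    have h8 : x ^ 2 ≤ (1 / 2 * RR N M j) ^ 2 := by
      rw [← sq_abs x]
      refine pow_le_pow_left₀ (abs_nonneg _) (h4.le.trans ?_) 2
      gcongr
    have h9 : (1 / 2 * RR N M j) ^ 2 ≤ y ^ 2 := by nlinarith
    have h10 : 0 ≤ 1 / 2 * RR N M j := by positivity
    have h11 := sq_le_sq.1 h9
    rwa [abs_of_nonneg h10] at h11

theorem bad1_count {N M : ℕ} (hN : 0 < N) (hM : 0 < M)
    (hMd : M * |dd N| ≤ 10) {κ : ℝ} (hκ : 0 < κ) (hκ2 : κ ≤ 1 / 2) :
    (((Icc 1 N).filter (fun n : ℕ => RR N M (n / M) < κ * WW N)).card : ℝ)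
      ≤ κ * N + 10 * N / qq N := by
  have hMr : (0 : ℝ) < M := by exact_mod_cast hM
  have hNr : (0 : ℝ) < N := by exact_mod_cast hN
  have hq0 := (qq_mem hN).1
  have hqr : (0 : ℝ) < qq N := by exact_mod_cast hq0
  rcases Finset.eq_empty_or_nonempty
    ((Icc 1 N).filter (fun n : ℕ => RR N M (n / M) < κ * WW N)) with h | h
  · rw [h]; simp; positivity
  have main : ∀ n : ℕ, RR N M (n / M) < κ * WW N →
      0 < |dd N| ∧ (qq N : ℝ) < N * |dd N| ∧ (n : ℝ) < κ * N + M := by
    intro n hn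
    unfold RR WW bb at hn
    rw [abs_of_pos hqr, abs_mul, Nat.abs_cast] at hn
    have h0 : 0 ≤ |dd N| := abs_nonneg _
    have h1 : 0 ≤ ((n / M * M : ℕ) : ℝ) * |dd N| := by positivity
    have h2 : (qq N : ℝ) < N * |dd N| := by
      have : κ * (qq N : ℝ) ≤ 1 / 2 * qq N := by gcongr
      have : κ * (N * |dd N|) ≤ 1 / 2 * (N * |dd N|) := by gcongr
      nlinarith
    have h3 : 0 < |dd N| := by
      rcases h0.eq_or_lt with h | h
      · rw [← h] at h2; simp at h2; linarith
      · exact h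
    refine ⟨h3, h2, ?_⟩
    have h4 : ((n / M * M : ℕ) : ℝ) * |dd N| < κ * N * |dd N| := by
      have : κ * (qq N : ℝ) ≤ 1 * qq N := by gcongr; linarith
      nlinarith
    have h5 := lt_of_mul_lt_mul_right h4 h0
    have h6 : n < n / M * M + M := by
      have h5 := Nat.div_add_mod n M
      have h7 := Nat.mod_lt n hM
      have h8 : n / M * M = M * (n / M) := mul_comm _ _
      omega
    have h7 : (n : ℝ) < ((n / M * M : ℕ) : ℝ) + M := by exact_mod_cast h6
    linarith
  obtain ⟨n0, hn0⟩ := h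
  rw [Finset.mem_filter] at hn0
  obtain ⟨hd, hqd, _⟩ := main n0 hn0.2
  have hM2 : (M : ℝ) ≤ 10 * N / qq N := by
    rw [le_div_iff₀ hqr]
    calc (M : ℝ) * qq N ≤ M * (N * |dd N|) := by gcongr
      _ = M * |dd N| * N := by ring
      _ ≤ 10 * N := by gcongr
  have hsub : (Icc 1 N).filter (fun n : ℕ => RR N M (n / M) < κ * WW N)
      ⊆ Icc 1 ⌊κ * N + M⌋₊ := by
    intro n hn
    rw [Finset.mem_filter, Finset.mem_Icc] at hn
    rw [Finset.mem_Icc]
    exact ⟨hn.1.1, Nat.le_floor (main n hn.2).2.2.le⟩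
  have h8 := Finset.card_le_card hsub
  rw [Nat.card_Icc, Nat.add_sub_cancel] at h8
  have h9 : (((Icc 1 N).filter (fun n : ℕ => RR N M (n / M) < κ * WW N)).card : ℝ)
      ≤ (⌊κ * N + M⌋₊ : ℝ) := by exact_mod_cast h8
  refine h9.trans ((Nat.floor_le (by positivity)).trans ?_)
  linarith

/-- The number of integers that are not good. -/
theorem bad_count {N M : ℕ} (hN : 0 < N) (hM : 0 < M) (hMN : M ≤ N)
    (hsep : ∀ m, 0 < m → m < M → 1 / (2 * (M : ℝ)) ≤ nd m) (hW : WW N ≤ 15 * M)
    (hMd : M * |dd N| ≤ 10) {κ : ℝ} (hκ : 0 < κ) (hκ2 : κ ≤ 1 / 2) :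
    (((Icc 1 N \ good N M κ).card : ℕ) : ℝ) ≤ 163 * κ * N + 820 * N / qq N := by
  classical
  have hMr : (0 : ℝ) < M := by exact_mod_cast hM
  have hNr : (0 : ℝ) < N := by exact_mod_cast hN
  have hq0 := (qq_mem hN).1
  have hqr : (0 : ℝ) < qq N := by exact_mod_cast hq0
  have hsub : Icc 1 N \ good N M κ ⊆
      ((Icc 1 N).filter (fun n : ℕ => RR N M (n / M) < κ * WW N)) ∪
      ((Icc 1 N).filter (fun n : ℕ => |qq N * Real.cos n - bb N M (n / M) * Real.sin n|
      < κ * RR N M (n / M))) := by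
    intro n hn
    rw [Finset.mem_sdiff] at hn
    rw [Finset.mem_union, Finset.mem_filter, Finset.mem_filter]
    by_contra hcon
    push Not at hcon
    refine hn.2 ?_
    unfold good
    rw [Finset.mem_filter]
    exact ⟨hn.1, hcon.1 hn.1, hcon.2 hn.1⟩
  have h1 := (Finset.card_le_card hsub).trans (Finset.card_union_le _ _)
  have h2 := bad1_count hN hM hMd hκ hκ2
  have h3 := bad2_count hN hM hMN hsep hκ hκ2
  have h4 : (54 : ℝ) * N / M ≤ 810 * N / qq N := by
    rw [div_le_div_iff₀ hMr hqr]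
    have h5 : (qq N : ℝ) ≤ 15 * M := by
      refine le_trans ?_ hW
      unfold WW
      have : (0 : ℝ) ≤ N * |dd N| := by positivity
      linarith
    nlinarith
  have h6 : (((Icc 1 N \ good N M κ).card : ℕ) : ℝ) ≤
      (((Icc 1 N).filter (fun n : ℕ => RR N M (n / M) < κ * WW N)).card : ℝ) +
      (((Icc 1 N).filter (fun n : ℕ => |qq N * Real.cos n - bb N M (n / M) * Real.sin n|
      < κ * RR N M (n / M))).card : ℝ) := by exact_mod_cast h1
  have e : 820 * (N : ℝ) / qq N = 10 * N / qq N + 810 * N / qq N := by ring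
  rw [e]
  linarith

end Pool.Agent.H62.NSin
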