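import Pool.Agent.H62.NSin.HK

/-!
The Host-Kra seminorms control the averages of `|∫ ∏ T^{l β} f_l|` over `β`.
-/

namespace Pool.Agent.H62.NSin

open MeasureTheory Filter Finset Topology

variable {X : Type*} [MeasurableSpace X]

theorem exists_weight {μ : Measure X} [IsProbabilityMeasure μ] {F : X → ℝ} (hF : BM F)
    {V : ℕ → X → ℝ} (hV : ∀ n, BM (V n)) (N : ℕ) :
    ∃ w : ℕ → ℝ, (∀ n, |w n| ≤ 1) ∧
      ((1 / (N : ℝ)) * ∑ n ∈ Icc 1 N, |∫ x, F x * V n x ∂μ|) ^ 2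
        ≤ ∫ x, ((1 / (N : ℝ)) * ∑ n ∈ Icc 1 N, w n * V n x) ^ 2 ∂μ := by
  set w : ℕ → ℝ := fun n => if 0 ≤ ∫ x, F x * V n x ∂μ then 1 else -1 with hw
  have hw1 : ∀ n, |w n| ≤ 1 := by
    intro n; simp only [hw]; split_ifs <;> simp
  have hwi : ∀ n, |∫ x, F x * V n x ∂μ| = w n * ∫ x, F x * V n x ∂μ := by
    intro n
    simp only [hw]
    split_ifs with h0
    · rw [abs_of_nonneg h0, one_mul]
    · rw [abs_of_neg (not_le.1 h0)]; ring
  refine ⟨w, hw1, ?_⟩
  have hgB : BM (fun x => (1 / (N : ℝ)) * ∑ n ∈ Icc 1 N, w n * V n x) :=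
    BM_avg (u := fun n x => w n * V n x) (fun n => (hV n).smul (hw1 n)) N
  have e2 : (1 / (N : ℝ)) * ∑ n ∈ Icc 1 N, |∫ x, F x * V n x ∂μ|
      = ∫ x, F x * ((1 / (N : ℝ)) * ∑ n ∈ Icc 1 N, w n * V n x) ∂μ := by
    simp_rw [hwi]
    have : ∀ x, F x * ((1 / (N : ℝ)) * ∑ n ∈ Icc 1 N, w n * V n x)
        = (1 / (N : ℝ)) * ∑ n ∈ Icc 1 N, w n * (F x * V n x) := by
      intro x
      rw [Finset.mul_sum, Finset.mul_sum, Finset.mul_sum]
      refine Finset.sum_congr rfl fun n _ => by ring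
    simp_rw [this]
    have ii : ∀ n, Integrable (fun x => w n * (F x * V n x)) μ := fun n =>
      ((hF.mul (hV n)).integrable μ).const_mul _
    rw [integral_const_mul, integral_finsetSum _ fun n _ => ii n]
    simp_rw [integral_const_mul]
  rw [e2]
  exact sq_integral_mul_le hF hgB.1 hgB.2

/-- Products along the exponents `l β`. -/
noncomputable def prdZ (T : X ≃ᵐ X) (S : Finset ℤ) (f : ℤ → X → ℝ) (β : ℤ) : X → ℝ :=
  ∏ l ∈ S, sh T (l * β) (f l)

/-- Averages of the integrals of these products. -/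
noncomputable def avZ (T : X ≃ᵐ X) (μ : Measure X) (S : Finset ℤ) (f : ℤ → X → ℝ) (M : ℕ) : ℝ :=
  (1 / (M : ℝ)) * ∑ β ∈ Icc 1 M, |∫ x, prdZ T S f β x ∂μ|

theorem BM_prdZ {T : X ≃ᵐ X} {S : Finset ℤ} {f : ℤ → X → ℝ} (hf : ∀ l, BM (f l)) (β : ℤ) :
    BM (prdZ T S f β) := BM.prod S _ fun l _ => (hf l).shift T _

/-- Removing the exponent `l`. -/
def dropZ (l : ℤ) (S : Finset ℤ) : Finset ℤ := (S.erase l).image (· - l)

theorem prdZ_drop {T : X ≃ᵐ X} {S : Finset ℤ} {f : ℤ → X → ℝ} {l : ℤ} (hl : l ∈ S) (β : ℤ) :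
    prdZ T S f β = sh T (l * β) (f l * prdZ T (dropZ l S) (fun t => f (t + l)) β) := by
  unfold prdZ dropZ
  rw [sh_mul, sh_prod, ← Finset.mul_prod_erase S _ hl]
  congr 1
  rw [Finset.prod_image (fun a _ b _ h => by simpa using h)]
  refine Finset.prod_congr rfl fun s _ => ?_
  simp only [sh_sh, sub_add_cancel]
  congr 1
  ring

theorem prdZ_mul {T : X ≃ᵐ X} {S : Finset ℤ} {f : ℤ → X → ℝ} (β d : ℤ) :
    prdZ T S f β * prdZ T S f (β + d) = prdZ T S (fun t => f t * sh T (t * d) (f t)) β := by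
  unfold prdZ
  rw [← Finset.prod_mul_distrib]
  refine Finset.prod_congr rfl fun s _ => ?_
  rw [sh_mul, sh_sh, mul_add]

theorem avZ_nonneg (T : X ≃ᵐ X) (μ : Measure X) (S : Finset ℤ) (f : ℤ → X → ℝ) (M : ℕ) :
    0 ≤ avZ T μ S f M := avg_nonneg _ (fun _ => abs_nonneg _) M

theorem avZ_le_one {T : X ≃ᵐ X} {μ : Measure X} [IsProbabilityMeasure μ] {S : Finset ℤ}
    {f : ℤ → X → ℝ} (hf : ∀ l, BM (f l)) (M : ℕ) : avZ T μ S f M ≤ 1 :=
  avg_le_one _ (fun n => (BM_prdZ hf (n : ℤ)).abs_integral_le μ) M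

theorem avZ_step {T : X ≃ᵐ X} {μ : Measure X} [IsProbabilityMeasure μ]
    (hT : MeasurePreserving T μ μ) {S : Finset ℤ} {f : ℤ → X → ℝ} (hf : ∀ l, BM (f l))
    {l : ℤ} (hl : l ∈ S) {H M : ℕ} (hM : 0 < M) (hHM : H ≤ M) :
    (H : ℝ) * avZ T μ S f M ^ 2 ≤ 2 * (1 + 2 * ∑ d ∈ Ico 1 H,
      avZ T μ (dropZ l S) (fun t => f (t + l) * sh T (t * d) (f (t + l))) M) := by
  have hMr : (0 : ℝ) < M := by exact_mod_cast hM
  set V : ℕ → X → ℝ := fun β => prdZ T (dropZ l S) (fun t => f (t + l)) β with hV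
  have hVB : ∀ n, BM (V n) := fun n => BM_prdZ (fun s => hf _) n
  have e1 : avZ T μ S f M = (1 / (M : ℝ)) * ∑ β ∈ Icc 1 M, |∫ x, f l x * V β x ∂μ| := by
    unfold avZ
    congr 1
    refine Finset.sum_congr rfl fun β _ => ?_
    rw [prdZ_drop hl, integral_sh hT _ ((hf l).mul (hVB β)).1]
    rfl
  obtain ⟨w, hw, h1⟩ := exists_weight (μ := μ) (hf l) hVB M
  rw [← e1] at h1
  have h2 := vdc (μ := μ) (fun n x => w n * V n x) (fun n => (hVB n).smul (hw n)) M 1 H
  have e3 : ∫ x, ((1 / (M : ℝ)) * ∑ n ∈ Icc 1 M, w n * V n x) ^ 2 ∂μ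
      = (1 / (M : ℝ)) ^ 2 * ∫ x, (∑ n ∈ Icc 1 M, w n * V n x) ^ 2 ∂μ := by
    rw [← integral_const_mul]
    congr 1; funext x; ring
  rw [e3] at h1
  have e4 : ∀ d : ℕ, ∑ n ∈ Icc 1 (M - 1 * d), |∫ x, (w n * V n x) *
      (w (n + 1 * d) * V (n + 1 * d) x) ∂μ|
      ≤ M * avZ T μ (dropZ l S) (fun t => f (t + l) * sh T (t * d) (f (t + l))) M := by
    intro d
    have e40 : (M : ℝ) * avZ T μ (dropZ l S) (fun t => f (t + l) * sh T (t * d) (f (t + l))) M
        = ∑ n ∈ Icc 1 M, |∫ x, prdZ T (dropZ l S)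
          (fun t => f (t + l) * sh T (t * d) (f (t + l))) n x ∂μ| := by
      unfold avZ
      field_simp
    rw [e40]
    calc ∑ n ∈ Icc 1 (M - 1 * d), |∫ x, (w n * V n x) * (w (n + 1 * d) * V (n + 1 * d) x) ∂μ|
        ≤ ∑ n ∈ Icc 1 (M - 1 * d), |∫ x, prdZ T (dropZ l S)
          (fun t => f (t + l) * sh T (t * d) (f (t + l))) n x ∂μ| := by
          refine Finset.sum_le_sum fun n _ => ?_
          have e5 : V n * V (n + 1 * d) = prdZ T (dropZ l S)
              (fun t => f (t + l) * sh T (t * d) (f (t + l))) n := by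
            simp only [hV]
            rw [one_mul]
            push_cast
            exact prdZ_mul (f := fun t => f (t + l)) (n : ℤ) d
          have e6 : ∀ x, (w n * V n x) * (w (n + 1 * d) * V (n + 1 * d) x)
              = (w n * w (n + 1 * d)) * (V n * V (n + 1 * d)) x := by
            intro x; rw [Pi.mul_apply]; ring
          simp_rw [e6]
          rw [integral_const_mul, abs_mul, abs_mul, e5]
          refine mul_le_of_le_one_left (abs_nonneg _) ?_
          exact mul_le_one₀ (hw _) (abs_nonneg _) (hw _)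
      _ ≤ _ := by
          refine Finset.sum_le_sum_of_subset_of_nonneg ?_ fun _ _ _ => abs_nonneg _
          exact Finset.Icc_subset_Icc le_rfl (Nat.sub_le _ _)
  have h3 : (H : ℝ) * ∫ x, (∑ n ∈ Icc 1 M, w n * V n x) ^ 2 ∂μ
      ≤ (2 * M) * (M + 2 * ∑ d ∈ Ico 1 H,
        M * avZ T μ (dropZ l S) (fun t => f (t + l) * sh T (t * d) (f (t + l))) M) := by
    refine h2.trans ?_
    have a1 : ((M + 1 * H : ℕ) : ℝ) ≤ 2 * M := by
      have : M + 1 * H ≤ 2 * M := by omega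
      exact_mod_cast this
    refine mul_le_mul a1 ?_ ?_ (by positivity)
    · gcongr with d _
      exact e4 d
    · refine add_nonneg (by positivity) (mul_nonneg (by norm_num)
        (Finset.sum_nonneg fun d _ => Finset.sum_nonneg fun n _ => abs_nonneg _))
  rw [← Finset.mul_sum] at h3
  calc (H : ℝ) * avZ T μ S f M ^ 2
      ≤ H * ((1 / (M : ℝ)) ^ 2 * ∫ x, (∑ n ∈ Icc 1 M, w n * V n x) ^ 2 ∂μ) := by gcongr
    _ = (1 / (M : ℝ)) ^ 2 * (H * ∫ x, (∑ n ∈ Icc 1 M, w n * V n x) ^ 2 ∂μ) := by ring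
    _ ≤ (1 / (M : ℝ)) ^ 2 * ((2 * M) * (M + 2 * (M * ∑ d ∈ Ico 1 H,
        avZ T μ (dropZ l S) (fun t => f (t + l) * sh T (t * d) (f (t + l))) M))) := by gcongr
    _ = _ := by field_simp

theorem pow_avg_le (b : ℕ → ℝ) (hb : ∀ n, 0 ≤ b n) (H p : ℕ) (hH : 0 < H) (hp : p ≠ 0) :
    ((1 / (H : ℝ)) * ∑ d ∈ Ico 1 H, b d) ^ p ≤ (1 / (H : ℝ)) * ∑ d ∈ Ico 1 H, (b d) ^ p := by
  have hHr : (0 : ℝ) < H := by exact_mod_cast hH
  obtain ⟨m, rfl⟩ := Nat.exists_eq_succ_of_ne_zero hp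
  set c : ℕ → ℝ := fun d => if d = 0 then 0 else b d with hc
  have hc0 : ∀ d, 0 ≤ c d := fun d => by simp only [hc]; split_ifs; exacts [le_rfl, hb _]
  have e1 : ∑ d ∈ Ico 1 H, b d = ∑ d ∈ range H, c d := by
    rw [Finset.range_eq_Ico, Finset.sum_eq_sum_Ico_succ_bot hH]
    simp only [hc, if_true, zero_add]
    refine Finset.sum_congr rfl fun d hd => ?_
    rw [if_neg]
    rw [Finset.mem_Ico] at hd; omega
  have e2 : ∑ d ∈ Ico 1 H, (b d) ^ (m + 1) = ∑ d ∈ range H, (c d) ^ (m + 1) := by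
    rw [Finset.range_eq_Ico, Finset.sum_eq_sum_Ico_succ_bot hH]
    simp only [hc, if_true, zero_add]
    rw [zero_pow (Nat.succ_ne_zero m), zero_add]
    refine Finset.sum_congr rfl fun d hd => ?_
    rw [if_neg]
    rw [Finset.mem_Ico] at hd; omega
  have key := Real.pow_arith_mean_le_arith_mean_pow (range H) (fun _ => 1 / (H : ℝ)) c
    (fun _ _ => by positivity) (by simp; field_simp) (fun d _ => hc0 d) (m + 1)
  rw [← Finset.mul_sum, ← Finset.mul_sum, ← e1, ← e2] at key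
  exact key

/-- Main estimate. -/
theorem avZ_le {T : X ≃ᵐ X} {μ : Measure X} [IsProbabilityMeasure μ]
    (hT : MeasurePreserving T μ μ) (k : ℕ) : ∀ (S : Finset ℤ), S.card = k + 1 →
    ∀ l0 ∈ S, ∃ C : ℝ, 0 ≤ C ∧ ∀ f : ℤ → X → ℝ, (∀ l, BM (f l)) → ∀ ε : ℝ, 0 < ε →
      ∀ᶠ M : ℕ in atTop, avZ T μ S f M ^ (2 ^ (k + 1)) ≤ C * hostKra T μ k (f l0) + ε := by
  induction k with
  | zero =>
    intro S hS l0 hl0
    obtain ⟨a, rfl⟩ := Finset.card_eq_one.1 hS
    rw [Finset.mem_singleton] at hl0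
    subst hl0
    refine ⟨1, zero_le_one, fun f hf ε hε => Eventually.of_forall fun M => ?_⟩
    have h1 : avZ T μ {l0} f M ≤ |∫ x, f l0 x ∂μ| := by
      unfold avZ prdZ
      simp only [Finset.prod_singleton]
      simp_rw [fun β : ℕ => integral_sh hT (l0 * β) (hf l0).1]
      rcases Nat.eq_zero_or_pos M with h0 | h0
      · subst h0; simp
      have hM : (0 : ℝ) < M := by exact_mod_cast h0
      simp
      rw [← mul_assoc, inv_mul_cancel₀ hM.ne', one_mul]
    have h2 := sq_int_le_hostKra_zero hT (hf l0)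
    have h3 : avZ T μ {l0} f M ^ (2 ^ (0 + 1)) ≤ (∫ x, f l0 x ∂μ) ^ 2 := by
      rw [← sq_abs (∫ x, f l0 x ∂μ)]
      exact pow_le_pow_left₀ (avZ_nonneg _ _ _ _ _) h1 2
    linarith
  | succ k ih =>
    intro S hS l0 hl0
    -- another element
    obtain ⟨l1, hl1, hne⟩ : ∃ l1 ∈ S, l1 ≠ l0 := by
      by_contra hcon
      push_neg at hcon
      have : S ⊆ {l0} := fun x hx => by simpa using hcon x hx
      have := Finset.card_le_card this
      rw [hS] at this
      simp at this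
    have hS' : (dropZ l1 S).card = k + 1 := by
      unfold dropZ
      rw [Finset.card_image_of_injective _ (fun a b h => by simpa using h),
        Finset.card_erase_of_mem hl1, hS]
      omega
    have hl0' : l0 - l1 ∈ dropZ l1 S := by
      unfold dropZ
      exact Finset.mem_image.2 ⟨l0, Finset.mem_erase.2 ⟨hne.symm, hl0⟩, rfl⟩
    obtain ⟨C, hC0, hC⟩ := ih (dropZ l1 S) hS' (l0 - l1) hl0'
    set c : ℤ := l0 - l1 with hc
    have hc0 : c ≠ 0 := sub_ne_zero.2 hne.symm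
    set m : ℕ := c.natAbs with hm
    have hm0 : 0 < m := Int.natAbs_pos.2 hc0
    set p : ℕ := 2 ^ (k + 1) with hp
    have hp0 : p ≠ 0 := by positivity
    refine ⟨2 ^ (p - 1) * (4 ^ p * (C * m)), by positivity, fun f hf ε hε => ?_⟩
    set g : ℕ → X → ℝ := fun d => f l0 * sh T (c * d) (f l0) with hg
    have hgB : ∀ d, BM (g d) := fun d => (hf l0).mul ((hf l0).shift T _)
    -- the relevant average
    set a : ℕ → ℝ := fun K => (1 / (K : ℝ)) * ∑ j ∈ Icc 1 K, hostKra T μ k (f l0 * sh T j (f l0))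
      with ha
    have haB : ∀ j : ℕ, BM (f l0 * sh T j (f l0)) := fun j => (hf l0).mul ((hf l0).shift T _)
    have hga : ∀ d : ℕ, hostKra T μ k (g d)
        = hostKra T μ k (f l0 * sh T ((m * d : ℕ) : ℤ) (f l0)) := by
      intro d
      rcases Int.natAbs_eq c with h | h
      · rw [← hm] at h
        have e : c * (d : ℤ) = ((m * d : ℕ) : ℤ) := by
          push_cast; rw [← h]
        simp only [hg]
        rw [e]
      · have e : g d = sh T (c * d) (f l0 * sh T ((m * d : ℕ) : ℤ) (f l0)) := by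
          simp only [hg]
          rw [sh_mul, sh_sh]
          have : c * (d : ℤ) + ((m * d : ℕ) : ℤ) = 0 := by
            rw [← hm] at h
            push_cast
            have h' : (m : ℤ) = -c := by omega
            rw [h']; ring
          rw [this, sh_zero, mul_comm]
        rw [e, hostKra_sh hT k (haB _)]
    have hsumga : ∀ H : ℕ, 0 < H → (1 / (H : ℝ)) * ∑ d ∈ Ico 1 H, hostKra T μ k (g d)
        ≤ m * a (m * H) := by
      intro H hH
      have hHr : (0 : ℝ) < H := by exact_mod_cast hH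
      have hmr : (0 : ℝ) < m := by exact_mod_cast hm0
      have e : (m : ℝ) * a (m * H) = (1 / (H : ℝ)) * ∑ j ∈ Icc 1 (m * H),
          hostKra T μ k (f l0 * sh T j (f l0)) := by
        simp only [ha]; push_cast; field_simp
      rw [e]
      refine mul_le_mul_of_nonneg_left ?_ (by positivity)
      simp_rw [hga]
      have inj : Set.InjOn (fun d => m * d) (Ico 1 H : Finset ℕ) := fun x _ y _ h =>
        Nat.eq_of_mul_eq_mul_left hm0 h
      rw [← Finset.sum_image (f := fun j : ℕ => hostKra T μ k (f l0 * sh T (j : ℤ) (f l0))) inj]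
      refine Finset.sum_le_sum_of_subset_of_nonneg ?_ fun j _ _ => (hostKra_mem k (haB j)).1
      intro j hj
      obtain ⟨d, hd, rfl⟩ := Finset.mem_image.1 hj
      rw [Finset.mem_Ico] at hd
      rw [Finset.mem_Icc]
      exact ⟨Nat.mul_pos hm0 (by omega), Nat.mul_le_mul_left _ hd.2.le⟩
    -- constants
    set D : ℝ := 2 ^ (p - 1) * (4 ^ p * (C * m + 1)) with hD
    have hDpos : 0 < D := by positivity
    set δ : ℝ := ε / (2 * D) with hδ
    have hδ0 : 0 < δ := by positivity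
    have hev1 : ∀ᶠ K : ℕ in atTop, a K ≤ hostKra T μ (k + 1) (f l0) + δ :=
      le_limsup_add (avg_le_one _ fun j => (hostKra_mem k (haB j)).2) hδ0
    obtain ⟨K1, hK1⟩ := eventually_atTop.1 hev1
    -- choose H
    have hlim : Tendsto (fun H : ℕ => (2 : ℝ) ^ (p - 1) * (2 / (H : ℝ)) ^ p) atTop (𝓝 0) := by
      have h1 : Tendsto (fun H : ℕ => 2 / (H : ℝ)) atTop (𝓝 0) :=
        tendsto_const_div_atTop_nhds_zero_nat 2
      have h2 := (h1.pow p).const_mul ((2 : ℝ) ^ (p - 1))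
      rwa [zero_pow hp0, mul_zero] at h2
    obtain ⟨H, hH1, hH2, hH3⟩ : ∃ H : ℕ, 0 < H ∧ K1 ≤ H ∧
        (2 : ℝ) ^ (p - 1) * (2 / (H : ℝ)) ^ p ≤ ε / 2 := by
      have h3 := hlim.eventually (ge_mem_nhds (show (0 : ℝ) < ε / 2 by positivity))
      obtain ⟨H, h4, h5, h6⟩ :=
        ((eventually_gt_atTop 0).and ((eventually_ge_atTop K1).and h3)).exists
      exact ⟨H, h4, h5, h6⟩
    have hHr : (0 : ℝ) < H := by exact_mod_cast hH1
    have haH : a (m * H) ≤ hostKra T μ (k + 1) (f l0) + δ :=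
      hK1 _ (hH2.trans (Nat.le_mul_of_pos_left _ hm0))
    -- the functions after one step
    set ff : ℕ → ℤ → X → ℝ := fun d t => f (t + l1) * sh T (t * d) (f (t + l1)) with hff
    have hffB : ∀ d t, BM (ff d t) := fun d t => (hf _).mul ((hf _).shift T _)
    have hffg : ∀ d, ff d c = g d := by
      intro d; simp only [hff, hg, hc, sub_add_cancel]
    have hev2 : ∀ᶠ M : ℕ in atTop, ∀ d ∈ Ico 1 H,
        avZ T μ (dropZ l1 S) (ff d) M ^ p ≤ C * hostKra T μ k (g d) + δ := by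
      rw [Filter.eventually_all_finset]
      intro d _
      have := hC (ff d) (hffB d) δ hδ0
      rw [hffg] at this
      exact this
    filter_upwards [hev2, eventually_ge_atTop H] with M hM1 hM2
    have hMpos : 0 < M := lt_of_lt_of_le hH1 hM2
    have hstep := avZ_step hT hf hl1 hMpos hM2
    set y : ℕ → ℝ := fun d => avZ T μ (dropZ l1 S) (ff d) M with hy
    have hy0 : ∀ d, 0 ≤ y d := fun d => avZ_nonneg _ _ _ _ _
    have hx : avZ T μ S f M ^ 2 ≤ 2 / H + 4 * ((1 / (H : ℝ)) * ∑ d ∈ Ico 1 H, y d) := by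
      have : avZ T μ S f M ^ 2 ≤ (2 * (1 + 2 * ∑ d ∈ Ico 1 H, y d)) / H := by
        rw [le_div_iff₀ hHr, mul_comm]
        exact hstep
      refine this.trans (le_of_eq ?_)
      field_simp
      ring
    have hp2 : 2 ^ (k + 1 + 1) = 2 * p := by rw [hp, pow_succ']
    rw [hp2, pow_mul]
    set z : ℝ := (1 / (H : ℝ)) * ∑ d ∈ Ico 1 H, y d with hz
    have hz0 : 0 ≤ z := mul_nonneg (by positivity) (Finset.sum_nonneg fun d _ => hy0 d)
    have h1 : (avZ T μ S f M ^ 2) ^ p ≤ (2 / H + 4 * z) ^ p :=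
      pow_le_pow_left₀ (sq_nonneg _) hx p
    have h2 : (2 / (H : ℝ) + 4 * z) ^ p ≤ 2 ^ (p - 1) * ((2 / H) ^ p + (4 * z) ^ p) :=
      add_pow_le (by positivity) (by positivity) p
    have h3 : z ^ p ≤ (1 / (H : ℝ)) * ∑ d ∈ Ico 1 H, (y d) ^ p :=
      pow_avg_le y hy0 H p hH1 hp0
    have h4 : (1 / (H : ℝ)) * ∑ d ∈ Ico 1 H, (y d) ^ p
        ≤ C * (m * (hostKra T μ (k + 1) (f l0) + δ)) + δ := by
      calc (1 / (H : ℝ)) * ∑ d ∈ Ico 1 H, (y d) ^ p
          ≤ (1 / (H : ℝ)) * ∑ d ∈ Ico 1 H, (C * hostKra T μ k (g d) + δ) := by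
            refine mul_le_mul_of_nonneg_left (Finset.sum_le_sum fun d hd => hM1 d hd)
              (by positivity)
        _ = C * ((1 / (H : ℝ)) * ∑ d ∈ Ico 1 H, hostKra T μ k (g d))
            + (1 / (H : ℝ)) * (((H - 1 : ℕ) : ℝ) * δ) := by
            rw [Finset.sum_add_distrib, ← Finset.mul_sum]
            simp
            ring
        _ ≤ C * (m * a (m * H)) + δ := by
            have a1 := hsumga H hH1
            have a2 : (1 / (H : ℝ)) * (((H - 1 : ℕ) : ℝ) * δ) ≤ δ := by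
              rw [one_div, inv_mul_le_iff₀ hHr]
              gcongr
              exact Nat.sub_le _ _
            gcongr
        _ ≤ _ := by gcongr
    have hK0 := (hostKra_mem (T := T) (μ := μ) (k + 1) (hf l0)).1
    calc (avZ T μ S f M ^ 2) ^ p ≤ 2 ^ (p - 1) * ((2 / H) ^ p + (4 * z) ^ p) := h1.trans h2
      _ = 2 ^ (p - 1) * (2 / (H : ℝ)) ^ p + 2 ^ (p - 1) * (4 ^ p * z ^ p) := by
          rw [mul_pow]; ring
      _ ≤ ε / 2 + 2 ^ (p - 1) * (4 ^ p * (C * (m * (hostKra T μ (k + 1) (f l0) + δ)) + δ)) := by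
          gcongr
          exact h3.trans h4
      _ = 2 ^ (p - 1) * (4 ^ p * (C * m)) * hostKra T μ (k + 1) (f l0) + (ε / 2 + D * δ) := by
          rw [hD]; ring
      _ = _ := by
          rw [hδ]
          field_simp
          ring

end Pool.Agent.H62.NSin
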