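import Pool.Agent.H62.NSin.Claims
import Pool.Agent.H62.NSin.Lin

/-!
The induction (polynomial exhaustion technique): Host-Kra seminorms control averages along
exponents `i A(n) + l B(n)`.
-/

namespace Pool.Agent.H62.NSin

open MeasureTheory Filter Finset Topology

universe u

/-- The array `B` has bounded density at every scale, in the weak form needed here. -/
def Dens (B : ℕ → ℕ → ℤ) : Prop :=
  ∀ Φ : ℤ → ℝ, (∀ β, 0 ≤ Φ β) → (∀ β, Φ β ≤ 1) →
    Tendsto (fun M : ℕ => (1 / (M : ℝ)) * ∑ β ∈ Icc 1 M, Φ β) atTop (𝓝 0) →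
    Tendsto (fun M : ℕ => (1 / (M : ℝ)) * ∑ β ∈ Icc 1 M, Φ (-(β : ℤ))) atTop (𝓝 0) →
    Tendsto (fun N : ℕ => (1 / (N : ℝ)) * ∑ n ∈ Icc 1 N, Φ (B N n)) atTop (𝓝 0)

section

variable {X : Type*} [MeasurableSpace X]

theorem tendsto_of_pow {a : ℕ → ℝ} (ha : ∀ n, 0 ≤ a n) {p : ℕ} (hp : p ≠ 0)
    (h : ∀ ε : ℝ, 0 < ε → ∀ᶠ n in atTop, a n ^ p ≤ ε) : Tendsto a atTop (𝓝 0) := by
  rw [Metric.tendsto_atTop]
  intro ε hε
  obtain ⟨N, hN⟩ := eventually_atTop.1 (h ((ε / 2) ^ p) (by positivity))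
  refine ⟨N, fun n hn => ?_⟩
  rw [Real.dist_eq, sub_zero, abs_of_nonneg (ha n)]
  have := (pow_le_pow_iff_left₀ (ha n) (by positivity) hp).1 (hN n hn)
  linarith

theorem avZ_tendsto {T : X ≃ᵐ X} {μ : Measure X} [IsProbabilityMeasure μ]
    (hT : MeasurePreserving T μ μ) {S : Finset ℤ} {c : ℕ} (hS : S.card ≤ c + 1) {l0 : ℤ}
    (hl0 : l0 ∈ S) {f : ℤ → X → ℝ} (hf : ∀ l, BM (f l)) (h0 : hostKra T μ c (f l0) = 0) :
    Tendsto (avZ T μ S f) atTop (𝓝 0) := by
  obtain ⟨k, hk⟩ : ∃ k, S.card = k + 1 :=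
    Nat.exists_eq_succ_of_ne_zero (Finset.card_ne_zero_of_mem hl0)
  obtain ⟨C, hC0, hC⟩ := avZ_le (μ := μ) hT k S hk l0 hl0
  have hk0 : hostKra T μ k (f l0) = 0 := hostKra_eq_zero_of_le hT (hf l0) (by omega) h0
  refine tendsto_of_pow (avZ_nonneg _ _ _ _) (p := 2 ^ (k + 1)) (by positivity) fun ε hε => ?_
  have := hC f hf ε hε
  rw [hk0, mul_zero, zero_add] at this
  exact this

theorem pet_base {T : X ≃ᵐ X} {μ : Measure X} [IsProbabilityMeasure μ]
    (hT : MeasurePreserving T μ μ) {A B : ℕ → ℕ → ℤ} (hdens : Dens B)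
    {S : Finset (ℤ × ℤ)} {c : ℕ} (hS : S.card ≤ c + 1) {j0 : ℤ × ℤ} (hj0 : j0 ∈ S)
    (hall : ∀ s ∈ S, s.1 = j0.1) {f : ℤ × ℤ → X → ℝ} (hf : ∀ s, BM (f s))
    (h0 : hostKra T μ c (f j0) = 0) : IC T μ A B S f := by
  classical
  set S2 : Finset ℤ := S.image Prod.snd with hS2
  have hinj : Set.InjOn Prod.snd (S : Set (ℤ × ℤ)) := by
    intro a ha b hb hab
    exact Prod.ext ((hall a ha).trans (hall b hb).symm) hab
  set f2 : ℤ → X → ℝ := fun l => f (j0.1, l) with hf2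
  have hprd : ∀ N n, prd T A B S f N n = sh T (j0.1 * A N n) (prdZ T S2 f2 (B N n)) := by
    intro N n
    unfold prd prdZ
    rw [sh_prod, hS2, Finset.prod_image hinj]
    refine Finset.prod_congr rfl fun s hs => ?_
    rw [sh_sh]
    simp only [hf2, ex]
    rw [hall s hs, show ((j0.1, s.2) : ℤ × ℤ) = s from Prod.ext (hall s hs).symm rfl]
  have hB2 : ∀ l, BM (f2 l) := fun l => hf _
  have e1 : avI T μ A B S f = fun N : ℕ => (1 / (N : ℝ)) * ∑ n ∈ Icc 1 N,
      (fun β : ℤ => |∫ x, prdZ T S2 f2 β x ∂μ|) (B N n) := by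
    funext N
    unfold avI
    congr 1
    refine Finset.sum_congr rfl fun n _ => ?_
    rw [hprd, integral_sh hT _ (BM_prdZ hB2 _).1]
  unfold IC
  rw [e1]
  refine hdens _ (fun β => abs_nonneg _) (fun β => (BM_prdZ hB2 β).abs_integral_le μ) ?_ ?_
  · refine avZ_tendsto (c := c) hT ?_ (l0 := j0.2) ?_ hB2 ?_
    · rw [hS2, Finset.card_image_of_injOn hinj]; exact hS
    · exact Finset.mem_image.2 ⟨j0, hj0, rfl⟩
    · simpa [hf2] using h0
  · set S3 : Finset ℤ := S2.image (fun l => -l) with hS3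
    set f3 : ℤ → X → ℝ := fun l => f2 (-l) with hf3
    have e2 : (fun M : ℕ => (1 / (M : ℝ)) * ∑ β ∈ Icc 1 M, |∫ x, prdZ T S2 f2 (-(β : ℤ)) x ∂μ|)
        = avZ T μ S3 f3 := by
      funext M
      unfold avZ
      congr 1
      refine Finset.sum_congr rfl fun β _ => ?_
      congr 2
      have : prdZ T S3 f3 β = prdZ T S2 f2 (-(β : ℤ)) := by
        unfold prdZ
        rw [hS3, Finset.prod_image (fun a _ b _ h => neg_injective h)]
        refine Finset.prod_congr rfl fun l _ => ?_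
        simp only [hf3, neg_neg]
        congr 1
        ring
      rw [this]
    show Tendsto (fun M : ℕ => (1 / (M : ℝ)) * ∑ β ∈ Icc 1 M,
      |∫ x, prdZ T S2 f2 (-(β : ℤ)) x ∂μ|) atTop (𝓝 0)
    rw [e2]
    refine avZ_tendsto (c := c) hT ?_ (l0 := -j0.2) ?_ (fun l => hB2 _) ?_
    · rw [hS3, Finset.card_image_of_injective _ neg_injective, hS2,
        Finset.card_image_of_injOn hinj]
      exact hS
    · exact Finset.mem_image.2 ⟨j0.2, Finset.mem_image.2 ⟨j0, hj0, rfl⟩, rfl⟩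
    · simpa [hf3, hf2] using h0

end

/-- The statement proved by induction. -/
def PP (A B : ℕ → ℕ → ℤ) (D r c : ℕ) : Prop :=
  ∃ k : ℕ, ∀ (X : Type u) [MeasurableSpace X] (μ : Measure X) [IsProbabilityMeasure μ]
    (T : X ≃ᵐ X), MeasurePreserving T μ μ → ∀ (S : Finset (ℤ × ℤ)) (f : ℤ × ℤ → X → ℝ)
    (j0 : ℤ × ℤ) (m : ℤ), (∀ s, BM (f s)) → j0 ∈ S → m ≠ j0.1 →
    ((S.image Prod.fst).erase m).card ≤ D → (S.filter (fun s => s.1 = m)).card ≤ r →
    S.card ≤ c → hostKra T μ k (f j0) = 0 → IC T μ A B S f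

theorem pet_step {A B : ℕ → ℕ → ℤ} {q : ℕ → ℕ} (hloc : Loc A B q) {D r c k : ℕ}
    {X : Type u} [MeasurableSpace X] {μ : Measure X} [IsProbabilityMeasure μ]
    {T : X ≃ᵐ X} (hT : MeasurePreserving T μ μ)
    (ih : ∀ (S : Finset (ℤ × ℤ)) (f : ℤ × ℤ → X → ℝ)
      (j0 : ℤ × ℤ) (m : ℤ), (∀ s, BM (f s)) → j0 ∈ S → m ≠ j0.1 →
      ((S.image Prod.fst).erase m).card ≤ D → (S.filter (fun s => s.1 = m)).card ≤ r →
      S.card ≤ 2 * c → hostKra T μ k (f j0) = 0 → IC T μ A B S f)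
    (S : Finset (ℤ × ℤ)) (f : ℤ × ℤ → X → ℝ) (j0 : ℤ × ℤ) (m : ℤ) (hf : ∀ s, BM (f s))
    (hj0 : j0 ∈ S) (hm : m ≠ j0.1) (hD : ((S.image Prod.fst).erase m).card ≤ D)
    (hr : (S.filter (fun s => s.1 = m)).card ≤ r + 1) {L : ℤ × ℤ} (hL : L ∈ S) (hLm : L.1 = m)
    (hc : S.card ≤ c) (h0 : hostKra T μ k (f j0) = 0) : IC T μ A B S f := by
  classical
  set S1 := drop L S with hS1
  set f1 : ℤ × ℤ → X → ℝ := fun t => f (t + L) with hf1
  set j1 : ℤ × ℤ := j0 - L with hj1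
  have hj0L : j0 ≠ L := by rintro rfl; exact hm hLm.symm
  have hj1S : j1 ∈ S1 :=
    Finset.mem_image.2 ⟨j0, Finset.mem_erase.2 ⟨hj0L, hj0⟩, rfl⟩
  have hj11 : j1.1 ≠ 0 := by
    simp only [hj1, Prod.fst_sub, hLm]
    exact sub_ne_zero.2 hm.symm
  refine IC_of_NC hT hf hL ?_
  have hfin : Set.Finite {d : ℕ | undbl d j1 ∈ S1} := by
    refine Set.Finite.preimage (f := fun d : ℕ => undbl d j1) ?_ S1.finite_toSet
    intro a _ b _ hab
    have h2 := congrArg Prod.snd hab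
    simp only [undbl] at h2
    have h3 : ((a : ℤ) - b) * j1.1 = 0 := by linear_combination -h2
    rcases mul_eq_zero.1 h3 with h4 | h4
    · have : (a : ℤ) = b := by omega
      exact_mod_cast this
    · exact absurd h4 hj11
  refine NC_of_IC hloc (fun s => hf _) hfin.toFinset fun d hd e => ?_
  have hd' : undbl d j1 ∉ S1 := by simpa using hd
  have hfst : ∀ t ∈ dS d S1, ∃ s ∈ S.erase L, t.1 = s.1 - m := by
    intro t ht
    unfold dS at ht
    rcases Finset.mem_union.1 ht with h | h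
    · obtain ⟨s, hs, rfl⟩ := Finset.mem_image.1 h
      exact ⟨s, hs, by simp [hLm]⟩
    · obtain ⟨t', ht', rfl⟩ := Finset.mem_image.1 h
      obtain ⟨s, hs, rfl⟩ := Finset.mem_image.1 ht'
      exact ⟨s, hs, by simp [dbl, hLm]⟩
  have hS1c : S1.card ≤ c := by
    rw [hS1]
    unfold drop
    exact Finset.card_image_le.trans ((Finset.card_erase_le).trans hc)
  refine ih (dS d S1) (df T d e S1 f1) j1 0 (BM_df (fun s => hf _)) ?_ hj11.symm ?_ ?_ ?_ ?_
  · exact Finset.mem_union_left _ hj1S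
  · refine le_trans (Finset.card_le_card ?_) (Finset.card_image_le (f := fun x => x - m)
      (s := (S.image Prod.fst).erase m)) |>.trans hD
    intro x hx
    rw [Finset.mem_erase] at hx
    obtain ⟨t, ht, rfl⟩ := Finset.mem_image.1 hx.2
    obtain ⟨s, hs, hst⟩ := hfst t ht
    refine Finset.mem_image.2 ⟨s.1, Finset.mem_erase.2 ⟨?_, ?_⟩, hst.symm⟩
    · intro h
      rw [h, sub_self] at hst
      exact hx.1 hst
    · exact Finset.mem_image.2 ⟨s, (Finset.mem_erase.1 hs).2, rfl⟩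
  · have hsub : (dS d S1).filter (fun s => s.1 = 0)
        ⊆ ((S.filter (fun s => s.1 = m)).erase L).image (· - L) := by
      intro t ht
      rw [Finset.mem_filter] at ht
      have ht1 : t ∈ S1 := by
        rcases Finset.mem_union.1 ht.1 with h | h
        · exact h
        · obtain ⟨t', ht', rfl⟩ := Finset.mem_image.1 h
          have h1 : t'.1 = 0 := by simpa [dbl] using ht.2
          have : dbl d t' = t' := Prod.ext rfl (by simp [dbl, h1])
          rw [this]; exact ht'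
      obtain ⟨s, hs, rfl⟩ := Finset.mem_image.1 ht1
      rw [Finset.mem_erase] at hs
      refine Finset.mem_image.2 ⟨s, Finset.mem_erase.2 ⟨hs.1, Finset.mem_filter.2 ⟨hs.2, ?_⟩⟩, rfl⟩
      have := ht.2
      simp only [Prod.fst_sub, hLm] at this
      omega
    refine (Finset.card_le_card hsub).trans (Finset.card_image_le.trans ?_)
    rw [Finset.card_erase_of_mem (Finset.mem_filter.2 ⟨hL, hLm⟩)]
    omega
  · unfold dS
    refine (Finset.card_union_le _ _).trans ?_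
    have := Finset.card_image_le (s := S1) (f := dbl d)
    omega
  · have e1 : df T d e S1 f1 j1 = f j0 := by
      unfold df
      rw [if_pos hj1S, if_neg hd', mul_one]
      simp [hf1, hj1]
    rw [e1]
    exact h0

theorem pet {A B : ℕ → ℕ → ℤ} {q : ℕ → ℕ} (hloc : Loc A B q) (hdens : Dens B) :
    ∀ D r c : ℕ, PP.{u} A B D r c := by
  classical
  intro D
  induction D with
  | zero =>
    intro r c
    refine ⟨0, fun X _ μ _ T hT S f j0 m hf hj0 hm hD _ _ _ => ?_⟩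
    exfalso
    have : j0.1 ∈ (S.image Prod.fst).erase m :=
      Finset.mem_erase.2 ⟨hm.symm, Finset.mem_image.2 ⟨j0, hj0, rfl⟩⟩
    have := Finset.card_pos.2 ⟨_, this⟩
    omega
  | succ D ihD =>
    intro r
    induction r with
    | zero =>
      intro c
      obtain ⟨k1, hk1⟩ := ihD c c
      refine ⟨max k1 c, fun X _ μ _ T hT S f j0 m hf hj0 hm hD hr hc h0 => ?_⟩
      have hmn : m ∉ S.image Prod.fst := by
        intro h
        obtain ⟨s, hs, hsm⟩ := Finset.mem_image.1 h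
        have : s ∈ S.filter (fun s => s.1 = m) := Finset.mem_filter.2 ⟨hs, hsm⟩
        have := Finset.card_pos.2 ⟨_, this⟩
        omega
      by_cases hall : ∀ s ∈ S, s.1 = j0.1
      · exact pet_base hT hdens (c := c) (by omega) hj0 hall hf
          (hostKra_eq_zero_of_le hT (hf j0) (le_max_right _ _) h0)
      · push_neg at hall
        obtain ⟨s1, hs1, hs1n⟩ := hall
        refine hk1 X μ T hT S f j0 s1.1 hf hj0 hs1n ?_ ?_ hc
          (hostKra_eq_zero_of_le hT (hf j0) (le_max_left _ _) h0)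
        · rw [Finset.erase_eq_of_notMem hmn] at hD
          rw [Finset.card_erase_of_mem (Finset.mem_image.2 ⟨s1, hs1, rfl⟩)]
          omega
        · exact (Finset.card_filter_le _ _).trans hc
    | succ r ihr =>
      intro c
      obtain ⟨k1, hk1⟩ := ihr c
      obtain ⟨k2, hk2⟩ := ihr (2 * c)
      refine ⟨max k1 k2, fun X _ μ _ T hT S f j0 m hf hj0 hm hD hr hc h0 => ?_⟩
      by_cases hr' : (S.filter (fun s => s.1 = m)).card ≤ r
      · exact hk1 X μ T hT S f j0 m hf hj0 hm hD hr' hc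
          (hostKra_eq_zero_of_le hT (hf j0) (le_max_left _ _) h0)
      · obtain ⟨L, hL⟩ : (S.filter (fun s => s.1 = m)).Nonempty :=
          Finset.card_pos.1 (by omega)
        rw [Finset.mem_filter] at hL
        exact pet_step hloc hT (c := c) (k := k2) (fun S f j0 m => hk2 X μ T hT S f j0 m)
          S f j0 m hf hj0 hm hD hr hL.1 hL.2 hc
          (hostKra_eq_zero_of_le hT (hf j0) (le_max_right _ _) h0)

end Pool.Agent.H62.NSin
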