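import Pool.Agent.H62.NSin.Dens2
import Pool.Agent.H62.NSin.Pet

/-!
The density property, final form.
-/

namespace Pool.Agent.H62.NSin

open Filter Finset Topology Real

theorem BB_natAbs_le (N n : ℕ) (hn : n ≤ N) : (BB N n).natAbs ≤ ⌈WW N⌉₊ := by
  have h1 : |c1 N n| ≤ WW N := by
    unfold c1 WW
    refine (abs_add_le _ _).trans ?_
    rw [abs_mul, abs_mul, abs_mul, Nat.abs_cast, Nat.abs_cast]
    have h2 := Real.abs_sin_le_one n
    have h3 := Real.abs_cos_le_one n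
    have hn' : (n : ℝ) ≤ N := by exact_mod_cast hn
    have h4 : (qq N : ℝ) * |Real.sin n| ≤ qq N * 1 := by gcongr
    have h5 : (n : ℝ) * |dd N| * |Real.cos n| ≤ N * |dd N| * 1 := by gcongr
    linarith
  rw [abs_le] at h1
  have h6 : WW N ≤ (⌈WW N⌉₊ : ℝ) := Nat.le_ceil _
  have h7 : (BB N n : ℝ) ≤ ⌈WW N⌉₊ := (Int.floor_le _).trans (h1.2.trans h6)
  have h8 : -(⌈WW N⌉₊ : ℤ) ≤ BB N n := by
    unfold BB
    rw [Int.le_floor]
    push_cast
    linarith [h1.1]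
  have h9 : BB N n ≤ (⌈WW N⌉₊ : ℤ) := by exact_mod_cast h7
  omega

theorem good_sum {N M : ℕ} (hN : 0 < N) (hM : 0 < M) (hMN : M ≤ N)
    (hsep : ∀ m, 0 < m → m < M → 1 / (2 * (M : ℝ)) ≤ nd m) (hW : WW N ≤ 15 * M)
    (hMd : M * |dd N| ≤ 10) {κ : ℝ} (hκ : 0 < κ) (Φ : ℤ → ℝ) (h0 : ∀ β, 0 ≤ Φ β)
    (h1 : ∀ β, Φ β ≤ 1) :
    ∑ n ∈ good N M κ, Φ (BB N n) ≤
      2 * ((4 * π / κ + 1) * (44 / (κ ^ 2 * π) + 15)) * (N / WW N) *
      (2 + (∑ m ∈ Icc 1 ⌈WW N⌉₊, Φ m + ∑ m ∈ Icc 1 ⌈WW N⌉₊, Φ (-(m : ℤ)))) := by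
  classical
  set G : ℝ := 2 * ((4 * π / κ + 1) * (44 / (κ ^ 2 * π) + 15)) * (N / WW N) with hG
  have hG0 : 0 ≤ G := by
    have := WW_pos hN
    have hpi := Real.pi_pos
    have : 0 < WW N := by linarith
    positivity
  have hcount : ∀ β : ℤ, (((good N M κ).filter (fun n => BB N n = β)).card : ℝ) ≤ G :=
    fun β => good_count hN hM hMN hsep hW hMd hκ β
  have hfib : ∀ β : ℤ, ∑ n ∈ (good N M κ).filter (fun n => BB N n = β), Φ (BB N n) ≤ G * Φ β := by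
    intro β
    have : ∑ n ∈ (good N M κ).filter (fun n => BB N n = β), Φ (BB N n)
        = ∑ n ∈ (good N M κ).filter (fun n => BB N n = β), Φ β :=
      Finset.sum_congr rfl fun n hn => by rw [(Finset.mem_filter.1 hn).2]
    rw [this, Finset.sum_const, nsmul_eq_mul]
    exact mul_le_mul_of_nonneg_right (hcount β) (h0 β)
  have hmaps : ∀ n ∈ good N M κ, (BB N n).natAbs ∈ range (⌈WW N⌉₊ + 1) := by
    intro n hn
    rw [Finset.mem_range, Nat.lt_add_one_iff]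
    simp only [good, Finset.mem_filter, Finset.mem_Icc] at hn
    exact BB_natAbs_le N n hn.1.2
  rw [← Finset.sum_fiberwise_of_maps_to hmaps]
  have hm : ∀ m : ℕ, ∑ n ∈ (good N M κ).filter (fun n => (BB N n).natAbs = m), Φ (BB N n)
      ≤ G * (Φ m + Φ (-(m : ℤ))) := by
    intro m
    have hsub : (good N M κ).filter (fun n => (BB N n).natAbs = m) ⊆
        ((good N M κ).filter (fun n => BB N n = (m : ℤ))) ∪
        ((good N M κ).filter (fun n => BB N n = -(m : ℤ))) := by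
      intro n hn
      rw [Finset.mem_filter] at hn
      rw [Finset.mem_union, Finset.mem_filter, Finset.mem_filter]
      rcases Int.natAbs_eq (BB N n) with h | h
      · left; refine ⟨hn.1, ?_⟩; rw [h, hn.2]
      · right; refine ⟨hn.1, ?_⟩; rw [h, hn.2]
    refine (Finset.sum_le_sum_of_subset_of_nonneg hsub fun n _ _ => h0 _).trans ?_
    refine (?_ : _ ≤ ∑ n ∈ (good N M κ).filter (fun n => BB N n = (m : ℤ)), Φ (BB N n) +
      ∑ n ∈ (good N M κ).filter (fun n => BB N n = -(m : ℤ)), Φ (BB N n)).trans ?_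
    · rw [← Finset.sum_union_inter]
      have : 0 ≤ ∑ n ∈ (good N M κ).filter (fun n => BB N n = (m : ℤ)) ∩
        (good N M κ).filter (fun n => BB N n = -(m : ℤ)), Φ (BB N n) :=
        Finset.sum_nonneg fun n _ => h0 _
      linarith
    · rw [mul_add]
      exact add_le_add (hfib _) (hfib _)
  refine (Finset.sum_le_sum fun m _ => hm m).trans ?_
  rw [← Finset.mul_sum]
  refine mul_le_mul_of_nonneg_left ?_ hG0
  have hr : range (⌈WW N⌉₊ + 1) = insert 0 (Icc 1 ⌈WW N⌉₊) := by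
    ext m
    simp only [Finset.mem_range, Finset.mem_insert, Finset.mem_Icc]
    omega
  rw [hr, Finset.sum_insert (by simp), Finset.sum_add_distrib]
  have := h1 0
  simp only [Nat.cast_zero, neg_zero]
  linarith

theorem ceil_WW_tendsto : Tendsto (fun N => ⌈WW N⌉₊) atTop atTop := by
  refine Filter.tendsto_atTop_mono (fun N => ?_) qq_tendsto
  have h1 : (qq N : ℝ) ≤ WW N := by
    unfold WW
    have : (0 : ℝ) ≤ N * |dd N| := by positivity
    linarith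
  have h2 : (qq N : ℝ) ≤ ⌈WW N⌉₊ := h1.trans (Nat.le_ceil _)
  exact_mod_cast h2

/-- The linear coefficient of the local expansion has bounded density at its own scale. -/
theorem dens : Dens BB := by
  classical
  intro Φ h0 h1 ha hb
  have hpi := Real.pi_pos
  have hL := ceil_WW_tendsto
  have ha' := ha.comp hL
  have hb' := hb.comp hL
  have hq : Tendsto (fun N => 1 / (qq N : ℝ)) atTop (𝓝 0) := by
    have := tendsto_one_div_atTop_nhds_zero_nat (𝕜 := ℝ)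
    exact this.comp qq_tendsto
  rw [Metric.tendsto_atTop]
  intro ε hε
  set κ : ℝ := min (1 / 2) (ε / 652) with hκd
  have hκ : 0 < κ := lt_min (by norm_num) (by positivity)
  have hκ2 : κ ≤ 1 / 2 := min_le_left _ _
  have hκ3 : 163 * κ ≤ ε / 4 := by
    have := min_le_right (1 / 2) (ε / 652)
    rw [← hκd] at this
    linarith
  set C : ℝ := 2 * ((4 * π / κ + 1) * (44 / (κ ^ 2 * π) + 15)) with hC
  have hC0 : 0 < C := by positivity
  have hlim : Tendsto (fun N => 820 * (1 / (qq N : ℝ)) + C * (2 * (1 / (qq N : ℝ)) + 2 *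
      ((1 / ((⌈WW N⌉₊ : ℕ) : ℝ)) * ∑ m ∈ Icc 1 ⌈WW N⌉₊, Φ m +
      (1 / ((⌈WW N⌉₊ : ℕ) : ℝ)) * ∑ m ∈ Icc 1 ⌈WW N⌉₊, Φ (-(m : ℤ))))) atTop (𝓝 0) := by
    have := (hq.const_mul 820).add (((hq.const_mul 2).add ((ha'.add hb').const_mul 2)).const_mul C)
    simpa using this
  have hev := hlim.eventually (gt_mem_nhds (show (0 : ℝ) < ε / 2 by positivity))
  obtain ⟨N0, hN0⟩ := Filter.eventually_atTop.1 hev
  refine ⟨max N0 1, fun N hN => ?_⟩
  have hN1 : N0 ≤ N := (le_max_left _ _).trans hN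
  have hN2 : 0 < N := (le_max_right N0 1).trans hN
  have hNr : (0 : ℝ) < N := by exact_mod_cast hN2
  have hq0 := (qq_mem hN2).1
  have hqr : (0 : ℝ) < qq N := by exact_mod_cast hq0
  obtain ⟨M, hM, hMN, hsep, hW, hMd⟩ := exists_window hN2
  have hWW := WW_pos hN2
  have hWp : 0 < WW N := by linarith
  have e1 : ∑ n ∈ Icc 1 N, Φ (BB N n) = ∑ n ∈ Icc 1 N \ good N M κ, Φ (BB N n)
      + ∑ n ∈ good N M κ, Φ (BB N n) := by
    rw [Finset.sum_sdiff]
    exact Finset.filter_subset _ _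
  have e2 : ∑ n ∈ Icc 1 N \ good N M κ, Φ (BB N n) ≤ 163 * κ * N + 820 * N / qq N := by
    refine le_trans ?_ (bad_count hN2 hM hMN hsep hW hMd hκ hκ2)
    calc ∑ n ∈ Icc 1 N \ good N M κ, Φ (BB N n) ≤ ∑ n ∈ Icc 1 N \ good N M κ, (1 : ℝ) :=
          Finset.sum_le_sum fun n _ => h1 _
      _ = _ := by simp
  have e3 := good_sum hN2 hM hMN hsep hW hMd hκ Φ h0 h1
  rw [← hC] at e3
  set SA := ∑ m ∈ Icc 1 ⌈WW N⌉₊, Φ m with hSA
  set SB := ∑ m ∈ Icc 1 ⌈WW N⌉₊, Φ (-(m : ℤ)) with hSB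
  have hSA0 : 0 ≤ SA := Finset.sum_nonneg fun m _ => h0 _
  have hSB0 : 0 ≤ SB := Finset.sum_nonneg fun m _ => h0 _
  have h5 := hN0 N hN1
  have hLp : (0 : ℝ) < (⌈WW N⌉₊ : ℝ) := lt_of_lt_of_le hWp (Nat.le_ceil _)
  have hLW : (⌈WW N⌉₊ : ℝ) ≤ 2 * WW N := by
    have := (Nat.ceil_lt_add_one hWp.le).le
    linarith
  have hqW : (qq N : ℝ) ≤ WW N := by
    unfold WW
    have : (0 : ℝ) ≤ N * |dd N| := by positivity
    linarith
  have hnn : 0 ≤ (1 / (N : ℝ)) * ∑ n ∈ Icc 1 N, Φ (BB N n) :=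
    mul_nonneg (by positivity) (Finset.sum_nonneg fun n _ => h0 _)
  rw [Real.dist_eq, sub_zero, abs_of_nonneg hnn, e1]
  have e4 : (1 / (N : ℝ)) * (163 * κ * N + 820 * N / qq N) = 163 * κ + 820 * (1 / qq N) := by
    field_simp
  have e5 : (1 / (N : ℝ)) * (C * (N / WW N) * (2 + (SA + SB)))
      = C * (2 * (1 / WW N) + (1 / WW N) * (SA + SB)) := by
    field_simp
  have h6 : (1 / (N : ℝ)) * (∑ n ∈ Icc 1 N \ good N M κ, Φ (BB N n)
      + ∑ n ∈ good N M κ, Φ (BB N n)) ≤ (163 * κ + 820 * (1 / qq N)) +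
      C * (2 * (1 / WW N) + (1 / WW N) * (SA + SB)) := by
    rw [← e4, ← e5, ← mul_add]
    gcongr
  refine lt_of_le_of_lt h6 ?_
  have h7 : 1 / WW N ≤ 1 / (qq N : ℝ) := one_div_le_one_div_of_le hqr hqW
  have h8 : 1 / WW N ≤ 2 * (1 / (⌈WW N⌉₊ : ℝ)) := by
    rw [mul_one_div, div_le_div_iff₀ hWp hLp]
    linarith
  have h9 : C * (2 * (1 / WW N) + (1 / WW N) * (SA + SB)) ≤
      C * (2 * (1 / (qq N : ℝ)) + (2 * (1 / (⌈WW N⌉₊ : ℝ))) * (SA + SB)) := by gcongr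
  have h10 : C * (2 * (1 / (qq N : ℝ)) + (2 * (1 / (⌈WW N⌉₊ : ℝ))) * (SA + SB)) =
      C * (2 * (1 / (qq N : ℝ)) + 2 * ((1 / (⌈WW N⌉₊ : ℝ)) * SA + (1 / (⌈WW N⌉₊ : ℝ)) * SB)) := by
    ring
  linarith

end Pool.Agent.H62.NSin
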