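import Pool.Agent.H62.NSin.Local
import Pool.Agent.H62.NSin.Pet

/-!
The linear coefficient of the local expansion of `⌊n sin n⌋` has bounded density at its scale.
-/

namespace Pool.Agent.H62.NSin

open Filter Finset Topology Real

/-- Separated points in an interval. -/
theorem sep_count (E : Finset ℕ) (θ : ℕ → ℝ) {σ η : ℝ} (hσ : 0 < σ) (hη : 0 ≤ η)
    (h1 : ∀ n ∈ E, ∀ n' ∈ E, n ≠ n' → σ ≤ |θ n - θ n'|)
    (h2 : ∀ n ∈ E, ∀ n' ∈ E, |θ n - θ n'| ≤ η) : (E.card : ℝ) ≤ η / σ + 1 := by
  rcases E.eq_empty_or_nonempty with rfl | hE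
  · simp; positivity
  obtain ⟨n0, hn0, hmin⟩ := Finset.exists_min_image E θ hE
  have hinj : Set.InjOn (fun n => ⌊(θ n - θ n0) / σ⌋₊) (E : Set ℕ) := by
    intro n hn n' hn' heq
    by_contra hne
    have h3 := h1 n hn n' hn' hne
    have h4 : 0 ≤ (θ n - θ n0) / σ := div_nonneg (by linarith [hmin n hn]) hσ.le
    have h5 : 0 ≤ (θ n' - θ n0) / σ := div_nonneg (by linarith [hmin n' hn']) hσ.le
    have h6 := Nat.floor_le h4
    have h7 := Nat.lt_floor_add_one ((θ n - θ n0) / σ)
    have h8 := Nat.floor_le h5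
    have h9 := Nat.lt_floor_add_one ((θ n' - θ n0) / σ)
    simp only at heq
    rw [heq] at h6 h7
    have h10 : |(θ n - θ n') / σ| < 1 := by
      have : (θ n - θ n') / σ = (θ n - θ n0) / σ - (θ n' - θ n0) / σ := by ring
      rw [this, abs_lt]
      constructor <;> linarith
    rw [abs_div, abs_of_pos hσ, div_lt_one hσ] at h10
    linarith
  have hsub : E.image (fun n => ⌊(θ n - θ n0) / σ⌋₊) ⊆ range (⌊η / σ⌋₊ + 1) := by
    intro k hk
    obtain ⟨n, hn, rfl⟩ := Finset.mem_image.1 hk
    rw [Finset.mem_range, Nat.lt_add_one_iff]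
    apply Nat.floor_le_floor
    gcongr
    exact (le_abs_self _).trans (h2 n hn n0 hn0)
  have hcard := Finset.card_le_card hsub
  rw [Finset.card_image_of_injOn hinj, Finset.card_range] at hcard
  calc (E.card : ℝ) ≤ ((⌊η / σ⌋₊ + 1 : ℕ) : ℝ) := by exact_mod_cast hcard
    _ ≤ η / σ + 1 := by
        push_cast
        have := Nat.floor_le (show 0 ≤ η / σ by positivity)
        linarith

/-- `n` modulo `2π`. -/
noncomputable def th (n : ℕ) : ℝ := n - 2 * π * ⌊(n : ℝ) * xi⌋

theorem th_nonneg (n : ℕ) : 0 ≤ th n := by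
  unfold th
  have hpi := Real.pi_pos
  have h := Int.floor_le ((n : ℝ) * xi)
  have : (n : ℝ) = 2 * π * (n * xi) := by unfold xi; field_simp
  nlinarith

theorem th_lt (n : ℕ) : th n < 2 * π := by
  unfold th
  have hpi := Real.pi_pos
  have h := Int.lt_floor_add_one ((n : ℝ) * xi)
  have : (n : ℝ) = 2 * π * (n * xi) := by unfold xi; field_simp
  nlinarith

theorem sin_th (n : ℕ) : Real.sin (th n) = Real.sin n := by
  unfold th
  rw [show (n : ℝ) - 2 * π * ⌊(n : ℝ) * xi⌋ = n - ⌊(n : ℝ) * xi⌋ * (2 * π) by ring,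
    Real.sin_sub_int_mul_two_pi]

theorem cos_th (n : ℕ) : Real.cos (th n) = Real.cos n := by
  unfold th
  rw [show (n : ℝ) - 2 * π * ⌊(n : ℝ) * xi⌋ = n - ⌊(n : ℝ) * xi⌋ * (2 * π) by ring,
    Real.cos_sub_int_mul_two_pi]

theorem th_sep_aux {n n' : ℕ} (h : n' < n) : 2 * π * nd (n - n') ≤ |th n - th n'| := by
  have hpi := Real.pi_pos
  unfold th
  have e : (n : ℝ) - 2 * π * ⌊(n : ℝ) * xi⌋ - (n' - 2 * π * ⌊(n' : ℝ) * xi⌋)
      = 2 * π * (((n - n' : ℕ) : ℝ) * xi - ((⌊(n : ℝ) * xi⌋ - ⌊(n' : ℝ) * xi⌋ : ℤ) : ℝ)) := by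
    rw [Nat.cast_sub h.le]
    push_cast
    unfold xi
    field_simp
    ring
  rw [e, abs_mul, abs_of_pos (by positivity : (0 : ℝ) < 2 * π)]
  gcongr
  exact nd_le _ _

theorem th_sep {M : ℕ} (hM : 0 < M) (hsep : ∀ m, 0 < m → m < M → 1 / (2 * (M : ℝ)) ≤ nd m)
    {n n' : ℕ} (hne : n ≠ n') (h1 : n < n' + M) (h2 : n' < n + M) :
    π / M ≤ |th n - th n'| := by
  have hpi := Real.pi_pos
  have hMr : (0 : ℝ) < M := by exact_mod_cast hM
  rcases lt_or_gt_of_ne hne with h | h
  · have h3 := th_sep_aux h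
    rw [abs_sub_comm] at h3
    have h4 := hsep (n' - n) (by omega) (by omega)
    calc π / M = 2 * π * (1 / (2 * (M : ℝ))) := by field_simp
      _ ≤ 2 * π * nd (n' - n) := by gcongr
      _ ≤ _ := h3
  · have h3 := th_sep_aux h
    have h4 := hsep (n - n') (by omega) (by omega)
    calc π / M = 2 * π * (1 / (2 * (M : ℝ))) := by field_simp
      _ ≤ 2 * π * nd (n - n') := by gcongr
      _ ≤ _ := h3

/-- A sinusoid with derivative at least `ρ R` at `x` is expanding near `x`. -/
theorem sinusoid (a b ρ x y : ℝ) (hρ : 0 < ρ) (hxy : |x - y| ≤ ρ / 2)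
    (hx : ρ * (|a| + |b|) ≤ |a * Real.cos x - b * Real.sin x|) :
    ρ * (|a| + |b|) / 2 * |x - y|
      ≤ |(a * Real.sin x + b * Real.cos x) - (a * Real.sin y + b * Real.cos y)| := by
  -- derivative bound on the segment
  have hder : ∀ t, HasDerivAt (fun t => a * Real.sin t + b * Real.cos t)
      (a * Real.cos t - b * Real.sin t) t := by
    intro t
    have h1 := (Real.hasDerivAt_sin t).const_mul a
    have h2 := (Real.hasDerivAt_cos t).const_mul b
    exact (h1.add h2).congr_deriv (by ring)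
  have hclose : ∀ t, |t - x| ≤ |x - y| →
      ρ * (|a| + |b|) / 2 ≤ |a * Real.cos t - b * Real.sin t| := by
    intro t ht
    have h1 := Real.abs_cos_sub_cos_le t x
    have h2 := Real.abs_sin_sub_sin_le t x
    have h3 : |(a * Real.cos x - b * Real.sin x) - (a * Real.cos t - b * Real.sin t)|
        ≤ (|a| + |b|) * (ρ / 2) := by
      have e : (a * Real.cos x - b * Real.sin x) - (a * Real.cos t - b * Real.sin t)
          = (-a) * (Real.cos t - Real.cos x) + b * (Real.sin t - Real.sin x) := by ring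
      rw [e]
      refine (abs_add_le _ _).trans ?_
      rw [abs_mul, abs_mul, abs_neg]
      have h4 : |t - x| ≤ ρ / 2 := ht.trans hxy
      calc |a| * |Real.cos t - Real.cos x| + |b| * |Real.sin t - Real.sin x|
          ≤ |a| * (ρ / 2) + |b| * (ρ / 2) := by
            gcongr
            · exact h1.trans h4
            · exact h2.trans h4
        _ = _ := by ring
    have h5 := abs_sub_abs_le_abs_sub (a * Real.cos x - b * Real.sin x)
      (a * Real.cos t - b * Real.sin t)
    linarith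
  rcases lt_trichotomy x y with h | h | h
  · obtain ⟨t, ht, hteq⟩ := exists_hasDerivAt_eq_slope
      (fun t => a * Real.sin t + b * Real.cos t) _ h
      (by fun_prop) (fun t _ => hder t)
    have ht' : |t - x| ≤ |x - y| := by
      rw [abs_of_pos (by linarith [ht.1]), abs_of_neg (by linarith)]
      linarith [ht.2]
    have h6 := hclose t ht'
    rw [hteq, abs_div, abs_of_pos (show 0 < y - x by linarith),
      le_div_iff₀ (by linarith)] at h6
    rw [abs_of_neg (show x - y < 0 by linarith), abs_sub_comm]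
    linarith
  · subst h; simp
  · obtain ⟨t, ht, hteq⟩ := exists_hasDerivAt_eq_slope
      (fun t => a * Real.sin t + b * Real.cos t) _ h
      (by fun_prop) (fun t _ => hder t)
    have ht' : |t - x| ≤ |x - y| := by
      rw [abs_of_neg (by linarith [ht.2]), abs_of_pos (by linarith)]
      linarith [ht.1]
    have h6 := hclose t ht'
    rw [hteq, abs_div, abs_of_pos (show 0 < x - y by linarith),
      le_div_iff₀ (by linarith)] at h6
    rw [abs_of_pos (show 0 < x - y by linarith)]
    linarith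

/-- Counting lemma in one window. -/
theorem window_count {M : ℕ} (hM : 0 < M)
    (hsep : ∀ m, 0 < m → m < M → 1 / (2 * (M : ℝ)) ≤ nd m) (a b u s ρ : ℝ)
    (hρ : 0 < ρ) (hR : 0 < |a| + |b|) (hs : 0 ≤ s) (E : Finset ℕ) (j : ℕ)
    (hEj : ∀ n ∈ E, n / M = j)
    (h1 : ∀ n ∈ E, |a * Real.sin n + b * Real.cos n - u| ≤ s)
    (h2 : ∀ n ∈ E, ρ * (|a| + |b|) ≤ |a * Real.cos n - b * Real.sin n|) :
    (E.card : ℝ) ≤ (4 * π / ρ + 1) * (4 * s * M / (ρ * (|a| + |b|) * π) + 1) := by
  have hpi := Real.pi_pos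
  have hMr : (0 : ℝ) < M := by exact_mod_cast hM
  set K : ℕ := ⌊4 * π / ρ⌋₊ + 1 with hK
  set i : ℕ → ℕ := fun n => ⌊th n / (ρ / 2)⌋₊ with hi
  have hmaps : ∀ n ∈ E, i n ∈ range K := by
    intro n _
    rw [Finset.mem_range, hK, Nat.lt_add_one_iff]
    apply Nat.floor_le_floor
    rw [div_le_div_iff₀ (by positivity) hρ]
    have := th_lt n
    nlinarith
  rw [Finset.card_eq_sum_card_fiberwise hmaps]
  push_cast
  have hfib : ∀ k ∈ range K, ((E.filter (fun n => i n = k)).card : ℝ)
      ≤ 4 * s * M / (ρ * (|a| + |b|) * π) + 1 := by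
    intro k _
    have e : 4 * s * M / (ρ * (|a| + |b|) * π) = (4 * s / (ρ * (|a| + |b|))) / (π / M) := by
      field_simp
    rw [e]
    refine sep_count _ th (by positivity) (by positivity) ?_ ?_
    · intro n hn n' hn' hne
      rw [Finset.mem_filter] at hn hn'
      have h3 := hEj n hn.1
      have h4 := hEj n' hn'.1
      have h5 := Nat.div_add_mod n M
      have h6 := Nat.div_add_mod n' M
      have h7 := Nat.mod_lt n hM
      have h8 := Nat.mod_lt n' hM
      rw [h3] at h5
      rw [h4] at h6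
      exact th_sep hM hsep hne (by omega) (by omega)
    · intro n hn n' hn'
      rw [Finset.mem_filter] at hn hn'
      have hxy : |th n - th n'| ≤ ρ / 2 := by
        have h3 : 0 ≤ th n / (ρ / 2) := div_nonneg (th_nonneg n) (by positivity)
        have h4 : 0 ≤ th n' / (ρ / 2) := div_nonneg (th_nonneg n') (by positivity)
        have h6 := Nat.floor_le h3
        have h7 := Nat.lt_floor_add_one (th n / (ρ / 2))
        have h8 := Nat.floor_le h4
        have h9 := Nat.lt_floor_add_one (th n' / (ρ / 2))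
        have h10 : i n = i n' := hn.2.trans hn'.2.symm
        simp only [hi] at h10
        rw [h10] at h6 h7
        have h11 : |(th n - th n') / (ρ / 2)| < 1 := by
          have : (th n - th n') / (ρ / 2) = th n / (ρ / 2) - th n' / (ρ / 2) := by ring
          rw [this, abs_lt]
          constructor <;> linarith
        rw [abs_div, abs_of_pos (by positivity : (0 : ℝ) < ρ / 2),
          div_lt_one (by positivity)] at h11
        exact h11.le
      have h3 := sinusoid a b ρ (th n) (th n') hρ hxy (by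
        rw [sin_th, cos_th]; exact h2 n hn.1)
      rw [sin_th, cos_th, sin_th, cos_th] at h3
      have h4 : |(a * Real.sin n + b * Real.cos n) - (a * Real.sin n' + b * Real.cos n')|
          ≤ 2 * s := by
        have e2 : (a * Real.sin n + b * Real.cos n) - (a * Real.sin n' + b * Real.cos n')
            = (a * Real.sin n + b * Real.cos n - u) - (a * Real.sin n' + b * Real.cos n' - u) := by
          ring
        rw [e2]
        refine (abs_sub _ _).trans ?_
        linarith [h1 n hn.1, h1 n' hn'.1]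
      rw [le_div_iff₀ (by positivity)]
      linarith
  calc ∑ k ∈ range K, ((E.filter (fun n => i n = k)).card : ℝ)
      ≤ ∑ k ∈ range K, (4 * s * M / (ρ * (|a| + |b|) * π) + 1) := Finset.sum_le_sum hfib
    _ = K * (4 * s * M / (ρ * (|a| + |b|) * π) + 1) := by simp; ring
    _ ≤ _ := by
        gcongr
        rw [hK]
        push_cast
        have := Nat.floor_le (show 0 ≤ 4 * π / ρ by positivity)
        linarith

/-- The window length. -/
theorem exists_window {N : ℕ} (hN : 0 < N) : ∃ M : ℕ, 0 < M ∧ M ≤ N ∧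
    (∀ m, 0 < m → m < M → 1 / (2 * (M : ℝ)) ≤ nd m) ∧
    (qq N : ℝ) + N * |dd N| ≤ 15 * M ∧ M * |dd N| ≤ 10 := by
  have hpi := Real.pi_pos
  have hpi2 := Real.pi_lt_d2
  have hNr : (0 : ℝ) < N := by exact_mod_cast hN
  have hp : 0 < √(N : ℝ) := Real.sqrt_pos.2 hNr
  obtain ⟨hq0, hq1⟩ := qq_mem hN
  have hqr : (1 : ℝ) ≤ qq N := by exact_mod_cast hq0
  have hrec := qq_record hN
  have hnd := nd_pos hq0
  have hqle := qq_le hN
  by_cases hc : (N : ℝ) * nd (qq N) ≤ 1 / 2
  · refine ⟨qq N, hq0, ?_, fun m h1 h2 => sep_below hrec h1 h2, ?_, ?_⟩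
    · have h2 : √(N : ℝ) ≤ N := by
        rw [Real.sqrt_le_left hNr.le]
        have : (1 : ℝ) ≤ N := by exact_mod_cast hN
        nlinarith
      exact_mod_cast hqle.trans h2
    · rw [dd_eq]
      nlinarith
    · have := qq_mul_dd hN
      linarith
  · push_neg at hc
    set M : ℕ := ⌈1 / (2 * nd (qq N))⌉₊ with hMdef
    have hM1 : 1 / (2 * nd (qq N)) ≤ M := Nat.le_ceil _
    have hM2 : (M : ℝ) < 1 / (2 * nd (qq N)) + 1 := Nat.ceil_lt_add_one (by positivity)
    have hM0 : 0 < M := Nat.ceil_pos.2 (by positivity)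
    have hMr : (0 : ℝ) < M := by exact_mod_cast hM0
    have hM1' : 1 ≤ M * (2 * nd (qq N)) := by
      rwa [div_le_iff₀ (by positivity)] at hM1
    refine ⟨M, hM0, ?_, ?_, ?_, ?_⟩
    · refine Nat.ceil_le.2 ?_
      rw [div_le_iff₀ (by positivity)]
      nlinarith
    · intro m hm hmM
      have h1 : (m : ℝ) < 1 / (2 * nd (qq N)) := Nat.lt_ceil.1 hmM
      have h2 : (m : ℝ) * nd (qq N) < 1 / 2 := by
        rw [lt_div_iff₀ (by positivity)] at h1
        linarith
      refine le_trans ?_ (sep_above hq0 hrec hm h2)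
      rw [div_le_iff₀ (by positivity)]
      linarith
    · rw [dd_eq]
      have h3 : (qq N : ℝ) * nd (qq N) ≤ 1 := by
        calc (qq N : ℝ) * nd (qq N) ≤ √N * (1 / √N) := by gcongr
          _ = 1 := by field_simp
      have h4 : (N : ℝ) * nd (qq N) * nd (qq N) ≤ 1 := by
        calc (N : ℝ) * nd (qq N) * nd (qq N) ≤ N * (1 / √N) * (1 / √N) := by gcongr
          _ = 1 := by
              rw [mul_assoc, ← sq, div_pow, Real.sq_sqrt hNr.le]
              field_simp
      have h5 : ((qq N : ℝ) + N * (2 * π * nd (qq N))) * nd (qq N) ≤ 15 * M * nd (qq N) := by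
        nlinarith
      exact le_of_mul_le_mul_right h5 hnd
    · rw [dd_eq]
      have h6 : nd (qq N) ≤ 1 / 2 := by
        unfold nd; exact abs_sub_round _
      have h7 : (M : ℝ) * nd (qq N) ≤ 1 / 2 + nd (qq N) := by
        calc (M : ℝ) * nd (qq N) ≤ (1 / (2 * nd (qq N)) + 1) * nd (qq N) := by gcongr
          _ = _ := by field_simp
      nlinarith

end Pool.Agent.H62.NSin
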