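import Pool.Agent.H62.NSin.Dens3

/-!
Host-Kra seminorm control of the multiple averages along `⌊n sin n⌋`.
-/

namespace Pool.Agent.H62.NSin

open MeasureTheory Filter Finset Topology

universe u

theorem NC_control {A B : ℕ → ℕ → ℤ} {q : ℕ → ℕ} (hloc : Loc A B q) (hdens : Dens B) (c : ℕ) :
    ∃ k : ℕ, ∀ (X : Type u) [MeasurableSpace X] (μ : Measure X) [IsProbabilityMeasure μ]
    (T : X ≃ᵐ X), MeasurePreserving T μ μ → ∀ (S : Finset (ℤ × ℤ)) (f : ℤ × ℤ → X → ℝ)
    (j0 : ℤ × ℤ), (∀ s, BM (f s)) → j0 ∈ S → j0.1 ≠ 0 → S.card ≤ c →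
    hostKra T μ k (f j0) = 0 → NC T μ A B S f := by
  classical
  obtain ⟨k, hk⟩ := pet.{u} hloc hdens (2 * c) (2 * c) (2 * c)
  refine ⟨k, fun X _ μ _ T hT S f j0 hf hj0 hj hc h0 => ?_⟩
  have hfin : Set.Finite {d : ℕ | undbl d j0 ∈ S} := by
    refine Set.Finite.preimage (f := fun d : ℕ => undbl d j0) ?_ S.finite_toSet
    intro a _ b _ hab
    have h2 := congrArg Prod.snd hab
    simp only [undbl] at h2
    have h3 : ((a : ℤ) - b) * j0.1 = 0 := by linear_combination -h2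
    rcases mul_eq_zero.1 h3 with h4 | h4
    · have : (a : ℤ) = b := by omega
      exact_mod_cast this
    · exact absurd h4 hj
  refine NC_of_IC hloc hf hfin.toFinset fun d hd e => ?_
  have hd' : undbl d j0 ∉ S := by simpa using hd
  have hcard : (dS d S).card ≤ 2 * c := by
    unfold dS
    refine (Finset.card_union_le _ _).trans ?_
    have := Finset.card_image_le (s := S) (f := dbl d)
    omega
  refine hk X μ T hT (dS d S) (df T d e S f) j0 0 (BM_df hf) (Finset.mem_union_left _ hj0)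
    hj.symm ?_ ?_ hcard ?_
  · exact (Finset.card_erase_le.trans Finset.card_image_le).trans hcard
  · exact (Finset.card_filter_le _ _).trans hcard
  · have e1 : df T d e S f j0 = f j0 := by
      unfold df
      rw [if_pos hj0, if_neg hd', mul_one]
    rw [e1]
    exact h0

/-- Control of the weighted averages, normalised functions. -/
theorem control (ℓ : ℕ) : ∃ k : ℕ, ∀ (X : Type u) [MeasurableSpace X] (μ : Measure X)
    [IsProbabilityMeasure μ] (T : X ≃ᵐ X), MeasurePreserving T μ μ →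
    ∀ (p : Fin ℓ → ℤ), Function.Injective p → ∀ f : Fin ℓ → X → ℝ, (∀ i, BM (f i)) →
    ∀ i0, p i0 ≠ 0 → hostKra T μ k (f i0) = 0 → ∀ ε : ℝ, 0 < ε → ∀ᶠ N : ℕ in atTop,
    ∀ w : ℕ → ℝ, (∀ n, |w n| ≤ 1) →
    ∫ x, ((1 / (N : ℝ)) * ∑ n ∈ Icc 1 N, w n * ∏ i : Fin ℓ,
      f i ((T.toEquiv ^ (p i * ⌊(n : ℝ) * Real.sin (n : ℝ)⌋)) x)) ^ 2 ∂μ ≤ ε := by
  classical
  obtain ⟨k, hk⟩ := NC_control.{u} loc dens ℓ
  refine ⟨k, fun X _ μ _ T hT p hp f hf i0 hi0 h0 ε hε => ?_⟩
  set j : Fin ℓ → ℤ × ℤ := fun i => (p i, 0) with hj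
  have hjinj : Function.Injective j := fun a b hab => hp (congrArg Prod.fst hab)
  set F : ℤ × ℤ → X → ℝ := Function.extend j f (fun _ => 1) with hF
  have hFj : ∀ i, F (j i) = f i := fun i => hjinj.extend_apply _ _ i
  have hFB : ∀ s, BM (F s) := by
    intro s
    by_cases hs : ∃ i, j i = s
    · obtain ⟨i, rfl⟩ := hs
      rw [hFj]; exact hf i
    · rw [hF, Function.extend_apply' _ _ _ hs]
      exact BM.one
  set S : Finset (ℤ × ℤ) := Finset.univ.image j with hS
  have hcard : S.card ≤ ℓ := by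
    rw [hS]
    exact Finset.card_image_le.trans (by simp)
  have main := hk X μ T hT S F (j i0) hFB (Finset.mem_image_of_mem _ (Finset.mem_univ _)) hi0
    hcard (by rw [hFj]; exact h0) ε hε
  filter_upwards [main] with N hN w hw
  have e1 : ∀ n x, prd T AA BB S F N n x = ∏ i : Fin ℓ,
      f i ((T.toEquiv ^ (p i * ⌊(n : ℝ) * Real.sin (n : ℝ)⌋)) x) := by
    intro n x
    unfold prd
    rw [hS, Finset.prod_image (fun a _ b _ h => hjinj h), Finset.prod_apply]
    refine Finset.prod_congr rfl fun i _ => ?_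
    rw [hFj]
    simp [sh, ex, AA, hj]
  have := hN w hw
  simp_rw [e1] at this
  exact this

end Pool.Agent.H62.NSin
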