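import Pool.Agent.H62.NSin.Basic

/-!
Host-Kra uniformity seminorms (powers of them) and their control of averages of products along
linear exponents `l β`.
-/

namespace Pool.Agent.H62.NSin

open MeasureTheory Filter Finset Topology

variable {X : Type*} [MeasurableSpace X]

/-- `hostKra T μ k f` is the Host-Kra seminorm of order `k + 1` of `f`, raised to the power
`2 ^ (k + 1)`: for `k = 0` it is `lim_H ‖(1/H) ∑_{h ≤ H} T^h f‖²`, and
`hostKra (k+1) f = lim_H (1/H) ∑_{h ≤ H} hostKra k (f · T^h f)`. The limits exist, so that they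
may be written as upper limits. -/
noncomputable def hostKra (T : X ≃ᵐ X) (μ : Measure X) : ℕ → (X → ℝ) → ℝ
  | 0, f => limsup (fun H : ℕ => ∫ x, ((1 / (H : ℝ)) * ∑ h ∈ Icc 1 H, sh T h f x) ^ 2 ∂μ) atTop
  | k + 1, f => limsup (fun H : ℕ => (1 / (H : ℝ)) * ∑ h ∈ Icc 1 H,
      hostKra T μ k (f * sh T h f)) atTop

/-! ### Upper limits of sequences in the unit interval -/

theorem bdd_above_of {a : ℕ → ℝ} (h1 : ∀ n, a n ≤ 1) :
    IsBoundedUnder (· ≤ ·) atTop a := isBoundedUnder_of ⟨1, h1⟩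

theorem cobdd_of {a : ℕ → ℝ} (h0 : ∀ n, 0 ≤ a n) :
    IsCoboundedUnder (· ≤ ·) atTop a :=
  (isBoundedUnder_of (r := (· ≥ ·)) ⟨0, h0⟩).isCoboundedUnder_le

theorem limsup_nonneg {a : ℕ → ℝ} (h0 : ∀ n, 0 ≤ a n) (h1 : ∀ n, a n ≤ 1) :
    0 ≤ limsup a atTop :=
  le_limsup_of_frequently_le (Frequently.of_forall h0) (bdd_above_of h1)

theorem limsup_le_one {a : ℕ → ℝ} (h0 : ∀ n, 0 ≤ a n) (h1 : ∀ n, a n ≤ 1) :
    limsup a atTop ≤ 1 :=
  limsup_le_of_le (cobdd_of h0) (Eventually.of_forall h1)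

theorem le_limsup_add {a : ℕ → ℝ} (h1 : ∀ n, a n ≤ 1) {ε : ℝ} (hε : 0 < ε) :
    ∀ᶠ n in atTop, a n ≤ limsup a atTop + ε := by
  have := eventually_lt_of_limsup_lt (f := atTop) (u := a) (b := limsup a atTop + ε)
    (by linarith) (bdd_above_of h1)
  filter_upwards [this] with n hn using hn.le

theorem limsup_le_of {a : ℕ → ℝ} (h0 : ∀ n, 0 ≤ a n) {L : ℝ}
    (h : ∀ ε : ℝ, 0 < ε → ∀ᶠ n in atTop, a n ≤ L + ε) : limsup a atTop ≤ L := by
  refine le_of_forall_pos_le_add fun ε hε => ?_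
  exact limsup_le_of_le (cobdd_of h0) (h ε hε)

/-! ### Averages -/

theorem avg_nonneg (b : ℕ → ℝ) (hb : ∀ n, 0 ≤ b n) (H : ℕ) :
    0 ≤ (1 / (H : ℝ)) * ∑ h ∈ Icc 1 H, b h :=
  mul_nonneg (by positivity) (Finset.sum_nonneg fun _ _ => hb _)

theorem avg_le_one (b : ℕ → ℝ) (hb : ∀ n, b n ≤ 1) (H : ℕ) :
    (1 / (H : ℝ)) * ∑ h ∈ Icc 1 H, b h ≤ 1 := by
  rcases Nat.eq_zero_or_pos H with h0 | h0
  · subst h0; simp
  have hH : (0 : ℝ) < H := by exact_mod_cast h0
  rw [one_div, inv_mul_le_iff₀ hH, mul_one]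
  calc ∑ h ∈ Icc 1 H, b h ≤ ∑ h ∈ Icc 1 H, (1 : ℝ) := Finset.sum_le_sum fun _ _ => hb _
    _ = H := by simp

theorem BM_avg {u : ℕ → X → ℝ} (hu : ∀ n, BM (u n)) (H : ℕ) :
    BM (fun x => (1 / (H : ℝ)) * ∑ h ∈ Icc 1 H, u h x) := by
  refine ⟨(Finset.measurable_sum _ fun n _ => (hu n).1).const_mul _, fun x => ?_⟩
  rw [abs_le]
  constructor
  · have := avg_le_one (fun n => - u n x) (fun n => by
      have := (abs_le.1 ((hu n).2 x)).1; linarith) H
    rw [Finset.sum_neg_distrib] at this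
    linarith
  · exact avg_le_one (fun n => u n x) (fun n => (abs_le.1 ((hu n).2 x)).2) H

theorem BM.sq_integral_mem {f : X → ℝ} (hf : BM f) (μ : Measure X) [IsProbabilityMeasure μ] :
    0 ≤ ∫ x, (f x) ^ 2 ∂μ ∧ ∫ x, (f x) ^ 2 ∂μ ≤ 1 := by
  refine ⟨integral_nonneg fun x => sq_nonneg _, ?_⟩
  have := (hf.mul hf).abs_integral_le μ
  have h2 : ∫ x, (f x) ^ 2 ∂μ = ∫ x, (f * f) x ∂μ := by
    congr 1; funext x; simp [sq]
  rw [h2]
  exact (abs_le.1 this).2

theorem sq_integral_le {f : X → ℝ} (hf : BM f) (μ : Measure X) [IsProbabilityMeasure μ] :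
    (∫ x, f x ∂μ) ^ 2 ≤ ∫ x, (f x) ^ 2 ∂μ := by
  have := sq_integral_mul_le (μ := μ) (f := 1) (g := f) BM.one hf.1 hf.2
  simpa using this

section HK

variable {T : X ≃ᵐ X} {μ : Measure X} [IsProbabilityMeasure μ]

theorem hostKra_mem (k : ℕ) : ∀ {f : X → ℝ}, BM f →
    0 ≤ hostKra T μ k f ∧ hostKra T μ k f ≤ 1 := by
  induction k with
  | zero =>
    intro f hf
    have h : ∀ H : ℕ, 0 ≤ ∫ x, ((1 / (H : ℝ)) * ∑ h ∈ Icc 1 H, sh T h f x) ^ 2 ∂μ ∧
        ∫ x, ((1 / (H : ℝ)) * ∑ h ∈ Icc 1 H, sh T h f x) ^ 2 ∂μ ≤ 1 := fun H =>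
      (BM_avg (u := fun h => sh T h f) (fun n => hf.shift T n) H).sq_integral_mem μ
    exact ⟨limsup_nonneg (fun H => (h H).1) fun H => (h H).2,
      limsup_le_one (fun H => (h H).1) fun H => (h H).2⟩
  | succ k ih =>
    intro f hf
    have h : ∀ h : ℕ, 0 ≤ hostKra T μ k (f * sh T h f) ∧ hostKra T μ k (f * sh T h f) ≤ 1 :=
      fun h => ih (hf.mul (hf.shift T h))
    have h0 := avg_nonneg _ (fun n => (h n).1)
    have h1 := avg_le_one _ (fun n => (h n).2)
    exact ⟨limsup_nonneg h0 h1, limsup_le_one h0 h1⟩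

theorem hostKra_sh (hT : MeasurePreserving T μ μ) (k : ℕ) : ∀ {f : X → ℝ}, BM f → ∀ j : ℤ,
    hostKra T μ k (sh T j f) = hostKra T μ k f := by
  induction k with
  | zero =>
    intro f hf j
    simp only [hostKra]
    congr 1
    funext H
    have e : ∀ x, ((1 / (H : ℝ)) * ∑ h ∈ Icc 1 H, sh T h (sh T j f) x) ^ 2
        = sh T j (fun x => ((1 / (H : ℝ)) * ∑ h ∈ Icc 1 H, sh T h f x) ^ 2) x := by
      intro x
      simp only [sh]
      congr 2
      refine Finset.sum_congr rfl fun h _ => ?_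
      congr 1
      rw [← Equiv.Perm.mul_apply, ← Equiv.Perm.mul_apply, ← zpow_add, ← zpow_add, add_comm]
    simp_rw [e]
    refine integral_sh hT j ?_
    exact ((Finset.measurable_sum _ fun (n : ℕ) _ => (hf.shift T (n : ℤ)).1).const_mul _).pow_const 2
  | succ k ih =>
    intro f hf j
    simp only [hostKra]
    congr 1
    funext H
    congr 1
    refine Finset.sum_congr rfl fun h _ => ?_
    have e : sh T j f * sh T h (sh T j f) = sh T j (f * sh T h f) := by
      rw [sh_mul, sh_sh, sh_sh, add_comm]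
    rw [e, ih (hf.mul (hf.shift T h))]

theorem sq_int_le_hostKra_zero (hT : MeasurePreserving T μ μ) {f : X → ℝ} (hf : BM f) :
    (∫ x, f x ∂μ) ^ 2 ≤ hostKra T μ 0 f := by
  have h : ∀ H : ℕ, ∫ x, ((1 / (H : ℝ)) * ∑ h ∈ Icc 1 H, sh T h f x) ^ 2 ∂μ ≤ 1 := fun H =>
    ((BM_avg (u := fun h => sh T h f) (fun n => hf.shift T n) H).sq_integral_mem μ).2
  simp only [hostKra]
  refine le_limsup_of_frequently_le (Eventually.frequently ?_) (bdd_above_of h)
  filter_upwards [eventually_gt_atTop 0] with H hH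
  have hHr : (0 : ℝ) < H := by exact_mod_cast hH
  have e : ∫ x, (1 / (H : ℝ)) * ∑ h ∈ Icc 1 H, sh T h f x ∂μ = ∫ x, f x ∂μ := by
    rw [integral_const_mul,
      integral_finsetSum _ fun (n : ℕ) _ => (hf.shift T (n : ℤ)).integrable μ]
    rw [Finset.sum_congr rfl fun (n : ℕ) _ => integral_sh hT (n : ℤ) hf.1]
    simp
    field_simp
  rw [← e]
  exact sq_integral_le (BM_avg (u := fun h => sh T h f) (fun n => hf.shift T n) H) μ

/-- Correlations `∫ f T^h f`. -/
noncomputable def autoc (T : X ≃ᵐ X) (μ : Measure X) (f : X → ℝ) (h : ℕ) : ℝ :=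
  ∫ x, (f * sh T h f) x ∂μ

theorem autoc_le {f : X → ℝ} (hf : BM f) (h : ℕ) : |autoc T μ f h| ≤ 1 :=
  (hf.mul (hf.shift T h)).abs_integral_le μ

theorem sq_avg_eq (hT : MeasurePreserving T μ μ) {f : X → ℝ} (hf : BM f) (H : ℕ) :
    ∫ x, (∑ h ∈ range H, sh T h f x) ^ 2 ∂μ
      = ∑ h ∈ range H, ∑ h' ∈ range H, autoc T μ f (max h h' - min h h') := by
  have e1 : ∀ x, (∑ h ∈ range H, sh T h f x) ^ 2
      = ∑ h ∈ range H, ∑ h' ∈ range H, sh T h f x * sh T h' f x := by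
    intro x; rw [sq, Finset.sum_mul_sum]
  simp_rw [e1]
  have ii : ∀ h h' : ℕ, Integrable (fun x => sh T h f x * sh T h' f x) μ := fun h h' =>
    ((hf.shift T h).mul (hf.shift T h')).integrable μ
  rw [integral_finsetSum _ fun h _ => integrable_finsetSum _ fun h' _ => ii h h']
  refine Finset.sum_congr rfl fun h _ => ?_
  rw [integral_finsetSum _ fun h' _ => ii h h']
  refine Finset.sum_congr rfl fun h' _ => ?_
  unfold autoc
  have key : ∀ a b : ℕ, a ≤ b → ∫ x, sh T a f x * sh T b f x ∂μ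
      = ∫ x, (f * sh T ((b - a : ℕ) : ℤ) f) x ∂μ := by
    intro a b hab
    rw [← integral_sh hT a (f := f * sh T ((b - a : ℕ) : ℤ) f)
      (hf.mul (hf.shift T _)).1]
    rw [sh_mul, sh_sh]
    have : (a : ℤ) + ((b - a : ℕ) : ℤ) = b := by omega
    rw [this]
    rfl
  rcases le_total h h' with hle | hle
  · rw [max_eq_right hle, min_eq_left hle]
    exact key h h' hle
  · rw [max_eq_left hle, min_eq_right hle, ← key h' h hle]
    congr 1
    funext x
    exact mul_comm _ _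

theorem sum_dist_eq (c : ℕ → ℝ) (H h : ℕ) (hh : h < H) :
    ∑ h' ∈ range H, c (max h h' - min h h')
      = ∑ d ∈ Icc 1 h, c d + (c 0 + ∑ d ∈ Icc 1 (H - 1 - h), c d) := by
  have e1 : range H = range h ∪ ({h} ∪ Ioo h H) := by
    ext x; simp only [mem_range, mem_union, mem_singleton, mem_Ioo]; omega
  have d1 : Disjoint (range h) ({h} ∪ Ioo h H) := by
    rw [Finset.disjoint_left]; intro x; simp only [mem_range, mem_union, mem_singleton, mem_Ioo]
    omega
  have d2 : Disjoint ({h} : Finset ℕ) (Ioo h H) := by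
    rw [Finset.disjoint_left]; intro x; simp only [mem_singleton, mem_Ioo]
    omega
  rw [e1, Finset.sum_union d1, Finset.sum_union d2, Finset.sum_singleton]
  have a1 : ∑ h' ∈ range h, c (max h h' - min h h') = ∑ d ∈ Icc 1 h, c d := by
    refine Finset.sum_nbij' (fun x => h - x) (fun d => h - d) ?_ ?_ ?_ ?_ ?_
    · intro x hx; simp only [mem_range, mem_Icc] at hx ⊢; omega
    · intro x hx; simp only [mem_range, mem_Icc] at hx ⊢; omega
    · intro x hx; simp only [mem_range] at hx ⊢; omega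
    · intro x hx; simp only [mem_Icc] at hx ⊢; omega
    · intro x hx
      simp only [mem_range] at hx
      rw [max_eq_left hx.le, min_eq_right hx.le]
  have a2 : ∑ h' ∈ Ioo h H, c (max h h' - min h h') = ∑ d ∈ Icc 1 (H - 1 - h), c d := by
    refine Finset.sum_nbij' (fun x => x - h) (fun d => h + d) ?_ ?_ ?_ ?_ ?_
    · intro x hx; simp only [mem_Ioo, mem_Icc] at hx ⊢; omega
    · intro x hx; simp only [mem_Ioo, mem_Icc] at hx ⊢; omega
    · intro x hx; simp only [mem_Ioo] at hx ⊢; omega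
    · intro x hx; simp only [mem_Icc] at hx ⊢; omega
    · intro x hx
      simp only [mem_Ioo] at hx
      rw [max_eq_right hx.1.le, min_eq_left hx.1.le]
  rw [a1, a2]
  simp

theorem sum_Icc_shift (u : ℕ → ℝ) (H : ℕ) : ∑ h ∈ Icc 1 H, u h = ∑ h ∈ range H, u (h + 1) := by
  refine Finset.sum_nbij' (fun x => x - 1) (fun d => d + 1) ?_ ?_ ?_ ?_ ?_
  · intro x hx; simp only [mem_range, mem_Icc] at hx ⊢; omega
  · intro x hx; simp only [mem_range, mem_Icc] at hx ⊢; omega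
  · intro x hx; simp only [mem_Icc] at hx ⊢; omega
  · intro x hx; simp
  · intro x hx
    simp only [mem_Icc] at hx
    congr 1; omega

theorem sq_avg_Icc (hT : MeasurePreserving T μ μ) {f : X → ℝ} (hf : BM f) (H : ℕ) :
    ∫ x, (∑ h ∈ Icc 1 H, sh T h f x) ^ 2 ∂μ = ∫ x, (∑ h ∈ range H, sh T h f x) ^ 2 ∂μ := by
  rw [← integral_sh hT 1 (f := fun x => (∑ h ∈ range H, sh T h f x) ^ 2)
    ((Finset.measurable_sum _ fun (n : ℕ) _ => (hf.shift T (n : ℤ)).1).pow_const 2)]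
  congr 1
  funext x
  rw [sum_Icc_shift (fun h => sh T h f x)]
  show _ = (∑ h ∈ range H, sh T h f ((T.toEquiv ^ (1 : ℤ)) x)) ^ 2
  congr 1

/-- If the Cesaro means of the correlations are eventually at most `η` in absolute value, then
the seminorm of order one is at most `η`. -/
theorem hostKra_zero_le (hT : MeasurePreserving T μ μ) {f : X → ℝ} (hf : BM f) {η : ℝ}
    (h : ∀ᶠ K : ℕ in atTop, |∑ d ∈ Icc 1 K, autoc T μ f d| ≤ K * η) :
    hostKra T μ 0 f ≤ η := by
  obtain ⟨K0, hK0⟩ := eventually_atTop.1 h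
  have hη : 0 ≤ η := by
    have := hK0 (K0 + 1) (by omega)
    have h2 : (0 : ℝ) ≤ (K0 + 1 : ℕ) * η := (abs_nonneg _).trans this
    have h3 : (0 : ℝ) < (K0 + 1 : ℕ) := by positivity
    exact nonneg_of_mul_nonneg_right h2 h3
  have hC : ∀ K : ℕ, |∑ d ∈ Icc 1 K, autoc T μ f d| ≤ K * η + K0 := by
    intro K
    rcases le_total K0 K with hK | hK
    · have := hK0 K hK
      have : (0 : ℝ) ≤ K0 := by positivity
      linarith [hK0 K hK]
    · calc |∑ d ∈ Icc 1 K, autoc T μ f d| ≤ ∑ d ∈ Icc 1 K, |autoc T μ f d| :=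
            Finset.abs_sum_le_sum_abs _ _
        _ ≤ ∑ d ∈ Icc 1 K, (1 : ℝ) := Finset.sum_le_sum fun d _ => autoc_le hf d
        _ = K := by simp
        _ ≤ K0 := by exact_mod_cast hK
        _ ≤ K * η + K0 := by
            have : (0 : ℝ) ≤ K * η := by positivity
            linarith
  have hbound : ∀ H : ℕ, ∫ x, (∑ h ∈ Icc 1 H, sh T h f x) ^ 2 ∂μ
      ≤ H * (H * η + (2 * K0 + 1)) := by
    intro H
    rw [sq_avg_Icc hT hf, sq_avg_eq hT hf]
    calc ∑ h ∈ range H, ∑ h' ∈ range H, autoc T μ f (max h h' - min h h')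
        ≤ ∑ h ∈ range H, (H * η + (2 * K0 + 1)) := by
          refine Finset.sum_le_sum fun h hh => ?_
          rw [Finset.mem_range] at hh
          rw [sum_dist_eq _ H h hh]
          have a1 := (abs_le.1 (hC h)).2
          have a2 := (abs_le.1 (hC (H - 1 - h))).2
          have a3 := (abs_le.1 (autoc_le (T := T) (μ := μ) hf 0)).2
          have a4 : ((H - 1 - h : ℕ) : ℝ) + h ≤ H := by
            have : (H - 1 - h) + h ≤ H := by omega
            exact_mod_cast this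
          have a5 : ((H - 1 - h : ℕ) : ℝ) * η + h * η ≤ H * η := by
            rw [← add_mul]; gcongr
          linarith
      _ = _ := by simp; ring
  simp only [hostKra]
  refine limsup_le_of (fun H => ?_) fun ε hε => ?_
  · exact integral_nonneg fun x => sq_nonneg _
  obtain ⟨H0, hH0⟩ := exists_nat_gt ((2 * (K0 : ℝ) + 1) / ε)
  filter_upwards [eventually_ge_atTop (max 1 H0)] with H hH
  have h1 : 1 ≤ H := (le_max_left _ _).trans hH
  have h2 : H0 ≤ H := (le_max_right _ _).trans hH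
  have hHr : (0 : ℝ) < H := by exact_mod_cast h1
  have e : ∫ x, ((1 / (H : ℝ)) * ∑ h ∈ Icc 1 H, sh T h f x) ^ 2 ∂μ
      = (1 / (H : ℝ)) ^ 2 * ∫ x, (∑ h ∈ Icc 1 H, sh T h f x) ^ 2 ∂μ := by
    rw [← integral_const_mul]
    congr 1; funext x; ring
  rw [e]
  have h3 : (2 * (K0 : ℝ) + 1) / H ≤ ε := by
    rw [div_le_iff₀ hHr]
    rw [div_lt_iff₀ hε] at hH0
    have : (H0 : ℝ) ≤ H := by exact_mod_cast h2
    nlinarith
  calc (1 / (H : ℝ)) ^ 2 * ∫ x, (∑ h ∈ Icc 1 H, sh T h f x) ^ 2 ∂μ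
      ≤ (1 / (H : ℝ)) ^ 2 * (H * (H * η + (2 * K0 + 1))) := by
        gcongr
        exact hbound H
    _ = η + (2 * (K0 : ℝ) + 1) / H := by field_simp
    _ ≤ η + ε := by linarith

theorem sq_avg_le (b : ℕ → ℝ) (H : ℕ) :
    ((1 / (H : ℝ)) * ∑ h ∈ Icc 1 H, b h) ^ 2 ≤ (1 / (H : ℝ)) * ∑ h ∈ Icc 1 H, (b h) ^ 2 := by
  rcases Nat.eq_zero_or_pos H with h0 | h0
  · subst h0; simp
  have hH : (0 : ℝ) < H := by exact_mod_cast h0
  have := sq_sum_le_card_mul_sum_sq (s := Icc 1 H) (f := b)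
  rw [Nat.card_Icc, Nat.add_sub_cancel] at this
  rw [mul_pow]
  calc (1 / (H : ℝ)) ^ 2 * (∑ h ∈ Icc 1 H, b h) ^ 2
      ≤ (1 / (H : ℝ)) ^ 2 * (H * ∑ h ∈ Icc 1 H, (b h) ^ 2) := by gcongr
    _ = _ := by field_simp

theorem hostKra_sq_le (hT : MeasurePreserving T μ μ) (k : ℕ) : ∀ {f : X → ℝ}, BM f →
    (hostKra T μ k f) ^ 2 ≤ hostKra T μ (k + 1) f := by
  induction k with
  | zero =>
    intro f hf
    have hm : ∀ h : ℕ, BM (f * sh T h f) := fun h => hf.mul (hf.shift T h)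
    have h1 := avg_le_one (fun h : ℕ => hostKra T μ 0 (f * sh T h f))
      (fun h => (hostKra_mem 0 (hm h)).2)
    refine le_of_forall_pos_le_add fun ε hε => ?_
    have hL : 0 ≤ hostKra T μ 1 f := (hostKra_mem 1 hf).1
    have key : hostKra T μ 0 f ≤ √(hostKra T μ 1 f + ε) := by
      refine hostKra_zero_le hT hf ?_
      have hev : ∀ᶠ H : ℕ in atTop, (1 / (H : ℝ)) * ∑ h ∈ Icc 1 H,
          hostKra T μ 0 (f * sh T h f) ≤ hostKra T μ 1 f + ε := le_limsup_add h1 hε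
      filter_upwards [hev, eventually_gt_atTop 0] with H hH hH0
      have hHr : (0 : ℝ) < H := by exact_mod_cast hH0
      have a1 : ((1 / (H : ℝ)) * ∑ h ∈ Icc 1 H, autoc T μ f h) ^ 2 ≤ hostKra T μ 1 f + ε := by
        refine (sq_avg_le _ H).trans (le_trans ?_ hH)
        refine mul_le_mul_of_nonneg_left (Finset.sum_le_sum fun h _ => ?_) (by positivity)
        exact sq_int_le_hostKra_zero hT (hm h)
      have a2 := Real.abs_le_sqrt a1
      rw [abs_mul, abs_of_nonneg (by positivity : (0 : ℝ) ≤ 1 / H), one_div,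
        inv_mul_le_iff₀ hHr] at a2
      exact a2
    have h0 := (hostKra_mem (T := T) (μ := μ) 0 hf).1
    calc (hostKra T μ 0 f) ^ 2 ≤ (√(hostKra T μ 1 f + ε)) ^ 2 := by gcongr
      _ = hostKra T μ 1 f + ε := Real.sq_sqrt (by linarith)
  | succ k ih =>
    intro f hf
    have hm : ∀ h : ℕ, BM (f * sh T h f) := fun h => hf.mul (hf.shift T h)
    have h1 := avg_le_one (fun h : ℕ => hostKra T μ (k + 1) (f * sh T h f))
      (fun h => (hostKra_mem (k + 1) (hm h)).2)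
    refine le_of_forall_pos_le_add fun ε hε => ?_
    have hL : 0 ≤ hostKra T μ (k + 2) f := (hostKra_mem (k + 2) hf).1
    have key : hostKra T μ (k + 1) f ≤ √(hostKra T μ (k + 2) f + ε) := by
      have hev : ∀ᶠ H : ℕ in atTop, (1 / (H : ℝ)) * ∑ h ∈ Icc 1 H,
          hostKra T μ (k + 1) (f * sh T h f) ≤ hostKra T μ (k + 2) f + ε := le_limsup_add h1 hε
      have hev2 : ∀ᶠ H : ℕ in atTop, (1 / (H : ℝ)) * ∑ h ∈ Icc 1 H,
          hostKra T μ k (f * sh T h f) ≤ √(hostKra T μ (k + 2) f + ε) := by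
        filter_upwards [hev] with H hH
        refine Real.le_sqrt_of_sq_le ?_
        refine (sq_avg_le _ H).trans (le_trans ?_ hH)
        exact mul_le_mul_of_nonneg_left (Finset.sum_le_sum fun h _ => ih (hm h)) (by positivity)
      show limsup _ _ ≤ _
      exact limsup_le_of (avg_nonneg _ fun h => (hostKra_mem k (hm h)).1) fun δ hδ => by
        filter_upwards [hev2] with H hH
        linarith
    have h0 := (hostKra_mem (T := T) (μ := μ) (k + 1) hf).1
    calc (hostKra T μ (k + 1) f) ^ 2 ≤ (√(hostKra T μ (k + 2) f + ε)) ^ 2 := by gcongr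
      _ = hostKra T μ (k + 2) f + ε := Real.sq_sqrt (by linarith)

theorem hostKra_eq_zero_of_le (hT : MeasurePreserving T μ μ) {f : X → ℝ} (hf : BM f)
    {k k' : ℕ} (hk : k ≤ k') (h : hostKra T μ k' f = 0) : hostKra T μ k f = 0 := by
  induction k', hk using Nat.le_induction with
  | base => exact h
  | succ m _ ih =>
    apply ih
    have := hostKra_sq_le hT m hf
    rw [h] at this
    nlinarith [sq_nonneg (hostKra T μ m f)]

end HK

end Pool.Agent.H62.NSin
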