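import Pool.Agent.H62.NSin.WM2

/-!
Homogeneity of the uniformity seminorms, and control of the averages for bounded functions.
-/

namespace Pool.Agent.H62.NSin

open MeasureTheory Filter Finset Topology

universe u

theorem limsup_const_mul {u : ℕ → ℝ} (h0 : ∀ n, 0 ≤ u n) (h1 : ∀ n, u n ≤ 1) {c : ℝ}
    (hc : 0 < c) : limsup (fun n => c * u n) atTop = c * limsup u atTop := by
  have hb : IsBoundedUnder (· ≤ ·) atTop (fun n => c * u n) :=
    isBoundedUnder_of ⟨c, fun n => by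
      have := mul_le_mul_of_nonneg_left (h1 n) hc.le
      simpa using this⟩
  have hcb : IsCoboundedUnder (· ≤ ·) atTop (fun n => c * u n) :=
    cobdd_of fun n => mul_nonneg hc.le (h0 n)
  have := OrderIso.limsup_apply (f := atTop) (u := u) (OrderIso.mulLeft₀ c hc)
    (bdd_above_of h1) (cobdd_of h0) hb hcb
  exact this.symm

section

variable {X : Type*} [MeasurableSpace X] {T : X ≃ᵐ X} {μ : Measure X} [IsProbabilityMeasure μ]

theorem hostKra_smul (k : ℕ) : ∀ {g : X → ℝ}, BM g → ∀ {c : ℝ}, 0 < c →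
    hostKra T μ k (fun x => c * g x) = c ^ (2 ^ (k + 1)) * hostKra T μ k g := by
  induction k with
  | zero =>
    intro g hg c hc
    simp only [hostKra, zero_add, pow_one]
    have h : ∀ H : ℕ, 0 ≤ ∫ x, ((1 / (H : ℝ)) * ∑ h ∈ Icc 1 H, sh T h g x) ^ 2 ∂μ ∧
        ∫ x, ((1 / (H : ℝ)) * ∑ h ∈ Icc 1 H, sh T h g x) ^ 2 ∂μ ≤ 1 := fun H =>
      (BM_avg (u := fun h => sh T h g) (fun n => hg.shift T n) H).sq_integral_mem μ
    rw [← limsup_const_mul (fun H => (h H).1) (fun H => (h H).2) (by positivity)]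
    congr 1
    funext H
    rw [← integral_const_mul]
    congr 1
    funext x
    rw [← mul_pow]
    congr 1
    have : ∀ h : ℕ, sh T h (fun x => c * g x) x = c * sh T h g x := fun h => rfl
    simp_rw [this]
    rw [← Finset.mul_sum]
    ring
  | succ k ih =>
    intro g hg c hc
    simp only [hostKra]
    have h : ∀ h : ℕ, 0 ≤ hostKra T μ k (g * sh T h g) ∧ hostKra T μ k (g * sh T h g) ≤ 1 :=
      fun h => hostKra_mem k (hg.mul (hg.shift T h))
    rw [← limsup_const_mul (avg_nonneg _ fun n => (h n).1) (avg_le_one _ fun n => (h n).2)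
      (by positivity)]
    congr 1
    funext H
    have e : ∀ j : ℕ, hostKra T μ k ((fun x => c * g x) * sh T j (fun x => c * g x))
        = c ^ (2 ^ (k + 1 + 1)) * hostKra T μ k (g * sh T j g) := by
      intro j
      have e1 : (fun x => c * g x) * sh T j (fun x => c * g x)
          = fun x => c ^ 2 * (g * sh T j g) x := by
        funext x
        simp only [Pi.mul_apply, sh]
        ring
      rw [e1, ih (hg.mul (hg.shift T j)) (by positivity), ← pow_mul]
      congr 2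
      ring
    simp_rw [e]
    rw [← Finset.mul_sum]
    ring

end

/-- Control of the weighted averages, bounded functions. -/
theorem control_bounded (ℓ : ℕ) : ∃ k : ℕ, ∀ (X : Type u) [MeasurableSpace X] (μ : Measure X)
    [IsProbabilityMeasure μ] (T : X ≃ᵐ X), MeasurePreserving T μ μ →
    ∀ (p : Fin ℓ → ℤ), Function.Injective p → ∀ f : Fin ℓ → X → ℝ, (∀ i, Measurable (f i)) →
    (∀ i, ∃ C : ℝ, ∀ x, |f i x| ≤ C) →
    ∀ i0, p i0 ≠ 0 → hostKra T μ k (f i0) = 0 → ∀ ε : ℝ, 0 < ε → ∀ᶠ N : ℕ in atTop,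
    ∀ w : ℕ → ℝ, (∀ n, |w n| ≤ 1) →
    ∫ x, ((1 / (N : ℝ)) * ∑ n ∈ Icc 1 N, w n * ∏ i : Fin ℓ,
      f i ((T.toEquiv ^ (p i * ⌊(n : ℝ) * Real.sin (n : ℝ)⌋)) x)) ^ 2 ∂μ ≤ ε := by
  classical
  obtain ⟨k, hk⟩ := control.{u} ℓ
  refine ⟨k, fun X _ μ _ T hT p hp f hf hb i0 hi0 h0 ε hε => ?_⟩
  choose C hC using hb
  set D : Fin ℓ → ℝ := fun i => max 1 (C i) with hD
  have hD1 : ∀ i, 1 ≤ D i := fun i => le_max_left _ _
  have hDC : ∀ i, C i ≤ D i := fun i => le_max_right _ _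
  have hD0 : ∀ i, 0 < D i := fun i => lt_of_lt_of_le zero_lt_one (hD1 i)
  set g : Fin ℓ → X → ℝ := fun i x => f i x / D i with hg
  have hgB : ∀ i, BM (g i) := fun i => ⟨(hf i).div_const _, fun x => by
    simp only [hg]
    rw [abs_div, abs_of_pos (hD0 i), div_le_one (hD0 i)]
    exact (hC i x).trans (hDC i)⟩
  set P : ℝ := ∏ i, D i with hP
  have hP0 : 0 < P := Finset.prod_pos fun i _ => hD0 i
  have hfg : ∀ (y : Fin ℓ → X), ∏ i, f i (y i) = P * ∏ i, g i (y i) := by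
    intro y
    rw [hP, ← Finset.prod_mul_distrib]
    refine Finset.prod_congr rfl fun i _ => ?_
    simp only [hg]
    field_simp [(hD0 i).ne']
  have h0' : hostKra T μ k (g i0) = 0 := by
    have h1 := hostKra_smul (T := T) (μ := μ) k (hgB i0) (hD0 i0)
    have h2 : (fun x => D i0 * g i0 x) = f i0 := by
      funext x
      simp only [hg]
      field_simp [(hD0 i0).ne']
    rw [h2, h0] at h1
    rcases mul_eq_zero.1 h1.symm with h3 | h3
    · exact absurd h3 (pow_ne_zero _ (hD0 i0).ne')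
    · exact h3
  filter_upwards [hk X μ T hT p hp g hgB i0 hi0 h0' (ε / P ^ 2) (by positivity)] with N hN w hw
  have e1 : ∀ x, ((1 / (N : ℝ)) * ∑ n ∈ Icc 1 N, w n * ∏ i : Fin ℓ,
      f i ((T.toEquiv ^ (p i * ⌊(n : ℝ) * Real.sin (n : ℝ)⌋)) x)) ^ 2
      = P ^ 2 * ((1 / (N : ℝ)) * ∑ n ∈ Icc 1 N, w n * ∏ i : Fin ℓ,
      g i ((T.toEquiv ^ (p i * ⌊(n : ℝ) * Real.sin (n : ℝ)⌋)) x)) ^ 2 := by
    intro x
    have e2 : ∀ n : ℕ, w n * ∏ i : Fin ℓ,
        f i ((T.toEquiv ^ (p i * ⌊(n : ℝ) * Real.sin (n : ℝ)⌋)) x)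
        = P * (w n * ∏ i : Fin ℓ,
        g i ((T.toEquiv ^ (p i * ⌊(n : ℝ) * Real.sin (n : ℝ)⌋)) x)) := by
      intro n
      rw [hfg (fun i => (T.toEquiv ^ (p i * ⌊(n : ℝ) * Real.sin (n : ℝ)⌋)) x)]
      ring
    rw [Finset.sum_congr rfl fun n _ => e2 n, ← Finset.mul_sum]
    ring
  simp_rw [e1]
  rw [integral_const_mul]
  have := mul_le_mul_of_nonneg_left (hN w hw) (by positivity : 0 ≤ P ^ 2)
  refine this.trans (le_of_eq ?_)
  field_simp

end Pool.Agent.H62.NSin
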