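import Pool.Agent.H62.NSin.Claims
import Pool.Agent.H62.NSin.Approx

/-!
Local structure of `⌊n sin n⌋` along progressions of step `qq N`.
-/

namespace Pool.Agent.H62.NSin

open Filter Finset Topology Real

/-- The sequence `⌊n sin n⌋` (the first argument is not used). -/
noncomputable def AA (_N n : ℕ) : ℤ := ⌊(n : ℝ) * Real.sin n⌋

/-- The linear coefficient of the local expansion. -/
noncomputable def c1 (N n : ℕ) : ℝ := qq N * Real.sin n + n * dd N * Real.cos n

/-- Its integer part. -/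
noncomputable def BB (N n : ℕ) : ℤ := ⌊c1 N n⌋

theorem abs_sin_sub_self_le (x : ℝ) : |Real.sin x - x| ≤ 2 * x ^ 2 := by
  rcases le_or_gt |x| 1 with h | h
  · have h1 := Real.sin_bound h
    have h2 : |Real.sin x - x| ≤ |Real.sin x - (x - x ^ 3 / 6)| + |x ^ 3 / 6| := by
      have : Real.sin x - x = (Real.sin x - (x - x ^ 3 / 6)) + (-(x ^ 3 / 6)) := by ring
      rw [this]
      refine (abs_add_le _ _).trans ?_
      rw [abs_neg]
    have h3 : |x ^ 3 / 6| ≤ x ^ 2 / 6 := by
      rw [abs_div, abs_pow, abs_of_pos (by norm_num : (0 : ℝ) < 6)]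
      have : |x| ^ 3 ≤ x ^ 2 := by
        calc |x| ^ 3 = |x| * |x| ^ 2 := by ring
          _ ≤ 1 * |x| ^ 2 := by gcongr
          _ = x ^ 2 := by rw [one_mul, sq_abs]
      linarith
    have h4 : |x| ^ 5 ≤ x ^ 2 := by
      calc |x| ^ 5 = |x| ^ 3 * |x| ^ 2 := by ring
        _ ≤ 1 * |x| ^ 2 := by
            gcongr
            exact pow_le_one₀ (abs_nonneg _) h
        _ = x ^ 2 := by rw [one_mul, sq_abs]
    nlinarith [sq_nonneg x]
  · have h1 : |Real.sin x - x| ≤ |Real.sin x| + |x| := abs_sub _ _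
    have h2 := Real.abs_sin_le_one x
    have h3 : |x| ≤ x ^ 2 := by
      rw [← sq_abs]
      nlinarith [abs_nonneg x]
    linarith

theorem abs_cos_sub_one_le (x : ℝ) : |Real.cos x - 1| ≤ x ^ 2 := by
  have h1 := Real.one_sub_sq_div_two_le_cos (x := x)
  have h2 := Real.cos_le_one x
  rw [abs_le]
  constructor <;> nlinarith [sq_nonneg x]

theorem sin_add_bound (a x : ℝ) :
    |Real.sin (a + x) - Real.sin a - x * Real.cos a| ≤ 3 * x ^ 2 := by
  have e : Real.sin (a + x) - Real.sin a - x * Real.cos a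
      = Real.sin a * (Real.cos x - 1) + Real.cos a * (Real.sin x - x) := by
    rw [Real.sin_add]; ring
  rw [e]
  refine (abs_add_le _ _).trans ?_
  rw [abs_mul, abs_mul]
  have h1 := Real.abs_sin_le_one a
  have h2 := Real.abs_cos_le_one a
  have h3 := abs_sin_sub_self_le x
  have h4 := abs_cos_sub_one_le x
  have h5 : |Real.sin a| * |Real.cos x - 1| ≤ 1 * x ^ 2 := by gcongr
  have h6 : |Real.cos a| * |Real.sin x - x| ≤ 1 * (2 * x ^ 2) := by gcongr
  linarith

theorem sin_lip (a x : ℝ) : |Real.sin (a + x) - Real.sin a| ≤ |x| := by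
  have := Real.abs_sin_sub_sin_le (a + x) a
  simpa using this

theorem cos_lip (a x : ℝ) : |Real.cos (a + x) - Real.cos a| ≤ |x| := by
  have := Real.abs_cos_sub_cos_le (a + x) a
  simpa using this

theorem shift_eq (N n h : ℕ) : ((n + qq N * h : ℕ) : ℝ) = (n + h * dd N) + (h * pp N : ℤ) * (2 * π) := by
  unfold dd
  push_cast
  ring

theorem sin_shift (N n h : ℕ) :
    Real.sin ((n + qq N * h : ℕ) : ℝ) = Real.sin (n + h * dd N) := by
  rw [shift_eq, Real.sin_add_int_mul_two_pi]

theorem cos_shift (N n h : ℕ) :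
    Real.cos ((n + qq N * h : ℕ) : ℝ) = Real.cos (n + h * dd N) := by
  rw [shift_eq, Real.cos_add_int_mul_two_pi]

theorem floor_bound (x y z : ℝ) (h : ℕ) {E : ℝ} (hE : |x - y - h * z| ≤ E) :
    |((⌊x⌋ - ⌊y⌋ - h * ⌊z⌋ : ℤ) : ℝ)| ≤ E + 1 + h := by
  have h1 := Int.floor_le x
  have h2 := Int.lt_floor_add_one x
  have h3 := Int.floor_le y
  have h4 := Int.lt_floor_add_one y
  have h5 := Int.floor_le z
  have h6 := Int.lt_floor_add_one z
  have hh : (0 : ℝ) ≤ h := by positivity
  have h7 : (h : ℝ) * ⌊z⌋ ≤ h * z := by gcongr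
  have h8 : (h : ℝ) * z ≤ h * (⌊z⌋ + 1) := by gcongr
  rw [abs_le] at hE ⊢
  push_cast
  constructor <;> linarith [hE.1, hE.2]

theorem exists_nat_bound {x : ℤ} {E : ℝ} (h : |(x : ℝ)| ≤ E) {C : ℕ} (hC : E ≤ C) :
    |x| ≤ (C : ℤ) := by
  have : |(x : ℝ)| ≤ (C : ℝ) := h.trans hC
  exact_mod_cast this

theorem loc : Loc AA BB qq := by
  have hpi := Real.pi_pos
  constructor
  · -- q / N → 0
    have h2 : Tendsto (fun N : ℕ => (√(N : ℝ))⁻¹) atTop (𝓝 0) :=
      (Real.tendsto_sqrt_atTop.comp tendsto_natCast_atTop_atTop).inv_tendsto_atTop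
    refine squeeze_zero' (Eventually.of_forall fun N => by positivity) ?_ h2
    filter_upwards [eventually_gt_atTop 0] with N hN
    have hNr : (0 : ℝ) < N := by exact_mod_cast hN
    have hp : 0 < √(N : ℝ) := Real.sqrt_pos.2 hNr
    rw [div_le_iff₀ hNr]
    have h3 : (√(N : ℝ))⁻¹ * N = √N := by
      rw [inv_mul_eq_div, Real.div_sqrt]
    rw [h3]
    exact qq_le hN
  · intro h
    obtain ⟨C, hC⟩ := exists_nat_ge
      (((1 + h) * (3 * h ^ 2 * (4 * π ^ 2)) + h ^ 2 * (2 * π)) + 1 + h : ℝ)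
    refine ⟨C, ?_⟩
    filter_upwards [eventually_gt_atTop 0] with N hN n _ hn
    refine exists_nat_bound ?_ hC
    unfold AA BB
    refine floor_bound _ _ _ h ?_
    have hNr : (0 : ℝ) < N := by exact_mod_cast hN
    have hnr : (n : ℝ) ≤ N := by exact_mod_cast hn
    rw [sin_shift]
    set δ := dd N with hδ
    set q : ℝ := ((qq N : ℕ) : ℝ) with hq
    have hqN : q ≤ N := by
      have h1 := qq_le hN
      have h2 : √(N : ℝ) ≤ N := by
        rw [Real.sqrt_le_left hNr.le]
        have : (1 : ℝ) ≤ N := by exact_mod_cast hN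
        nlinarith
      exact h1.trans h2
    have hq0 : 0 ≤ q := by positivity
    have hqd := qq_mul_dd hN
    have hNd := N_mul_dd_sq hN
    have e : ((n + qq N * h : ℕ) : ℝ) * Real.sin (n + h * δ) - n * Real.sin n - h * c1 N n
        = (n + q * h) * (Real.sin (n + h * δ) - Real.sin n - (h * δ) * Real.cos n)
          + h ^ 2 * (q * δ) * Real.cos n := by
      unfold c1
      push_cast
      rw [← hδ, ← hq]
      ring
    rw [e]
    refine (abs_add_le _ _).trans ?_
    have a1 : |(n + q * h) * (Real.sin (n + h * δ) - Real.sin n - (h * δ) * Real.cos n)|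
        ≤ (1 + h) * (3 * h ^ 2 * (4 * π ^ 2)) := by
      rw [abs_mul, abs_of_nonneg (by positivity)]
      have b1 := sin_add_bound (n : ℝ) (h * δ)
      calc (n + q * h) * |Real.sin (n + h * δ) - Real.sin n - (h * δ) * Real.cos n|
          ≤ (N + N * h) * (3 * (h * δ) ^ 2) := by gcongr
        _ = (1 + h) * (3 * h ^ 2 * (N * |δ| ^ 2)) := by rw [sq_abs]; ring
        _ ≤ _ := by gcongr
    have a2 : |h ^ 2 * (q * δ) * Real.cos n| ≤ h ^ 2 * (2 * π) := by
      rw [abs_mul, abs_mul, abs_mul, abs_of_nonneg hq0, abs_of_nonneg (by positivity : (0:ℝ) ≤ (h:ℝ) ^ 2)]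
      have := Real.abs_cos_le_one n
      calc (h : ℝ) ^ 2 * (q * |δ|) * |Real.cos n| ≤ (h : ℝ) ^ 2 * (2 * π) * 1 := by gcongr
        _ = _ := by ring
    linarith
  · intro h
    obtain ⟨C, hC⟩ := exists_nat_ge
      (((h * (2 * π) + (h * (2 * π) + h * (4 * π ^ 2))) + 1 + (0 : ℕ)) : ℝ)
    refine ⟨C, ?_⟩
    filter_upwards [eventually_gt_atTop 0] with N hN n _ hn
    have hNr : (0 : ℝ) < N := by exact_mod_cast hN
    have hnr : (n : ℝ) ≤ N := by exact_mod_cast hn
    have key : |((BB N (n + qq N * h) - BB N n - (0 : ℕ) * ⌊(0 : ℝ)⌋ : ℤ) : ℝ)| ≤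
        ((h * (2 * π) + (h * (2 * π) + h * (4 * π ^ 2))) + 1 + (0 : ℕ)) := by
      unfold BB
      refine floor_bound _ _ _ 0 ?_
      unfold c1
      rw [sin_shift, cos_shift]
      set δ := dd N with hδ
      set q : ℝ := ((qq N : ℕ) : ℝ) with hq
      have hq0 : 0 ≤ q := by positivity
      have hqd := qq_mul_dd hN
      have hNd := N_mul_dd_sq hN
      have e : q * Real.sin (n + h * δ) + ((n + qq N * h : ℕ) : ℝ) * δ * Real.cos (n + h * δ)
          - (q * Real.sin n + n * δ * Real.cos n) - ((0 : ℕ) : ℝ) * 0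
          = q * (Real.sin (n + h * δ) - Real.sin n)
            + (h * (q * δ) * Real.cos (n + h * δ)
            + n * δ * (Real.cos (n + h * δ) - Real.cos n)) := by
        push_cast
        rw [← hq]
        ring
      rw [e]
      refine (abs_add_le _ _).trans (add_le_add ?_ ((abs_add_le _ _).trans (add_le_add ?_ ?_)))
      · rw [abs_mul, abs_of_nonneg hq0]
        have := sin_lip (n : ℝ) (h * δ)
        rw [abs_mul, Nat.abs_cast] at this
        calc q * |Real.sin (n + h * δ) - Real.sin n| ≤ q * (h * |δ|) := by gcongr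
          _ = h * (q * |δ|) := by ring
          _ ≤ _ := by gcongr
      · rw [abs_mul, abs_mul, abs_mul, Nat.abs_cast, abs_of_nonneg hq0]
        have := Real.abs_cos_le_one (n + h * δ)
        calc h * (q * |δ|) * |Real.cos (n + h * δ)| ≤ h * (2 * π) * 1 := by gcongr
          _ = _ := by ring
      · rw [abs_mul, abs_mul, Nat.abs_cast]
        have := cos_lip (n : ℝ) (h * δ)
        rw [abs_mul, Nat.abs_cast] at this
        calc n * |δ| * |Real.cos (n + h * δ) - Real.cos n| ≤ N * |δ| * (h * |δ|) := by gcongr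
          _ = h * (N * |δ| ^ 2) := by ring
          _ ≤ _ := by gcongr
    have key2 : BB N (n + qq N * h) - BB N n - (0 : ℕ) * ⌊(0 : ℝ)⌋ = BB N (n + qq N * h) - BB N n := by
      simp
    rw [key2] at key
    exact exists_nat_bound key hC

end Pool.Agent.H62.NSin
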