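import Pool.Agent.H62.NSin.Final

/-!
Weakly mixing systems.
-/

namespace Pool.Agent.H62.NSin

open MeasureTheory Filter Finset Topology

universe u

section

variable {X : Type*} [MeasurableSpace X]

/-- Weak mixing, in terms of measurable sets. -/
def WeakMix (T : X ≃ᵐ X) (μ : Measure X) : Prop :=
  ∀ U V : Set X, MeasurableSet U → MeasurableSet V →
    Tendsto (fun N : ℕ => (1 / (N : ℝ)) * ∑ n ∈ Icc 1 N,
      |μ.real (U ∩ (fun x => (T.toEquiv ^ (n : ℤ)) x) ⁻¹' V) - μ.real U * μ.real V|) atTop (𝓝 0)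

/-- Correlations. -/
noncomputable def ccor (T : X ≃ᵐ X) (μ : Measure X) (f g : X → ℝ) (n : ℕ) : ℝ :=
  ∫ x, f x * sh T n g x ∂μ - (∫ x, f x ∂μ) * ∫ x, g x ∂μ

/-- Discretised function. -/
noncomputable def disc (K : ℕ) (f : X → ℝ) (x : X) : ℝ := (⌊(K : ℝ) * f x⌋ : ℝ) / K

/-- Level sets. -/
def lev (K : ℕ) (f : X → ℝ) (j : ℤ) : Set X := {x | ⌊(K : ℝ) * f x⌋ = j}

theorem lev_meas {K : ℕ} {f : X → ℝ} (hf : Measurable f) (j : ℤ) :
    MeasurableSet (lev K f j) := by
  have : Measurable (fun x => ⌊(K : ℝ) * f x⌋) := (hf.const_mul _).floor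
  exact this (measurableSet_singleton j)

theorem disc_eq {K : ℕ} {f : X → ℝ} (hf : BM f) (x : X) :
    disc K f x = ∑ j ∈ Icc (-(K : ℤ)) K, ((j : ℝ) / K) * (lev K f j).indicator 1 x := by
  classical
  have h1 := abs_le.1 (hf.2 x)
  have hK : (0 : ℝ) ≤ K := Nat.cast_nonneg K
  have hmem : ⌊(K : ℝ) * f x⌋ ∈ Icc (-(K : ℤ)) K := by
    rw [Finset.mem_Icc]
    constructor
    · rw [Int.le_floor]
      push_cast
      nlinarith [h1.1]
    · have : (⌊(K : ℝ) * f x⌋ : ℝ) ≤ K := (Int.floor_le _).trans (by nlinarith [h1.2])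
      exact_mod_cast this
  rw [Finset.sum_eq_single ⌊(K : ℝ) * f x⌋]
  · rw [Set.indicator_of_mem (show x ∈ lev K f ⌊(K : ℝ) * f x⌋ from rfl)]
    simp [disc]
  · intro j _ hj
    rw [Set.indicator_of_notMem (show x ∉ lev K f j from fun h => hj h.symm)]
    simp
  · intro h; exact absurd hmem h

theorem disc_close {K : ℕ} (hK : 0 < K) {f : X → ℝ} (x : X) : |f x - disc K f x| ≤ 1 / K := by
  have hK' : (0 : ℝ) < K := by exact_mod_cast hK
  unfold disc
  have h1 := Int.floor_le ((K : ℝ) * f x)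
  have h2 := Int.lt_floor_add_one ((K : ℝ) * f x)
  have e : f x - (⌊(K : ℝ) * f x⌋ : ℝ) / K = ((K : ℝ) * f x - ⌊(K : ℝ) * f x⌋) / K := by
    field_simp
  rw [e, abs_div, abs_of_pos hK', abs_of_nonneg (by linarith)]
  gcongr
  linarith

theorem BM_disc {K : ℕ} (hK : 0 < K) {f : X → ℝ} (hf : BM f) : BM (disc K f) := by
  have hK' : (0 : ℝ) < K := by exact_mod_cast hK
  refine ⟨?_, fun x => ?_⟩
  · have : Measurable (fun x => ⌊(K : ℝ) * f x⌋) := (hf.1.const_mul _).floor
    have h2 : Measurable (fun x => ((⌊(K : ℝ) * f x⌋ : ℤ) : ℝ)) :=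
      (measurable_from_top (f := fun z : ℤ => (z : ℝ))).comp this
    exact h2.div_const _
  · have h1 := abs_le.1 (hf.2 x)
    unfold disc
    rw [abs_div, abs_of_pos hK', div_le_one hK', abs_le]
    constructor
    · have : -(K : ℤ) ≤ ⌊(K : ℝ) * f x⌋ := by
        rw [Int.le_floor]
        push_cast
        nlinarith [h1.1]
      have h3 : ((-(K : ℤ) : ℤ) : ℝ) ≤ (⌊(K : ℝ) * f x⌋ : ℝ) := by exact_mod_cast this
      push_cast at h3
      linarith
    · exact (Int.floor_le _).trans (by nlinarith [h1.2])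

variable {T : X ≃ᵐ X} {μ : Measure X} [IsProbabilityMeasure μ]

theorem BM_ind {U : Set X} (hU : MeasurableSet U) : BM (U.indicator (1 : X → ℝ)) := by
  refine ⟨measurable_one.indicator hU, fun x => ?_⟩
  by_cases hx : x ∈ U
  · simp [hx]
  · simp [hx]

theorem ccor_ind {U V : Set X} (hU : MeasurableSet U) (hV : MeasurableSet V) (n : ℕ) :
    ccor T μ (U.indicator 1) (V.indicator 1) n =
      μ.real (U ∩ (fun x => (T.toEquiv ^ (n : ℤ)) x) ⁻¹' V) - μ.real U * μ.real V := by
  unfold ccor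
  have hV' : MeasurableSet ((fun x => (T.toEquiv ^ (n : ℤ)) x) ⁻¹' V) := meas_zpow T n hV
  have e1 : ∀ x, U.indicator (1 : X → ℝ) x * sh T n (V.indicator 1) x
      = (U ∩ (fun x => (T.toEquiv ^ (n : ℤ)) x) ⁻¹' V).indicator 1 x := by
    intro x
    unfold sh
    by_cases h1 : x ∈ U
    · by_cases h2 : (T.toEquiv ^ (n : ℤ)) x ∈ V
      · rw [Set.indicator_of_mem h1, Set.indicator_of_mem h2,
          Set.indicator_of_mem (show x ∈ U ∩ (fun x => (T.toEquiv ^ (n : ℤ)) x) ⁻¹' V from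
            ⟨h1, h2⟩)]
        simp
      · rw [Set.indicator_of_notMem h2,
          Set.indicator_of_notMem (show x ∉ U ∩ (fun x => (T.toEquiv ^ (n : ℤ)) x) ⁻¹' V from
            fun h => h2 h.2)]
        simp
    · rw [Set.indicator_of_notMem h1,
        Set.indicator_of_notMem (show x ∉ U ∩ (fun x => (T.toEquiv ^ (n : ℤ)) x) ⁻¹' V from
          fun h => h1 h.1)]
      simp
  simp_rw [e1]
  rw [integral_indicator_one (hU.inter hV'), integral_indicator_one hU, integral_indicator_one hV]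

theorem ccor_disc {K : ℕ} {f g : X → ℝ} (hf : BM f) (hg : BM g) (n : ℕ) :
    ccor T μ (disc K f) (disc K g) n = ∑ i ∈ Icc (-(K : ℤ)) K, ∑ j ∈ Icc (-(K : ℤ)) K,
      ((i : ℝ) / K) * ((j : ℝ) / K) *
        ccor T μ ((lev K f i).indicator 1) ((lev K g j).indicator 1) n := by
  have hi : ∀ i, BM ((lev K f i).indicator (1 : X → ℝ)) := fun i => BM_ind (lev_meas hf.1 i)
  have hj : ∀ j, BM ((lev K g j).indicator (1 : X → ℝ)) := fun j => BM_ind (lev_meas hg.1 j)
  have e1 : ∫ x, disc K f x ∂μ = ∑ i ∈ Icc (-(K : ℤ)) K, ((i : ℝ) / K) *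
      ∫ x, (lev K f i).indicator (1 : X → ℝ) x ∂μ := by
    simp_rw [disc_eq hf]
    rw [integral_finsetSum _ fun i _ => ((hi i).integrable μ).const_mul _]
    simp_rw [integral_const_mul]
  have e2 : ∫ x, disc K g x ∂μ = ∑ i ∈ Icc (-(K : ℤ)) K, ((i : ℝ) / K) *
      ∫ x, (lev K g i).indicator (1 : X → ℝ) x ∂μ := by
    simp_rw [disc_eq hg]
    rw [integral_finsetSum _ fun i _ => ((hj i).integrable μ).const_mul _]
    simp_rw [integral_const_mul]
  have e3 : ∫ x, disc K f x * sh T n (disc K g) x ∂μ = ∑ i ∈ Icc (-(K : ℤ)) K,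
      ∑ j ∈ Icc (-(K : ℤ)) K, ((i : ℝ) / K) * ((j : ℝ) / K) *
      ∫ x, (lev K f i).indicator (1 : X → ℝ) x *
        sh T n ((lev K g j).indicator (1 : X → ℝ)) x ∂μ := by
    have : ∀ x, disc K f x * sh T n (disc K g) x = ∑ i ∈ Icc (-(K : ℤ)) K,
        ∑ j ∈ Icc (-(K : ℤ)) K, ((i : ℝ) / K) * ((j : ℝ) / K) *
        ((lev K f i).indicator (1 : X → ℝ) x *
        sh T n ((lev K g j).indicator (1 : X → ℝ)) x) := by
      intro x
      have h2 : sh T n (disc K g) x = ∑ j ∈ Icc (-(K : ℤ)) K, ((j : ℝ) / K) *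
          sh T n ((lev K g j).indicator (1 : X → ℝ)) x := disc_eq hg _
      rw [h2, disc_eq hf, Finset.sum_mul_sum]
      refine Finset.sum_congr rfl fun i _ => Finset.sum_congr rfl fun j _ => ?_
      ring
    simp_rw [this]
    have hint : ∀ i j : ℤ, Integrable (fun x => ((i : ℝ) / K) * ((j : ℝ) / K) *
        ((lev K f i).indicator (1 : X → ℝ) x *
        sh T n ((lev K g j).indicator (1 : X → ℝ)) x)) μ := fun i j =>
      (((hi i).mul ((hj j).shift T n)).integrable μ).const_mul _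
    rw [integral_finsetSum _ fun i _ => integrable_finset_sum _ fun j _ => hint i j]
    refine Finset.sum_congr rfl fun i _ => ?_
    rw [integral_finsetSum _ fun j _ => hint i j]
    refine Finset.sum_congr rfl fun j _ => ?_
    rw [integral_const_mul]
  unfold ccor
  rw [e1, e2, e3, Finset.sum_mul_sum, ← Finset.sum_sub_distrib]
  refine Finset.sum_congr rfl fun i _ => ?_
  rw [← Finset.sum_sub_distrib]
  refine Finset.sum_congr rfl fun j _ => ?_
  ring

theorem ccor_close (hT : MeasurePreserving T μ μ) {K : ℕ} (hK : 0 < K) {f g : X → ℝ}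
    (hf : BM f) (hg : BM g) (n : ℕ) :
    |ccor T μ f g n - ccor T μ (disc K f) (disc K g) n| ≤ 4 / K := by
  have hK' : (0 : ℝ) < K := by exact_mod_cast hK
  have hf' := BM_disc hK hf
  have hg' := BM_disc hK hg
  have gen : ∀ u v u' v' : X → ℝ, BM u → BM v → BM u' → BM v' →
      (∀ x, |u x - u' x| ≤ 1 / K) → (∀ x, |v x - v' x| ≤ 1 / K) →
      |∫ x, u x * v x ∂μ - ∫ x, u' x * v' x ∂μ| ≤ 2 / K := by
    intro u v u' v' hu hv hu' hv' h1 h2
    have i1 : Integrable (fun x => u x * v x) μ := (hu.mul hv).integrable μ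
    have i2 : Integrable (fun x => u' x * v' x) μ := (hu'.mul hv').integrable μ
    rw [← integral_sub i1 i2]
    have := norm_integral_le_of_norm_le_const (μ := μ) (f := fun x => u x * v x - u' x * v' x)
      (C := 2 / K) (ae_of_all _ fun x => by
        rw [Real.norm_eq_abs]
        have e : u x * v x - u' x * v' x = (u x - u' x) * v x + u' x * (v x - v' x) := by ring
        rw [e]
        refine (abs_add_le _ _).trans ?_
        rw [abs_mul, abs_mul]
        have h3 : |u x - u' x| * |v x| ≤ (1 / K) * 1 := by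
          gcongr
          · exact h1 x
          · exact hv.2 x
        have h4 : |u' x| * |v x - v' x| ≤ 1 * (1 / K) := by
          gcongr
          · exact hu'.2 x
          · exact h2 x
        have h5 : (2 : ℝ) / K = (1 / K) * 1 + 1 * (1 / K) := by ring
        linarith)
    simpa using this
  have a1 := gen f (sh T n g) (disc K f) (sh T n (disc K g)) hf (hg.shift T n) hf'
    (hg'.shift T n) (disc_close hK) (fun x => disc_close hK _)
  have gen2 : ∀ u : X → ℝ, BM u → |∫ x, u x ∂μ - ∫ x, disc K u x ∂μ| ≤ 1 / K := by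
    intro u hu
    rw [← integral_sub (hu.integrable μ) ((BM_disc hK hu).integrable μ)]
    have := norm_integral_le_of_norm_le_const (μ := μ) (f := fun x => u x - disc K u x)
      (C := 1 / K) (ae_of_all _ fun x => by
        rw [Real.norm_eq_abs]
        exact disc_close hK x)
    simpa using this
  have b1 := gen2 f hf
  have b2 := gen2 g hg
  have c1 := hg.abs_integral_le μ
  have c2 := hf'.abs_integral_le μ
  unfold ccor
  set A := ∫ x, f x ∂μ
  set B := ∫ x, g x ∂μ
  set A' := ∫ x, disc K f x ∂μ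
  set B' := ∫ x, disc K g x ∂μ
  set C := ∫ x, f x * sh T n g x ∂μ
  set C' := ∫ x, disc K f x * sh T n (disc K g) x ∂μ
  have e : (C - A * B) - (C' - A' * B') = (C - C') - ((A - A') * B + A' * (B - B')) := by ring
  rw [e]
  refine (abs_sub _ _).trans ?_
  have d1 : |(A - A') * B + A' * (B - B')| ≤ 2 / K := by
    refine (abs_add_le _ _).trans ?_
    rw [abs_mul, abs_mul]
    have h3 : |A - A'| * |B| ≤ (1 / K) * 1 := by gcongr
    have h4 : |A'| * |B - B'| ≤ 1 * (1 / K) := by gcongr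
    have h5 : (2 : ℝ) / K = (1 / K) * 1 + 1 * (1 / K) := by ring
    linarith
  have h6 : (4 : ℝ) / K = 2 / K + 2 / K := by ring
  linarith

/-- Weak mixing for bounded functions. -/
theorem wm_fun (hT : MeasurePreserving T μ μ) (hW : WeakMix T μ) {f g : X → ℝ}
    (hf : BM f) (hg : BM g) :
    Tendsto (fun N : ℕ => (1 / (N : ℝ)) * ∑ n ∈ Icc 1 N, |ccor T μ f g n|) atTop (𝓝 0) := by
  rw [Metric.tendsto_atTop]
  intro ε hε
  obtain ⟨K, hK⟩ := exists_nat_gt (8 / ε)
  have hK0 : (0 : ℝ) < K := lt_trans (by positivity) hK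
  have hK' : 0 < K := by exact_mod_cast hK0
  have hKε : (4 : ℝ) / K < ε / 2 := by
    rw [div_lt_iff₀ hK0]
    rw [div_lt_iff₀ hε] at hK
    linarith
  have hlim : Tendsto (fun N : ℕ => ∑ i ∈ Icc (-(K : ℤ)) K, ∑ j ∈ Icc (-(K : ℤ)) K,
      |((i : ℝ) / K) * ((j : ℝ) / K)| * ((1 / (N : ℝ)) * ∑ n ∈ Icc 1 N,
        |ccor T μ ((lev K f i).indicator 1) ((lev K g j).indicator 1) n|)) atTop (𝓝 0) := by
    have h1 : ∀ i j : ℤ, Tendsto (fun N : ℕ => |((i : ℝ) / K) * ((j : ℝ) / K)| *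
        ((1 / (N : ℝ)) * ∑ n ∈ Icc 1 N,
        |ccor T μ ((lev K f i).indicator 1) ((lev K g j).indicator 1) n|)) atTop (𝓝 0) := by
      intro i j
      have h2 := hW _ _ (lev_meas (K := K) hf.1 i) (lev_meas (K := K) hg.1 j)
      have h3 := h2.const_mul |((i : ℝ) / K) * ((j : ℝ) / K)|
      rw [mul_zero] at h3
      refine h3.congr fun N => ?_
      congr 2
      refine Finset.sum_congr rfl fun n _ => ?_
      rw [ccor_ind (lev_meas hf.1 i) (lev_meas hg.1 j)]
    have := tendsto_finsetSum (s := Icc (-(K : ℤ)) K) (a := fun _ => (0 : ℝ)) (x := atTop)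
      (f := fun (i : ℤ) (N : ℕ) => ∑ j ∈ Icc (-(K : ℤ)) K, |((i : ℝ) / K) * ((j : ℝ) / K)| *
        ((1 / (N : ℝ)) * ∑ n ∈ Icc 1 N,
        |ccor T μ ((lev K f i).indicator 1) ((lev K g j).indicator 1) n|)) fun i _ => by
        have := tendsto_finsetSum (s := Icc (-(K : ℤ)) K) (a := fun _ => (0 : ℝ)) (x := atTop)
          (f := fun (j : ℤ) (N : ℕ) => |((i : ℝ) / K) * ((j : ℝ) / K)| *
          ((1 / (N : ℝ)) * ∑ n ∈ Icc 1 N,
          |ccor T μ ((lev K f i).indicator 1) ((lev K g j).indicator 1) n|)) fun j _ => h1 i j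
        simpa using this
    simpa using this
  obtain ⟨N0, hN0⟩ := eventually_atTop.1
    (hlim.eventually (gt_mem_nhds (show (0 : ℝ) < ε / 2 by positivity)))
  refine ⟨max N0 1, fun N hN => ?_⟩
  have hN1 : N0 ≤ N := (le_max_left _ _).trans hN
  have hN2 : 0 < N := (le_max_right N0 1).trans hN
  have hNr : (0 : ℝ) < N := by exact_mod_cast hN2
  have hnn : 0 ≤ (1 / (N : ℝ)) * ∑ n ∈ Icc 1 N, |ccor T μ f g n| :=
    mul_nonneg (by positivity) (Finset.sum_nonneg fun n _ => abs_nonneg _)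
  rw [Real.dist_eq, sub_zero, abs_of_nonneg hnn]
  have hb : ∀ n, |ccor T μ f g n| ≤ 4 / K + ∑ i ∈ Icc (-(K : ℤ)) K, ∑ j ∈ Icc (-(K : ℤ)) K,
      |((i : ℝ) / K) * ((j : ℝ) / K)| *
        |ccor T μ ((lev K f i).indicator 1) ((lev K g j).indicator 1) n| := by
    intro n
    have h1 := ccor_close (μ := μ) hT hK' hf hg n
    have h2 : |ccor T μ (disc K f) (disc K g) n| ≤ ∑ i ∈ Icc (-(K : ℤ)) K,
        ∑ j ∈ Icc (-(K : ℤ)) K, |((i : ℝ) / K) * ((j : ℝ) / K)| *
        |ccor T μ ((lev K f i).indicator 1) ((lev K g j).indicator 1) n| := by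
      rw [ccor_disc hf hg]
      refine (Finset.abs_sum_le_sum_abs _ _).trans (Finset.sum_le_sum fun i _ => ?_)
      refine (Finset.abs_sum_le_sum_abs _ _).trans (Finset.sum_le_sum fun j _ => ?_)
      rw [abs_mul]
    have h3 : |ccor T μ f g n| ≤ |ccor T μ f g n - ccor T μ (disc K f) (disc K g) n|
        + |ccor T μ (disc K f) (disc K g) n| := by
      have := abs_add_le (ccor T μ f g n - ccor T μ (disc K f) (disc K g) n)
        (ccor T μ (disc K f) (disc K g) n)
      simpa using this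
    linarith
  have hsum : (1 / (N : ℝ)) * ∑ n ∈ Icc 1 N, |ccor T μ f g n| ≤ 4 / K +
      ∑ i ∈ Icc (-(K : ℤ)) K, ∑ j ∈ Icc (-(K : ℤ)) K,
      |((i : ℝ) / K) * ((j : ℝ) / K)| * ((1 / (N : ℝ)) * ∑ n ∈ Icc 1 N,
        |ccor T μ ((lev K f i).indicator 1) ((lev K g j).indicator 1) n|) := by
    calc (1 / (N : ℝ)) * ∑ n ∈ Icc 1 N, |ccor T μ f g n|
        ≤ (1 / (N : ℝ)) * ∑ n ∈ Icc 1 N, (4 / K + ∑ i ∈ Icc (-(K : ℤ)) K,
          ∑ j ∈ Icc (-(K : ℤ)) K, |((i : ℝ) / K) * ((j : ℝ) / K)| *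
          |ccor T μ ((lev K f i).indicator 1) ((lev K g j).indicator 1) n|) := by
          gcongr with n _
          exact hb n
      _ = _ := by
          rw [Finset.sum_add_distrib, mul_add]
          congr 1
          · simp
            field_simp
          · rw [Finset.sum_comm, Finset.mul_sum]
            refine Finset.sum_congr rfl fun i _ => ?_
            rw [Finset.sum_comm, Finset.mul_sum]
            refine Finset.sum_congr rfl fun j _ => ?_
            rw [← Finset.mul_sum]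
            ring
  have := hN0 N hN1
  linarith

/-- In a weakly mixing system all uniformity seminorms are the absolute value of the integral. -/
theorem hostKra_wm (hT : MeasurePreserving T μ μ) (hW : WeakMix T μ) (k : ℕ) :
    ∀ {f : X → ℝ}, BM f → hostKra T μ k f ≤ (∫ x, f x ∂μ) ^ (2 ^ (k + 1)) := by
  induction k with
  | zero =>
    intro f hf
    rw [zero_add, pow_one]
    refine le_of_forall_pos_le_add fun ε hε => ?_
    refine hostKra_zero_le hT hf ?_
    have h1 := wm_fun hT hW hf hf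
    filter_upwards [h1.eventually (gt_mem_nhds hε), eventually_gt_atTop 0] with K hK hK0
    have hKr : (0 : ℝ) < K := by exact_mod_cast hK0
    have h2 : ∑ d ∈ Icc 1 K, |ccor T μ f f d| ≤ K * ε := by
      rw [one_div, inv_mul_lt_iff₀ hKr] at hK
      exact hK.le
    refine (Finset.abs_sum_le_sum_abs _ _).trans ?_
    have h3 : ∀ d ∈ Icc 1 K, |autoc T μ f d| ≤ (∫ x, f x ∂μ) ^ 2 + |ccor T μ f f d| := by
      intro d _
      have e : autoc T μ f d = (∫ x, f x ∂μ) ^ 2 + ccor T μ f f d := by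
        unfold autoc ccor
        simp only [Pi.mul_apply]
        ring
      rw [e]
      refine (abs_add_le _ _).trans ?_
      rw [abs_of_nonneg (sq_nonneg _)]
    refine (Finset.sum_le_sum h3).trans ?_
    rw [Finset.sum_add_distrib]
    simp only [Finset.sum_const, Nat.card_Icc, Nat.add_sub_cancel, nsmul_eq_mul]
    linarith
  | succ k ih =>
    intro f hf
    simp only [hostKra]
    have hm : ∀ h : ℕ, BM (f * sh T h f) := fun h => hf.mul (hf.shift T h)
    refine limsup_le_of (avg_nonneg _ fun h => (hostKra_mem k (hm h)).1) fun ε hε => ?_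
    have h1 := (wm_fun hT hW hf hf).const_mul ((2 ^ (k + 1) : ℕ) : ℝ)
    rw [mul_zero] at h1
    filter_upwards [h1.eventually (gt_mem_nhds hε), eventually_gt_atTop 0] with H hH hH0
    have hHr : (0 : ℝ) < H := by exact_mod_cast hH0
    set a := ∫ x, f x ∂μ with ha
    have ha1 : |a| ≤ 1 := hf.abs_integral_le μ
    have h2 : ∀ h ∈ Icc 1 H, hostKra T μ k (f * sh T h f) ≤
        a ^ (2 ^ (k + 1 + 1)) + ((2 ^ (k + 1) : ℕ) : ℝ) * |ccor T μ f f h| := by
      intro h _
      refine (ih (hm h)).trans ?_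
      have e1 : ∫ x, (f * sh T h f) x ∂μ = a ^ 2 + ccor T μ f f h := by
        unfold ccor
        simp only [Pi.mul_apply]
        ring
      have h3 := abs_pow_sub_pow_le (a := ∫ x, (f * sh T h f) x ∂μ) (b := a ^ 2)
        (n := 2 ^ (k + 1))
      have h4 : |∫ x, (f * sh T h f) x ∂μ| ≤ 1 := (hm h).abs_integral_le μ
      have h5 : |a ^ 2| ≤ 1 := by
        rw [abs_pow]
        exact pow_le_one₀ (abs_nonneg _) ha1
      have h6 : max |∫ x, (f * sh T h f) x ∂μ| |a ^ 2| ^ (2 ^ (k + 1) - 1) ≤ 1 :=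
        pow_le_one₀ (le_max_of_le_left (abs_nonneg _)) (max_le h4 h5)
      have h7 : |∫ x, (f * sh T h f) x ∂μ - a ^ 2| = |ccor T μ f f h| := by
        rw [e1]; congr 1; ring
      rw [h7] at h3
      have h8 : |ccor T μ f f h| * ((2 ^ (k + 1) : ℕ) : ℝ) *
          max |∫ x, (f * sh T h f) x ∂μ| |a ^ 2| ^ (2 ^ (k + 1) - 1) ≤
          |ccor T μ f f h| * ((2 ^ (k + 1) : ℕ) : ℝ) * 1 := by gcongr
      have h9 := (le_abs_self _).trans (h3.trans h8)
      have e2 : (a ^ 2) ^ 2 ^ (k + 1) = a ^ (2 ^ (k + 1 + 1)) := by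
        rw [← pow_mul]; congr 1; ring
      rw [e2] at h9
      linarith
    calc (1 / (H : ℝ)) * ∑ h ∈ Icc 1 H, hostKra T μ k (f * sh T h f)
        ≤ (1 / (H : ℝ)) * ∑ h ∈ Icc 1 H,
          (a ^ (2 ^ (k + 1 + 1)) + ((2 ^ (k + 1) : ℕ) : ℝ) * |ccor T μ f f h|) := by
          refine mul_le_mul_of_nonneg_left (Finset.sum_le_sum h2) (by positivity)
      _ = a ^ (2 ^ (k + 1 + 1)) + ((2 ^ (k + 1) : ℕ) : ℝ) *
          ((1 / (H : ℝ)) * ∑ h ∈ Icc 1 H, |ccor T μ f f h|) := by
          rw [Finset.sum_add_distrib, ← Finset.mul_sum]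
          simp only [Finset.sum_const, Nat.card_Icc, Nat.add_sub_cancel, nsmul_eq_mul]
          field_simp
      _ ≤ _ := by linarith

end

end Pool.Agent.H62.NSin
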