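import Pool.Agent.H62.NSin.WM

/-!
Multiple averages along `⌊n sin n⌋` in weakly mixing systems.
-/

namespace Pool.Agent.H62.NSin

open MeasureTheory Filter Finset Topology

universe u

section

variable {X : Type*} [MeasurableSpace X]

open Classical in
/-- The functions in the telescoping sum. -/
noncomputable def tel {ℓ : ℕ} (f : Fin ℓ → X → ℝ) (c : Fin ℓ → ℝ) (j i : Fin ℓ) : X → ℝ :=
  if i < j then f i else if i = j then fun x => (1 / 2) * (f i x - c i) else fun _ => c i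

theorem BM_tel {ℓ : ℕ} {f : Fin ℓ → X → ℝ} {c : Fin ℓ → ℝ} (hf : ∀ i, BM (f i))
    (hc : ∀ i, |c i| ≤ 1) (j i : Fin ℓ) : BM (tel f c j i) := by
  unfold tel
  split_ifs
  · exact hf i
  · refine ⟨((hf i).1.sub_const _).const_mul _, fun x => ?_⟩
    rw [abs_mul, abs_of_pos (by norm_num : (0 : ℝ) < 1 / 2)]
    have := (abs_sub (f i x) (c i)).trans (add_le_add ((hf i).2 x) (hc i))
    linarith
  · exact ⟨measurable_const, fun _ => hc i⟩

theorem tel_sum {ℓ : ℕ} (f : Fin ℓ → X → ℝ) (c : Fin ℓ → ℝ) (y : Fin ℓ → X) :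
    ∏ i, f i (y i) - ∏ i, c i = ∑ j, 2 * ∏ i, tel f c j i (y i) := by
  classical
  have h := Finset.prod_add_ordered (Finset.univ : Finset (Fin ℓ)) c (fun i => f i (y i) - c i)
  simp only [add_sub_cancel] at h
  rw [h, add_sub_cancel_left]
  refine Finset.sum_congr rfl fun j _ => ?_
  have e : ∏ i, tel f c j i (y i) = ((1 / 2) * (f j (y j) - c j)) *
      ((∏ i ∈ Finset.univ.filter (fun i => i < j), f i (y i)) *
        ∏ i ∈ Finset.univ.filter (fun i => j < i), c i) := by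
    rw [← Finset.mul_prod_erase Finset.univ _ (Finset.mem_univ j)]
    congr 1
    · simp [tel]
    · have hu : Finset.univ.erase j = (Finset.univ.filter (fun i => i < j)) ∪
          (Finset.univ.filter (fun i => j < i)) := by
        ext i
        simp only [Finset.mem_erase, Finset.mem_univ, and_true, Finset.mem_union,
          Finset.mem_filter, true_and]
        exact ne_iff_lt_or_gt
      have hd : Disjoint (Finset.univ.filter (fun i : Fin ℓ => i < j))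
          (Finset.univ.filter (fun i => j < i)) := by
        rw [Finset.disjoint_left]
        intro i hi hi'
        rw [Finset.mem_filter] at hi hi'
        exact lt_asymm hi.2 hi'.2
      rw [hu, Finset.prod_union hd]
      congr 1
      · refine Finset.prod_congr rfl fun i hi => ?_
        rw [Finset.mem_filter] at hi
        simp [tel, hi.2]
      · refine Finset.prod_congr rfl fun i hi => ?_
        rw [Finset.mem_filter] at hi
        simp [tel, not_lt.2 hi.2.le, hi.2.ne']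
  rw [e]
  ring

end

/-- The orbit point. -/
theorem wm_control (ℓ : ℕ) (X : Type u) [MeasurableSpace X] (μ : Measure X)
    [IsProbabilityMeasure μ] (T : X ≃ᵐ X) (hT : MeasurePreserving T μ μ) (hW : WeakMix T μ)
    (p : Fin ℓ → ℤ) (hp : Function.Injective p) (hp0 : ∀ i, p i ≠ 0) (f : Fin ℓ → X → ℝ)
    (hf : ∀ i, BM (f i)) (ε : ℝ) (hε : 0 < ε) : ∀ᶠ N : ℕ in atTop,
    ∀ w : ℕ → ℝ, (∀ n, |w n| ≤ 1) →
    ∫ x, ((1 / (N : ℝ)) * ∑ n ∈ Icc 1 N, w n * (∏ i : Fin ℓ,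
      f i ((T.toEquiv ^ (p i * ⌊(n : ℝ) * Real.sin (n : ℝ)⌋)) x) - ∏ i, ∫ x, f i x ∂μ)) ^ 2 ∂μ
      ≤ ε := by
  classical
  obtain ⟨k, hk⟩ := control.{u} ℓ
  set c : Fin ℓ → ℝ := fun i => ∫ x, f i x ∂μ with hc
  have hc1 : ∀ i, |c i| ≤ 1 := fun i => (hf i).abs_integral_le μ
  have h0 : ∀ j, hostKra T μ k (tel f c j j) = 0 := by
    intro j
    have h1 := hostKra_wm hT hW k (BM_tel hf hc1 j j)
    have h2 : ∫ x, tel f c j j x ∂μ = 0 := by
      have : tel f c j j = fun x => (1 / 2) * (f j x - c j) := by simp [tel]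
      rw [this, integral_const_mul, integral_sub ((hf j).integrable μ) (integrable_const _)]
      simp [hc]
    rw [h2, zero_pow (by positivity)] at h1
    exact le_antisymm h1 (hostKra_mem k (BM_tel hf hc1 j j)).1
  have hev : ∀ᶠ N : ℕ in atTop, ∀ j : Fin ℓ, ∀ w : ℕ → ℝ, (∀ n, |w n| ≤ 1) →
      ∫ x, ((1 / (N : ℝ)) * ∑ n ∈ Icc 1 N, w n * ∏ i : Fin ℓ,
      tel f c j i ((T.toEquiv ^ (p i * ⌊(n : ℝ) * Real.sin (n : ℝ)⌋)) x)) ^ 2 ∂μ
      ≤ ε / (4 * (ℓ : ℝ) ^ 2 + 1) := by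
    rw [Filter.eventually_all]
    intro j
    exact hk X μ T hT p hp (tel f c j) (BM_tel hf hc1 j) j (hp0 j) (h0 j) _ (by positivity)
  filter_upwards [hev] with N hN w hw
  set y : ℕ → Fin ℓ → X → X := fun n i x =>
    (T.toEquiv ^ (p i * ⌊(n : ℝ) * Real.sin (n : ℝ)⌋)) x with hy
  set U : Fin ℓ → X → ℝ := fun j x =>
    (1 / (N : ℝ)) * ∑ n ∈ Icc 1 N, w n * ∏ i : Fin ℓ, tel f c j i (y n i x) with hU
  have hprodBM : ∀ j n, BM (fun x => ∏ i : Fin ℓ, tel f c j i (y n i x)) := by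
    intro j n
    have := BM.prod (Finset.univ : Finset (Fin ℓ))
      (fun i => sh T (p i * ⌊(n : ℝ) * Real.sin (n : ℝ)⌋) (tel f c j i))
      fun i _ => (BM_tel hf hc1 j i).shift T _
    have e : (fun x => ∏ i : Fin ℓ, tel f c j i (y n i x)) = ∏ i : Fin ℓ,
      sh T (p i * ⌊(n : ℝ) * Real.sin (n : ℝ)⌋) (tel f c j i) := by
      funext x; rw [Finset.prod_apply]; rfl
    rw [e]; exact this
  have hUB : ∀ j, BM (U j) := fun j =>
    BM_avg (u := fun n x => w n * ∏ i : Fin ℓ, tel f c j i (y n i x))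
      (fun n => (hprodBM j n).smul (hw n)) N
  have e1 : ∀ x, (1 / (N : ℝ)) * ∑ n ∈ Icc 1 N, w n * (∏ i : Fin ℓ, f i (y n i x) - ∏ i, c i)
      = 2 * ∑ j, U j x := by
    intro x
    have h1 : ∀ n, ∏ i : Fin ℓ, f i (y n i x) - ∏ i, c i
        = ∑ j, 2 * ∏ i, tel f c j i (y n i x) := fun n => tel_sum f c fun i => y n i x
    simp_rw [h1, hU, Finset.mul_sum]
    rw [Finset.sum_comm]
    refine Finset.sum_congr rfl fun j _ => Finset.sum_congr rfl fun n _ => ?_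
    ring
  have e2 : ∀ x, ((1 / (N : ℝ)) * ∑ n ∈ Icc 1 N, w n * (∏ i : Fin ℓ, f i (y n i x)
      - ∏ i, c i)) ^ 2 ≤ ∑ j, 4 * (ℓ : ℝ) * (U j x) ^ 2 := by
    intro x
    rw [e1, mul_pow]
    have h2 := sq_sum_le_card_mul_sum_sq (s := (Finset.univ : Finset (Fin ℓ)))
      (f := fun j => U j x)
    rw [Finset.card_univ, Fintype.card_fin] at h2
    have h5 : ∑ j, 4 * (ℓ : ℝ) * (U j x) ^ 2 = 4 * (ℓ * ∑ j, (U j x) ^ 2) := by
      rw [← Finset.mul_sum]; ring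
    rw [h5]
    linarith
  have hint : ∀ j, Integrable (fun x => (U j x) ^ 2) μ := by
    intro j
    have : (fun x => (U j x) ^ 2) = U j * U j := by funext x; simp [sq]
    rw [this]
    exact ((hUB j).mul (hUB j)).integrable μ
  calc ∫ x, ((1 / (N : ℝ)) * ∑ n ∈ Icc 1 N, w n * (∏ i : Fin ℓ, f i (y n i x)
      - ∏ i, c i)) ^ 2 ∂μ ≤ ∫ x, ∑ j, 4 * (ℓ : ℝ) * (U j x) ^ 2 ∂μ := by
        refine integral_mono_of_nonneg (ae_of_all _ fun x => sq_nonneg _) ?_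
          (ae_of_all _ e2)
        exact integrable_finset_sum _ fun j _ => (hint j).const_mul _
    _ = ∑ j, 4 * (ℓ : ℝ) * ∫ x, (U j x) ^ 2 ∂μ := by
        rw [integral_finsetSum _ fun j _ => (hint j).const_mul _]
        simp_rw [integral_const_mul]
    _ ≤ ∑ j : Fin ℓ, 4 * (ℓ : ℝ) * (ε / (4 * (ℓ : ℝ) ^ 2 + 1)) := by
        refine Finset.sum_le_sum fun j _ => ?_
        exact mul_le_mul_of_nonneg_left (hN j w hw) (by positivity)
    _ ≤ ε := by
        rw [Finset.sum_const, Finset.card_univ, Fintype.card_fin, nsmul_eq_mul]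
        have h3 : (ℓ : ℝ) * (4 * ℓ * (ε / (4 * (ℓ : ℝ) ^ 2 + 1)))
            = ε * ((4 * (ℓ : ℝ) ^ 2) / (4 * (ℓ : ℝ) ^ 2 + 1)) := by
          field_simp
        rw [h3]
        have h4 : (4 * (ℓ : ℝ) ^ 2) / (4 * (ℓ : ℝ) ^ 2 + 1) ≤ 1 := by
          rw [div_le_one (by positivity)]
          linarith
        nlinarith

/-- Arbitrary bounded functions. -/
theorem wm_bounded (ℓ : ℕ) (X : Type u) [MeasurableSpace X] (μ : Measure X)
    [IsProbabilityMeasure μ] (T : X ≃ᵐ X) (hT : MeasurePreserving T μ μ) (hW : WeakMix T μ)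
    (p : Fin ℓ → ℤ) (hp : Function.Injective p) (hp0 : ∀ i, p i ≠ 0) (f : Fin ℓ → X → ℝ)
    (hf : ∀ i, Measurable (f i)) (hb : ∀ i, ∃ C : ℝ, ∀ x, |f i x| ≤ C) (ε : ℝ) (hε : 0 < ε) :
    ∀ᶠ N : ℕ in atTop, ∀ w : ℕ → ℝ, (∀ n, |w n| ≤ 1) →
    ∫ x, ((1 / (N : ℝ)) * ∑ n ∈ Icc 1 N, w n * (∏ i : Fin ℓ,
      f i ((T.toEquiv ^ (p i * ⌊(n : ℝ) * Real.sin (n : ℝ)⌋)) x) - ∏ i, ∫ x, f i x ∂μ)) ^ 2 ∂μ
      ≤ ε := by
  classical
  choose C hC using hb
  set D : Fin ℓ → ℝ := fun i => max 1 (C i) with hD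
  have hD1 : ∀ i, 1 ≤ D i := fun i => le_max_left _ _
  have hDC : ∀ i, C i ≤ D i := fun i => le_max_right _ _
  have hD0 : ∀ i, 0 < D i := fun i => lt_of_lt_of_le zero_lt_one (hD1 i)
  set g : Fin ℓ → X → ℝ := fun i x => f i x / D i with hg
  have hgB : ∀ i, BM (g i) := fun i => ⟨(hf i).div_const _, fun x => by
    simp only [hg]
    rw [abs_div, abs_of_pos (hD0 i), div_le_one (hD0 i)]
    exact (hC i x).trans (hDC i)⟩
  set P : ℝ := ∏ i, D i with hP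
  have hP0 : 0 < P := Finset.prod_pos fun i _ => hD0 i
  have hfg : ∀ (y : Fin ℓ → X), ∏ i, f i (y i) = P * ∏ i, g i (y i) := by
    intro y
    rw [hP, ← Finset.prod_mul_distrib]
    refine Finset.prod_congr rfl fun i _ => ?_
    simp only [hg]
    field_simp [(hD0 i).ne']
  have hig : ∏ i, ∫ x, f i x ∂μ = P * ∏ i, ∫ x, g i x ∂μ := by
    rw [hP, ← Finset.prod_mul_distrib]
    refine Finset.prod_congr rfl fun i _ => ?_
    simp only [hg]
    rw [integral_div]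
    field_simp [(hD0 i).ne']
  filter_upwards [wm_control ℓ X μ T hT hW p hp hp0 g hgB (ε / P ^ 2) (by positivity)]
    with N hN w hw
  have e1 : ∀ x, ((1 / (N : ℝ)) * ∑ n ∈ Icc 1 N, w n * (∏ i : Fin ℓ,
      f i ((T.toEquiv ^ (p i * ⌊(n : ℝ) * Real.sin (n : ℝ)⌋)) x) - ∏ i, ∫ x, f i x ∂μ)) ^ 2
      = P ^ 2 * ((1 / (N : ℝ)) * ∑ n ∈ Icc 1 N, w n * (∏ i : Fin ℓ,
      g i ((T.toEquiv ^ (p i * ⌊(n : ℝ) * Real.sin (n : ℝ)⌋)) x) - ∏ i, ∫ x, g i x ∂μ)) ^ 2 := by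
    intro x
    have e2 : ∀ n : ℕ, w n * (∏ i : Fin ℓ,
        f i ((T.toEquiv ^ (p i * ⌊(n : ℝ) * Real.sin (n : ℝ)⌋)) x) - ∏ i, ∫ x, f i x ∂μ)
        = P * (w n * (∏ i : Fin ℓ,
        g i ((T.toEquiv ^ (p i * ⌊(n : ℝ) * Real.sin (n : ℝ)⌋)) x) - ∏ i, ∫ x, g i x ∂μ)) := by
      intro n
      rw [hfg (fun i => (T.toEquiv ^ (p i * ⌊(n : ℝ) * Real.sin (n : ℝ)⌋)) x), hig]
      ring
    rw [Finset.sum_congr rfl fun n _ => e2 n, ← Finset.mul_sum]
    ring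
  simp_rw [e1]
  rw [integral_const_mul]
  have := mul_le_mul_of_nonneg_left (hN w hw) (by positivity : 0 ≤ P ^ 2)
  refine this.trans (le_of_eq ?_)
  field_simp

end Pool.Agent.H62.NSin
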